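import Mathlib

/-! Calculus of divergence-free fields on `ℝ³`. -/

open Set MeasureTheory
open scoped RealInnerProductSpace

namespace Pool.Agent.H402AX

abbrev V := EuclideanSpace ℝ (Fin 3)

/-- standard unit vectors -/
noncomputable def ev (i : Fin 3) : V := EuclideanSpace.single i 1

/-- divergence -/
noncomputable def divg (v : V → V) (x : V) : ℝ := ∑ i, (fderiv ℝ v x (ev i)) i

/-- `C^1` compactly supported divergence-free fields -/
structure TF (v : V → V) : Prop where
  cd : ContDiff ℝ 1 v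
  cs : HasCompactSupport v
  dv : ∀ x, divg v x = 0

theorem integrable_of_zero {F : V → ℝ} (hF : Continuous F) {R : ℝ} (h : ∀ x, R < ‖x‖ → F x = 0) :
    Integrable F := by
  refine hF.integrable_of_hasCompactSupport ?_
  refine HasCompactSupport.intro (isCompact_closedBall (0 : V) R) fun x hx => h x ?_
  simpa using hx

theorem out_of_cs {E : Type*} [NormedAddCommGroup E] [NormedSpace ℝ E] {v : V → E}
    (hv : HasCompactSupport v) :
    ∃ R, ∀ x, R < ‖x‖ → v x = 0 ∧ fderiv ℝ v x = 0 := by
  obtain ⟨R, hR⟩ := hv.isBounded.subset_closedBall 0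
  refine ⟨R, fun x hx => ?_⟩
  have hx' : x ∉ tsupport v := fun h => by
    have := hR h
    simp at this
    linarith
  exact ⟨image_eq_zero_of_notMem_tsupport hx', fderiv_of_notMem_tsupport _ hx'⟩

theorem apply_sum (L : V →L[ℝ] ℝ) (y : V) : L y = ∑ i, L (ev i) * y i := by
  have h : y = ∑ i, y i • ev i := by
    ext j
    fin_cases j <;> simp [ev, Fin.sum_univ_three]
  conv_lhs => rw [h]
  rw [map_sum]
  refine Finset.sum_congr rfl fun i _ => ?_
  rw [map_smul, smul_eq_mul, mul_comm]

theorem int_fderiv_div {g : V → ℝ} {v : V → V} (hg : ContDiff ℝ 1 g) (hv : ContDiff ℝ 1 v)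
    (hd : ∀ x, divg v x = 0) (hc : HasCompactSupport g ∨ HasCompactSupport v) :
    ∫ x, fderiv ℝ g x (v x) = 0 := by
  have hR : ∃ R, ∀ x, R < ‖x‖ → (g x = 0 ∧ fderiv ℝ g x = 0) ∨ (v x = 0 ∧ fderiv ℝ v x = 0) := by
    rcases hc with h | h
    · obtain ⟨R, hR⟩ := out_of_cs h
      exact ⟨R, fun x hx => Or.inl (hR x hx)⟩
    · obtain ⟨R, hR⟩ := out_of_cs h
      exact ⟨R, fun x hx => Or.inr (hR x hx)⟩
  obtain ⟨R, hR⟩ := hR
  have hgc : Continuous (fderiv ℝ g) := hg.continuous_fderiv (by norm_num)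
  have hvc : Continuous (fderiv ℝ v) := hv.continuous_fderiv (by norm_num)
  have hg0 := hg.continuous
  have hv0 := hv.continuous
  have hvi : ∀ i : Fin 3, ContDiff ℝ 1 (fun x => v x i) := fun i => by fun_prop
  have hdi : ∀ (i : Fin 3) x, fderiv ℝ (fun x => v x i) x (ev i) = (fderiv ℝ v x (ev i)) i := by
    intro i x
    have h1 : HasFDerivAt v (fderiv ℝ v x) x := (hv.differentiable (by norm_num) x).hasFDerivAt
    have h2 : HasFDerivAt (fun x => v x i)
        ((EuclideanSpace.proj i : V →L[ℝ] ℝ).comp (fderiv ℝ v x)) x :=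
      (EuclideanSpace.proj i : V →L[ℝ] ℝ).hasFDerivAt.comp x h1
    rw [h2.fderiv]
    simp
  have e1 : ∀ i, ∫ x, g x * (fderiv ℝ v x (ev i)) i = - ∫ x, fderiv ℝ g x (ev i) * v x i := by
    intro i
    have := integral_mul_fderiv_eq_neg_fderiv_mul_of_integrable (μ := (volume : Measure V))
      (f := g) (g := fun x => v x i) (v := ev i) ?_ ?_ ?_ ?_ ?_
    · simp only [hdi] at this
      exact this
    · refine integrable_of_zero (by fun_prop) (R := R) fun x hx => ?_
      rcases hR x hx with h | h <;> simp [h.1, h.2]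
    · simp only [hdi]
      refine integrable_of_zero (by fun_prop) (R := R) fun x hx => ?_
      rcases hR x hx with h | h <;> simp [h.1, h.2]
    · refine integrable_of_zero (by fun_prop) (R := R) fun x hx => ?_
      rcases hR x hx with h | h <;> simp [h.1]
    · exact fun x _ => hg.differentiable (by norm_num) x
    · exact fun x _ => (hvi i).differentiable (by norm_num) x
  have e2 : ∀ x, fderiv ℝ g x (v x) = ∑ i, fderiv ℝ g x (ev i) * v x i := fun x => apply_sum _ _
  simp only [e2]
  rw [integral_finsetSum]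
  · have e3 : ∀ i, ∫ x, fderiv ℝ g x (ev i) * v x i = - ∫ x, g x * (fderiv ℝ v x (ev i)) i := by
      intro i; rw [e1 i, neg_neg]
    simp only [e3]
    rw [Finset.sum_neg_distrib, ← integral_finsetSum]
    · have e4 : ∀ x, ∑ i, g x * (fderiv ℝ v x (ev i)) i = 0 := by
        intro x
        rw [← Finset.mul_sum]
        have := hd x
        unfold divg at this
        rw [this, mul_zero]
      simp [e4]
    · intro i _
      refine integrable_of_zero (by fun_prop) (R := R) fun x hx => ?_
      rcases hR x hx with h | h <;> simp [h.1, h.2]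
  · intro i _
    refine integrable_of_zero (by fun_prop) (R := R) fun x hx => ?_
    rcases hR x hx with h | h <;> simp [h.1, h.2]

theorem TF.out {v : V → V} (hv : TF v) : ∃ R, ∀ x, R < ‖x‖ → v x = 0 ∧ fderiv ℝ v x = 0 :=
  out_of_cs hv.cs

theorem TF.cont {v : V → V} (hv : TF v) : Continuous v := hv.cd.continuous

theorem TF.contd {v : V → V} (hv : TF v) : Continuous (fderiv ℝ v) :=
  hv.cd.continuous_fderiv (by norm_num)

theorem TF.diff {v : V → V} (hv : TF v) : Differentiable ℝ v :=
  hv.cd.differentiable (by norm_num)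

theorem divg_add {u v : V → V} (hu : Differentiable ℝ u) (hv : Differentiable ℝ v) (x : V) :
    divg (u + v) x = divg u x + divg v x := by
  unfold divg
  rw [fderiv_add (hu x) (hv x)]
  simp [Finset.sum_add_distrib]

theorem divg_smul {u : V → V} (hu : Differentiable ℝ u) (c : ℝ) (x : V) :
    divg (c • u) x = c * divg u x := by
  unfold divg
  rw [fderiv_const_smul (hu x)]
  simp [Finset.mul_sum]

theorem TF.add {u v : V → V} (hu : TF u) (hv : TF v) : TF (u + v) where
  cd := hu.cd.add hv.cd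
  cs := hu.cs.add hv.cs
  dv x := by rw [divg_add hu.diff hv.diff, hu.dv, hv.dv, add_zero]

theorem TF.smul {u : V → V} (hu : TF u) (c : ℝ) : TF (c • u) where
  cd := hu.cd.const_smul c
  cs := by
    obtain ⟨R, hR⟩ := hu.out
    refine HasCompactSupport.intro (isCompact_closedBall (0 : V) R) fun x hx => ?_
    have : R < ‖x‖ := by simpa using hx
    simp [(hR x this).1]
  dv x := by rw [divg_smul hu.diff, hu.dv, mul_zero]

theorem TF.zero : TF (0 : V → V) where
  cd := contDiff_const
  cs := HasCompactSupport.zero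
  dv x := by simp [divg]

theorem TF.neg {u : V → V} (hu : TF u) : TF (-u) := by
  have := hu.smul (-1)
  simpa using this

theorem TF.sub {u v : V → V} (hu : TF u) (hv : TF v) : TF (u - v) := by
  rw [sub_eq_add_neg]; exact hu.add hv.neg

theorem TF.sum {ι : Type*} {s : Finset ι} {u : ι → V → V} (hu : ∀ i ∈ s, TF (u i)) :
    TF (∑ i ∈ s, u i) := by
  classical
  induction s using Finset.induction_on with
  | empty => simpa using TF.zero
  | insert a s ha ih =>
    rw [Finset.sum_insert ha]
    exact (hu a (Finset.mem_insert_self _ _)).add (ih fun i hi => hu i (Finset.mem_insert_of_mem hi))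

/-- `L²` pairing -/
noncomputable def ip (u v : V → V) : ℝ := ∫ x, ⟪u x, v x⟫

/-- `∫ u · (Dw) v` -/
noncomputable def tri (u w v : V → V) : ℝ := ∫ x, ⟪u x, fderiv ℝ w x (v x)⟫

/-- Dirichlet form -/
noncomputable def dir (u v : V → V) : ℝ := ∫ x, ∑ i, ⟪fderiv ℝ u x (ev i), fderiv ℝ v x (ev i)⟫

theorem ip_comm (u v : V → V) : ip u v = ip v u := by
  unfold ip; simp only [real_inner_comm]

theorem ip_int {u v : V → V} (hu : Continuous u) (hv : TF v) : Integrable fun x => ⟪u x, v x⟫ := by
  obtain ⟨R, hR⟩ := hv.out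
  have := hv.cont
  exact integrable_of_zero (by fun_prop) (R := R) fun x hx => by simp [(hR x hx).1]

theorem tri_int {u w v : V → V} (hu : Continuous u) (hw : TF w) (hv : Continuous v) :
    Integrable fun x => ⟪u x, fderiv ℝ w x (v x)⟫ := by
  obtain ⟨R, hR⟩ := hw.out
  have := hw.contd
  exact integrable_of_zero (by fun_prop) (R := R) fun x hx => by simp [(hR x hx).2]

theorem dir_int {u v : V → V} (hu : Continuous (fderiv ℝ u)) (hv : TF v) :
    Integrable fun x => ∑ i, ⟪fderiv ℝ u x (ev i), fderiv ℝ v x (ev i)⟫ := by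
  obtain ⟨R, hR⟩ := hv.out
  have := hv.contd
  exact integrable_of_zero (by fun_prop) (R := R) fun x hx => by simp [(hR x hx).2]

theorem ip_add_left {u₁ u₂ v : V → V} (h₁ : Continuous u₁) (h₂ : Continuous u₂) (hv : TF v) :
    ip (u₁ + u₂) v = ip u₁ v + ip u₂ v := by
  unfold ip
  rw [← integral_add (ip_int h₁ hv) (ip_int h₂ hv)]
  simp [inner_add_left]

theorem ip_smul_left (c : ℝ) (u v : V → V) : ip (c • u) v = c * ip u v := by
  unfold ip
  rw [← integral_const_mul]
  simp [inner_smul_left]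

theorem ip_sub_left {u₁ u₂ v : V → V} (h₁ : Continuous u₁) (h₂ : Continuous u₂) (hv : TF v) :
    ip (u₁ - u₂) v = ip u₁ v - ip u₂ v := by
  unfold ip
  rw [← integral_sub (ip_int h₁ hv) (ip_int h₂ hv)]
  simp [inner_sub_left]

theorem ip_sum_left {ι : Type*} {s : Finset ι} {u : ι → V → V} {v : V → V}
    (hu : ∀ i ∈ s, Continuous (u i)) (hv : TF v) :
    ip (∑ i ∈ s, u i) v = ∑ i ∈ s, ip (u i) v := by
  unfold ip
  rw [← integral_finsetSum _ (fun i hi => ip_int (hu i hi) hv)]
  simp [sum_inner]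

theorem tri_add_left {u₁ u₂ w v : V → V} (h₁ : Continuous u₁) (h₂ : Continuous u₂) (hw : TF w)
    (hv : Continuous v) : tri (u₁ + u₂) w v = tri u₁ w v + tri u₂ w v := by
  unfold tri
  rw [← integral_add (tri_int h₁ hw hv) (tri_int h₂ hw hv)]
  simp [inner_add_left]

theorem tri_add_right {u w v₁ v₂ : V → V} (hu : Continuous u) (hw : TF w)
    (h₁ : Continuous v₁) (h₂ : Continuous v₂) : tri u w (v₁ + v₂) = tri u w v₁ + tri u w v₂ := by
  unfold tri
  rw [← integral_add (tri_int hu hw h₁) (tri_int hu hw h₂)]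
  simp [inner_add_right]

theorem tri_smul_left (c : ℝ) (u w v : V → V) : tri (c • u) w v = c * tri u w v := by
  unfold tri
  rw [← integral_const_mul]
  simp [inner_smul_left]

theorem tri_smul_right (c : ℝ) (u w v : V → V) : tri u w (c • v) = c * tri u w v := by
  unfold tri
  rw [← integral_const_mul]
  simp [inner_smul_right]

theorem tri_add_mid {u w₁ w₂ v : V → V} (hu : Continuous u) (h₁ : TF w₁) (h₂ : TF w₂)
    (hv : Continuous v) : tri u (w₁ + w₂) v = tri u w₁ v + tri u w₂ v := by
  unfold tri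
  rw [← integral_add (tri_int hu h₁ hv) (tri_int hu h₂ hv)]
  congr 1
  ext x
  rw [fderiv_add (h₁.diff x) (h₂.diff x)]
  simp [inner_add_right]

theorem tri_smul_mid (c : ℝ) {u w v : V → V} (hw : TF w) : tri u (c • w) v = c * tri u w v := by
  unfold tri
  rw [← integral_const_mul]
  congr 1
  ext x
  rw [fderiv_const_smul (hw.diff x)]
  simp [inner_smul_right]

theorem dir_add_right {u w₁ w₂ : V → V} (hu : Continuous (fderiv ℝ u)) (h₁ : TF w₁) (h₂ : TF w₂) :
    dir u (w₁ + w₂) = dir u w₁ + dir u w₂ := by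
  unfold dir
  rw [← integral_add (dir_int hu h₁) (dir_int hu h₂)]
  congr 1
  ext x
  rw [fderiv_add (h₁.diff x) (h₂.diff x)]
  simp [inner_add_right, Finset.sum_add_distrib]

theorem dir_smul_right (c : ℝ) {u w : V → V} (hw : TF w) : dir u (c • w) = c * dir u w := by
  unfold dir
  rw [← integral_const_mul]
  congr 1
  ext x
  rw [fderiv_const_smul (hw.diff x)]
  simp [inner_smul_right, Finset.mul_sum]

theorem dir_comm (u v : V → V) : dir u v = dir v u := by
  unfold dir; simp only [real_inner_comm]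

/-- `∫ (Du) v · w + ∫ u · (Dw) v = 0` -/
theorem ibp {u w v : V → V} (hu : ContDiff ℝ 1 u) (hw : TF w) (hv : ContDiff ℝ 1 v)
    (hd : ∀ x, divg v x = 0) : ∫ x, ⟪fderiv ℝ u x (v x), w x⟫ = - tri u w v := by
  have hg : ContDiff ℝ 1 (fun x => ⟪u x, w x⟫) := hu.inner ℝ hw.cd
  have hc : HasCompactSupport (fun x => ⟪u x, w x⟫) := by
    obtain ⟨R, hR⟩ := hw.out
    refine HasCompactSupport.intro (isCompact_closedBall (0 : V) R) fun x hx => ?_
    have : R < ‖x‖ := by simpa using hx
    simp [(hR x this).1]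
  have h1 := int_fderiv_div hg hv hd (Or.inl hc)
  have h2 : ∀ x, fderiv ℝ (fun x => ⟪u x, w x⟫) x (v x)
      = ⟪u x, fderiv ℝ w x (v x)⟫ + ⟪fderiv ℝ u x (v x), w x⟫ := fun x =>
    fderiv_inner_apply (𝕜 := ℝ) (hu.differentiable (by norm_num) x) (hw.diff x) (v x)
  simp only [h2] at h1
  have hud : Continuous (fderiv ℝ u) := hu.continuous_fderiv (by norm_num)
  have huc := hu.continuous
  have hvc := hv.continuous
  rw [integral_add (tri_int huc hw hvc) (ip_int (by fun_prop) hw)] at h1
  unfold tri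
  linarith

theorem tri_self {w v : V → V} (hw : TF w) (hv : ContDiff ℝ 1 v) (hd : ∀ x, divg v x = 0) :
    tri w w v = 0 := by
  have h := ibp hw.cd hw hv hd
  have h2 : ∫ x, ⟪fderiv ℝ w x (v x), w x⟫ = tri w w v := by
    unfold tri; simp only [real_inner_comm]
  linarith

theorem int_symm {S : V →L[ℝ] V} (hS : ∀ x y, ⟪S x, y⟫ = ⟪x, S y⟫) (b : V) {v : V → V}
    (hv : TF v) : ∫ x, ⟪S x + b, v x⟫ = 0 := by
  have hg : ContDiff ℝ 1 (fun x : V => 1 / 2 * ⟪S x, x⟫ + ⟪b, x⟫) := by
    have : ContDiff ℝ 1 (fun x : V => S x) := S.contDiff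
    exact (contDiff_const.mul (this.inner ℝ contDiff_id)).add (contDiff_const.inner ℝ contDiff_id)
  have h1 := int_fderiv_div hg hv.cd hv.dv (Or.inr hv.cs)
  have h2 : ∀ x, fderiv ℝ (fun x : V => 1 / 2 * ⟪S x, x⟫ + ⟪b, x⟫) x (v x) = ⟪S x + b, v x⟫ := by
    intro x
    have e1 : HasFDerivAt (fun x : V => ⟪S x, x⟫)
        ((fderivInnerCLM ℝ (S x, x)).comp (S.prod (ContinuousLinearMap.id ℝ V))) x :=
      S.hasFDerivAt.inner ℝ (hasFDerivAt_id x)
    have e2 : HasFDerivAt (fun x : V => ⟪b, x⟫)
        ((fderivInnerCLM ℝ (b, x)).comp ((0 : V →L[ℝ] V).prod (ContinuousLinearMap.id ℝ V))) x :=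
      (hasFDerivAt_const b x).inner ℝ (hasFDerivAt_id x)
    have e3 := ((e1.const_mul (1 / 2 : ℝ)).add e2).fderiv
    have e4 : fderiv ℝ (fun x : V => 1 / 2 * ⟪S x, x⟫ + ⟪b, x⟫) x = _ := e3
    rw [e4]
    simp only [ContinuousLinearMap.add_apply, ContinuousLinearMap.smul_apply,
      ContinuousLinearMap.comp_apply, ContinuousLinearMap.prod_apply,
      ContinuousLinearMap.coe_id', id_eq, fderivInnerCLM_apply, ContinuousLinearMap.zero_apply,
      inner_zero_left, add_zero, smul_eq_mul, inner_add_left]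
    rw [hS (v x) x, real_inner_comm (S x) (v x)]
    ring
  simp only [h2] at h1
  exact h1

theorem int_dir_const {S : V →L[ℝ] V} {v : V → V} (hv : TF v) :
    ∫ x, ∑ i, ⟪S (ev i), fderiv ℝ v x (ev i)⟫ = 0 := by
  obtain ⟨R, hR⟩ := hv.out
  have hc := hv.contd
  rw [integral_finsetSum]
  · refine Finset.sum_eq_zero fun i _ => ?_
    have h := integral_mul_fderiv_eq_neg_fderiv_mul_of_integrable (μ := (volume : Measure V))
      (f := fun _ => (1 : ℝ)) (g := fun x => ⟪S (ev i), v x⟫) (v := ev i) ?_ ?_ ?_ ?_ ?_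
    · have h2 : ∀ x, fderiv ℝ (fun x => ⟪S (ev i), v x⟫) x (ev i)
          = ⟪S (ev i), fderiv ℝ v x (ev i)⟫ := by
        intro x
        have e2 := (hasFDerivAt_const (S (ev i)) x).inner ℝ (hv.diff x).hasFDerivAt
        rw [e2.fderiv]
        simp
      simp only [h2] at h
      simpa using h
    · simp
    · have h2 : ∀ x, fderiv ℝ (fun x => ⟪S (ev i), v x⟫) x (ev i)
          = ⟪S (ev i), fderiv ℝ v x (ev i)⟫ := by
        intro x
        have e2 := (hasFDerivAt_const (S (ev i)) x).inner ℝ (hv.diff x).hasFDerivAt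
        rw [e2.fderiv]
        simp
      simp only [h2]
      exact integrable_of_zero (by fun_prop) (R := R) fun x hx => by simp [(hR x hx).2]
    · have := hv.cont
      exact integrable_of_zero (by fun_prop) (R := R) fun x hx => by simp [(hR x hx).1]
    · exact fun x _ => differentiableAt_const _
    · intro x _
      exact (differentiableAt_const _).inner ℝ (hv.diff x)
  · intro i _
    exact integrable_of_zero (by fun_prop) (R := R) fun x hx => by simp [(hR x hx).2]

end Pool.Agent.H402AX
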