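import Mathlib
import Pool.Agent.H402AX.Stage

/-! Existence of good parameters. -/

open Set Finset Filter Topology

namespace Pool.Agent.H402AX

/-- `L n = λ (6/5)^n` -/
noncomputable def LL (lam : ℝ) (n : ℕ) : ℝ := lam * (6 / 5) ^ n

/-- scales: `M n ^ 2` is the frequency of shell `n` -/
noncomputable def MM (lam : ℝ) (n : ℕ) : ℝ := Real.exp (LL lam n / 2)

/-- the exponentially small seeds -/
noncomputable def EE (lam : ℝ) (n : ℕ) : ℝ := Real.exp (-(Real.exp (25 / 72 * LL lam n) / 16))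

theorem LL_succ (lam : ℝ) (n : ℕ) : LL lam (n + 1) = 6 / 5 * LL lam n := by
  unfold LL; ring

theorem LL_ge {lam : ℝ} (h : 0 ≤ lam) (n : ℕ) : lam ≤ LL lam n := by
  unfold LL
  have : (1 : ℝ) ≤ (6 / 5) ^ n := one_le_pow₀ (by norm_num)
  nlinarith

theorem pow_le_LL {lam : ℝ} (h : 1 ≤ lam) (n : ℕ) : (6 / 5 : ℝ) ^ n ≤ LL lam n := by
  unfold LL
  have : (0 : ℝ) ≤ (6 / 5) ^ n := by positivity
  nlinarith

/-- the master inequality -/
theorem master (C : ℝ) : ∃ l0 ≥ (1 : ℝ), ∀ lam ≥ l0, ∀ n,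
    C * 262144 ^ n * (1 + LL lam n) ^ 2 ≤ Real.exp (LL lam n / 50) := by
  have h1 := (isLittleO_pow_exp_pos_mul_atTop 71 (b := 1 / 50) (by norm_num)).bound
    (c := 1 / (4 * (|C| + 1))) (by positivity)
  obtain ⟨x0, hx0⟩ := eventually_atTop.mp h1
  refine ⟨max 1 x0, le_max_left _ _, fun lam hlam n => ?_⟩
  have hlam1 : 1 ≤ lam := (le_max_left _ _).trans hlam
  set x := LL lam n with hx
  have hxl : lam ≤ x := LL_ge (by linarith) n
  have hx1 : 1 ≤ x := hlam1.trans hxl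
  have h2 := hx0 x (((le_max_right _ _).trans hlam).trans hxl)
  rw [Real.norm_eq_abs, Real.norm_eq_abs, abs_of_pos (Real.exp_pos _), abs_of_pos (by positivity)] at h2
  have h3 : (262144 : ℝ) ^ n ≤ x ^ 69 := by
    have h4 : (262144 : ℝ) ≤ (6 / 5) ^ 69 := by norm_num
    calc (262144 : ℝ) ^ n ≤ ((6 / 5) ^ 69) ^ n := pow_le_pow_left₀ (by norm_num) h4 n
      _ = ((6 / 5) ^ n) ^ 69 := by rw [← pow_mul, ← pow_mul, mul_comm]
      _ ≤ x ^ 69 := pow_le_pow_left₀ (by positivity) (pow_le_LL hlam1 n) 69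
  have h5 : (1 + x) ^ 2 ≤ 4 * x ^ 2 := by nlinarith
  have h6 : C * 262144 ^ n * (1 + x) ^ 2 ≤ (|C| + 1) * x ^ 69 * (4 * x ^ 2) := by
    have h7 : C ≤ |C| + 1 := by linarith [le_abs_self C]
    have h8 : 0 ≤ |C| + 1 := by positivity
    have h9 : C * 262144 ^ n ≤ (|C| + 1) * x ^ 69 :=
      mul_le_mul h7 h3 (by positivity) h8
    calc C * 262144 ^ n * (1 + x) ^ 2 ≤ (|C| + 1) * x ^ 69 * (1 + x) ^ 2 :=
          mul_le_mul_of_nonneg_right h9 (by positivity)
      _ ≤ _ := mul_le_mul_of_nonneg_left h5 (by positivity)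
  have h10 : (|C| + 1) * x ^ 69 * (4 * x ^ 2) = (4 * (|C| + 1)) * x ^ 71 := by ring
  have h11 : x / 50 = 1 / 50 * x := by ring
  rw [h11]
  rw [h10] at h6
  refine h6.trans ?_
  have h12 : 0 < 4 * (|C| + 1) := by positivity
  calc 4 * (|C| + 1) * x ^ 71 ≤ 4 * (|C| + 1) * (1 / (4 * (|C| + 1)) * Real.exp (1 / 50 * x)) :=
        mul_le_mul_of_nonneg_left h2 h12.le
    _ = Real.exp (1 / 50 * x) := by field_simp

/-- exponentials beat linear functions -/
theorem exp_beats (b A : ℝ) (hb : 0 < b) : ∃ x0 ≥ (1 : ℝ), ∀ x ≥ x0, A * x ≤ Real.exp (b * x) := by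
  have h1 := (isLittleO_pow_exp_pos_mul_atTop 1 hb).bound (c := 1 / (|A| + 1)) (by positivity)
  obtain ⟨x0, hx0⟩ := eventually_atTop.mp h1
  refine ⟨max 1 x0, le_max_left _ _, fun x hx => ?_⟩
  have hx1 : 1 ≤ x := (le_max_left _ _).trans hx
  have h2 := hx0 x ((le_max_right _ _).trans hx)
  rw [Real.norm_eq_abs, Real.norm_eq_abs, abs_of_pos (Real.exp_pos _), pow_one,
    abs_of_pos (by linarith)] at h2
  have h3 : 0 < |A| + 1 := by positivity
  calc A * x ≤ (|A| + 1) * x := by nlinarith [le_abs_self A]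
    _ ≤ (|A| + 1) * (1 / (|A| + 1) * Real.exp (b * x)) := mul_le_mul_of_nonneg_left h2 h3.le
    _ = Real.exp (b * x) := by field_simp

theorem EE_pos (lam : ℝ) (n : ℕ) : 0 < EE lam n := Real.exp_pos _

theorem MM_pos (lam : ℝ) (n : ℕ) : 0 < MM lam n := Real.exp_pos _

theorem MM_pow (lam : ℝ) (n j : ℕ) : MM lam n ^ j = Real.exp (j * LL lam n / 2) := by
  unfold MM
  rw [← Real.exp_nat_mul]
  congr 1; ring

theorem EE_le : ∃ l0 ≥ (1 : ℝ), ∀ lam ≥ l0, ∀ n, EE lam n ≤ Real.exp (-(40 * LL lam n)) := by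
  obtain ⟨x0, hx0, h⟩ := exp_beats (25 / 72) 640 (by norm_num)
  refine ⟨x0, hx0, fun lam hlam n => ?_⟩
  unfold EE
  apply Real.exp_le_exp.mpr
  have h1 := h (LL lam n) (hlam.trans (LL_ge (by linarith) n))
  linarith

theorem LL_tendsto {lam : ℝ} (h : 1 ≤ lam) : Tendsto (LL lam) atTop atTop := by
  refine tendsto_atTop_mono (pow_le_LL h) ?_
  exact tendsto_pow_atTop_atTop_of_one_lt (by norm_num)

theorem EE_summable {lam : ℝ} (h : 1 ≤ lam) (j : ℕ) :
    Summable (fun n => Real.sqrt (EE lam n) * MM lam n ^ j) := by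
  obtain ⟨x0, hx0, hx⟩ := exp_beats (25 / 72) (16 * (j + 2)) (by norm_num)
  have h1 : ∀ᶠ n in atTop, x0 ≤ LL lam n := (LL_tendsto h).eventually_ge_atTop x0
  have h2 : ∀ᶠ n : ℕ in atTop, ‖Real.sqrt (EE lam n) * MM lam n ^ j‖ ≤ (Real.exp (-1 / 5)) ^ n := by
    filter_upwards [h1] with n hn
    have h3 := hx (LL lam n) hn
    have h4 : Real.sqrt (EE lam n) = Real.exp (-(Real.exp (25 / 72 * LL lam n) / 16) / 2) := by
      unfold EE; rw [Real.exp_half]
    rw [Real.norm_eq_abs, abs_of_nonneg (by have := MM_pos lam n; positivity), h4, MM_pow,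
      ← Real.exp_add, ← Real.exp_nat_mul]
    apply Real.exp_le_exp.mpr
    have h5 : (n : ℝ) / 5 ≤ LL lam n := by
      have h6 := one_add_mul_le_pow (a := (1 / 5 : ℝ)) (by norm_num) n
      have h7 := pow_le_LL h n
      have h8 : (1 + 1 / 5 : ℝ) ^ n = (6 / 5) ^ n := by norm_num
      rw [h8] at h6
      linarith
    have h6 : 0 ≤ LL lam n := by linarith [LL_ge (by linarith : 0 ≤ lam) n]
    nlinarith
  refine Summable.of_norm_bounded_eventually_nat (g := fun n => (Real.exp (-1 / 5)) ^ n) ?_ h2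
  exact summable_geometric_of_lt_one (Real.exp_pos _).le (by
    rw [show (1 : ℝ) = Real.exp 0 by simp]
    exact Real.exp_lt_exp.mpr (by norm_num))

end Pool.Agent.H402AX
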