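import Mathlib
import Pool.Agent.H402AX.Static
import Pool.Agent.H402AX.Cascade
import Pool.Agent.H402AX.ParExB

/-! From a solution of the Galerkin system to the shell system. -/

open Set MeasureTheory Filter Topology Finset
open scoped RealInnerProductSpace ContDiff

namespace Pool.Agent.H402AX

/-- Solutions of the Galerkin system on `[0, T]`. -/
structure GSol (ν : ℝ) (Φ : ℕ → V → V) (u0 : V → V) (T : ℝ) (u : ℝ → V → V) : Prop where
  init : u 0 = u0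
  mem : ∀ t ∈ Icc 0 T, InX Φ (u t)
  bdd : ∃ C, ∀ t ∈ Icc 0 T, ∀ x, ‖u t x‖ ≤ C
  eq : ∀ k, ∀ t ∈ Icc 0 T, HasDerivWithinAt (fun s => ip (u s) (Φ k))
    (tri (u t) (Φ k) (u t) - ν * dir (u t) (Φ k)) (Icc 0 T) t

section

variable {φ ρ ψ : V → V} {x₁ : V} {M ε : ℕ → ℝ} {ν T : ℝ} {u0 : V → V} {u : ℝ → V → V}

theorem a_deriv (h : GSol ν (Fam φ ψ ρ M ε) u0 T u) (n : ℕ) {t : ℝ} (ht : t ∈ Icc 0 T) :
    HasDerivWithinAt (fun s => af φ M (u s) n)
      ((tri (u t) (sc (M n) φ) (u t) - ν * dir (u t) (sc (M n) φ)) / ip φ φ) (Icc 0 T) t :=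
  (h.eq (n + 1) t ht).div_const _

theorem c_deriv (h : GSol ν (Fam φ ψ ρ M ε) u0 T u) {t : ℝ} (ht : t ∈ Icc 0 T) :
    HasDerivWithinAt (fun s => cf ψ ρ M ε (u s))
      ((tri (u t) (PP ψ ρ M ε) (u t) - ν * dir (u t) (PP ψ ρ M ε))
        / ip (PP ψ ρ M ε) (PP ψ ρ M ε)) (Icc 0 T) t :=
  (h.eq 0 t ht).div_const _

noncomputable def En (φ ψ ρ : V → V) (M ε : ℕ → ℝ) (v : V → V) (n : ℕ) : ℝ :=
  cf ψ ρ M ε v ^ 2 * ip (PP ψ ρ M ε) (PP ψ ρ M ε) + ip φ φ * ∑ m ∈ range n, af φ M v m ^ 2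

theorem PP_ip_pos (P : Prof φ ρ ψ x₁) (S : Scl M ε) : 0 < ip (PP ψ ρ M ε) (PP ψ ρ M ε) :=
  P.ψ_pos.trans_le (PP_pos P S)

theorem E_deriv (P : Prof φ ρ ψ x₁) (S : Scl M ε) (h : GSol ν (Fam φ ψ ρ M ε) u0 T u) (n : ℕ)
    {t : ℝ} (ht : t ∈ Icc 0 T) :
    HasDerivWithinAt (fun s => En φ ψ ρ M ε (u s) n)
      (2 * (cf ψ ρ M ε (u t) * (tri (u t) (PP ψ ρ M ε) (u t) - ν * dir (u t) (PP ψ ρ M ε))
      + ∑ m ∈ range n, af φ M (u t) m * (tri (u t) (sc (M m) φ) (u t)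
        - ν * dir (u t) (sc (M m) φ)))) (Icc 0 T) t := by
  have hF := φ_pos P
  have hP := PP_ip_pos P S
  have h1 := ((c_deriv h ht).pow 2).mul_const (ip (PP ψ ρ M ε) (PP ψ ρ M ε))
  have h2 : HasDerivWithinAt (fun s => ∑ m ∈ range n, af φ M (u s) m ^ 2)
      (∑ m ∈ range n, (2 : ℕ) * af φ M (u t) m ^ (2 - 1)
        * ((tri (u t) (sc (M m) φ) (u t) - ν * dir (u t) (sc (M m) φ)) / ip φ φ)) (Icc 0 T) t :=
    HasDerivWithinAt.fun_sum fun m _ => (a_deriv h m ht).pow 2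
  have h3 := h1.add (h2.const_mul (ip φ φ))
  refine HasDerivWithinAt.congr_deriv h3 ?_
  rw [mul_add, mul_sum, mul_sum]
  congr 1
  · field_simp
    simp
    ring
  · refine sum_congr rfl fun m _ => ?_
    field_simp
    simp
    ring

/-- solution dependent bounds -/
theorem cf_bdd (P : Prof φ ρ ψ x₁) (S : Scl M ε) (h : GSol ν (Fam φ ψ ρ M ε) u0 T u) :
    ∃ C cm, 0 ≤ C ∧ (∀ t ∈ Icc 0 T, ∀ x, ‖u t x‖ ≤ C) ∧
      ∀ t ∈ Icc 0 T, |cf ψ ρ M ε (u t)| ≤ cm := by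
  obtain ⟨C, hC⟩ := h.bdd
  have hPT := PP_TF P S
  obtain ⟨B0, hB0, hB⟩ := cs_bound hPT.cont (R := sr ψ) (PP_zero P S)
  refine ⟨max C 0, max C 0 * B0 * vr (sr ψ) / ip (PP ψ ρ M ε) (PP ψ ρ M ε), le_max_right _ _,
    fun t ht x => (hC t ht x).trans (le_max_left _ _), fun t ht => ?_⟩
  unfold cf
  have hP := PP_ip_pos P S
  rw [abs_div, abs_of_pos hP]
  refine div_le_div_of_nonneg_right ?_ hP.le
  unfold ip
  refine int_le_vr (fun x _ => ?_) (fun x hx => by rw [PP_zero P S x hx]; simp)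
  refine (abs_real_inner_le_norm _ _).trans ?_
  exact mul_le_mul ((hC t ht x).trans (le_max_left _ _)) (hB x) (norm_nonneg _) (le_max_right _ _)

/-- the energy estimate -/
theorem energy_dyn (P : Prof φ ρ ψ x₁) (S : Scl M ε) (hν : 0 ≤ ν) (hT0 : 0 ≤ T) (hT1 : T ≤ 1)
    (h : GSol ν (Fam φ ψ ρ M ε) u0 T u) :
    ∃ K, ∀ t ∈ Icc 0 T, ∀ n,
      En φ ψ ρ M ε (u t) n ≤ En φ ψ ρ M ε (u 0) n + K * vq M n := by
  obtain ⟨C, cm, hC0, hC, hcm⟩ := cf_bdd P S h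
  have hPT := PP_TF P S
  obtain ⟨B0, hB00, hB0⟩ := cs_bound hPT.cont (R := sr ψ) (PP_zero P S)
  obtain ⟨B, hB1, hB⟩ := cs_bound hPT.contd (R := sr ψ) (fun x hx => fderiv_zero_of (PP_zero P S) x hx)
  have hcm0 : 0 ≤ cm := (abs_nonneg _).trans (hcm 0 ⟨le_rfl, hT0⟩)
  set K0 := (cm * B + C * ‖HH‖) * (C ^ 2 + (cm * B0 + C * ‖HH‖) ^ 2) with hK0
  have hK0' : 0 ≤ K0 := by positivity
  refine ⟨2 * K0, fun t ht n => ?_⟩
  have hv := vq_nonneg S n
  have key := le_of_deriv_le (s := 0) (t := t) (fun t ht => E_deriv P S h n ht)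
    (fun t _ => hasDerivWithinAt_linear (2 * (K0 * vq M n)) 0 (Icc 0 T) t) (fun t ht => by
      refine mul_le_mul_of_nonneg_left ?_ (by norm_num)
      exact energy_vel P S (h.mem t ht) hν (hC t ht) hB0 hB (hcm t ht) n)
    ⟨le_rfl, hT0⟩ ht ht.1
  have h1 : 2 * (K0 * vq M n) * (t - 0) ≤ 2 * (K0 * vq M n) := by
    refine mul_le_of_le_one_right (by positivity) ?_
    linarith [ht.2]
  linarith

theorem energy_bounds (P : Prof φ ρ ψ x₁) (S : Scl M ε) (hν : 0 ≤ ν) (hT0 : 0 ≤ T) (hT1 : T ≤ 1)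
    (h : GSol ν (Fam φ ψ ρ M ε) u0 T u) {E : ℝ} (hE : ∀ n, En φ ψ ρ M ε (u 0) n ≤ E)
    {t : ℝ} (ht : t ∈ Icc 0 T) :
    cf ψ ρ M ε (u t) ^ 2 * ip (PP ψ ρ M ε) (PP ψ ρ M ε) ≤ E ∧
    (∀ m, ip φ φ * af φ M (u t) m ^ 2 ≤ E) ∧ ip (u t) (u t) ≤ E := by
  obtain ⟨K, hK⟩ := energy_dyn P S hν hT0 hT1 h
  have hF := φ_pos P
  have hP := PP_ip_pos P S
  refine ⟨?_, fun m => ?_, ?_⟩
  · refine le_of_vq S (K := K) (n₀ := 0) fun n _ => ?_
    have h1 := hK t ht n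
    have h2 := hE n
    have h3 : cf ψ ρ M ε (u t) ^ 2 * ip (PP ψ ρ M ε) (PP ψ ρ M ε) ≤ En φ ψ ρ M ε (u t) n := by
      unfold En
      have : 0 ≤ ip φ φ * ∑ m ∈ range n, af φ M (u t) m ^ 2 :=
        mul_nonneg hF.le (sum_nonneg fun _ _ => sq_nonneg _)
      linarith
    linarith
  · refine le_of_vq S (K := K) (n₀ := m + 1) fun n hn => ?_
    have h1 := hK t ht n
    have h2 := hE n
    have h3 : ip φ φ * af φ M (u t) m ^ 2 ≤ En φ ψ ρ M ε (u t) n := by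
      unfold En
      have h4 : af φ M (u t) m ^ 2 ≤ ∑ m ∈ range n, af φ M (u t) m ^ 2 :=
        single_le_sum (f := fun m => af φ M (u t) m ^ 2) (fun _ _ => sq_nonneg _)
          (mem_range.mpr (by omega))
      have h5 := mul_le_mul_of_nonneg_left h4 hF.le
      have h6 : 0 ≤ cf ψ ρ M ε (u t) ^ 2 * ip (PP ψ ρ M ε) (PP ψ ρ M ε) := by positivity
      linarith
    linarith
  · obtain ⟨C, cm, hC0, hC, hcm⟩ := cf_bdd P S h
    refine le_of_vq S (K := K + C ^ 2) (n₀ := 0) fun n _ => ?_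
    have h1 := hK t ht n
    have h2 := hE n
    have h3 := ip_le_un P S (h.mem t ht) (fun x => hC t ht x) n
    rw [ip_un P S] at h3
    unfold En at h1
    have h4 : En φ ψ ρ M ε (u 0) n ≤ E := h2
    unfold En at h4
    have h5 := mul_le_mul_of_nonneg_left (vr_le_vq S n) (sq_nonneg C)
    linarith

theorem tt_nonneg (P : Prof φ ρ ψ x₁) (S : Scl M ε) {v : V → V} (hv : InX (Fam φ ψ ρ M ε) v)
    (n : ℕ) : 0 ≤ tt φ ψ ρ M ε v n := by
  obtain ⟨C, hC0, hC⟩ := hv.1.bound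
  have hmono : ∀ j, tt φ ψ ρ M ε v (n + j) ≤ tt φ ψ ρ M ε v n := by
    intro j
    induction j with
    | zero => simp
    | succ j ih =>
      have h1 := tt_rec P S hv (n + j)
      have h2 : 0 ≤ (-hf φ φ) * af φ M v (n + j) ^ 2 :=
        mul_nonneg (by linarith [P.q_pos]) (sq_nonneg _)
      have h3 : 0 ≤ cf ψ ρ M ε v ^ 2 * ε (n + j) * (-hf ρ ρ) :=
        mul_nonneg (mul_nonneg (sq_nonneg _) (S.ε_pos _).le) (by linarith [P.β_pos])
      rw [← add_assoc]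
      linarith
  refine le_of_vq S (K := ‖HH‖ * (C + C * ‖HH‖) ^ 2) (n₀ := n) fun m hm => ?_
  obtain ⟨j, rfl⟩ := Nat.exists_eq_add_of_le hm
  have h5 := (abs_le.mp (tt_vel P S hv (fun x => (hC x).1) (n + j))).1
  have h6 := hmono j
  have h7 := mul_le_mul_of_nonneg_left (vr_le_vq S (n + j))
    (by positivity : 0 ≤ ‖HH‖ * (C + C * ‖HH‖) ^ 2)
  linarith

end

/-- the shell system attached to a solution -/
theorem shell_of_sol {φ ρ ψ : V → V} {x₁ : V} {ν T lam : ℝ} {u0 : V → V} {u : ℝ → V → V}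
    (P : Prof φ ρ ψ x₁) (S : Scl (MM lam) (EE lam)) (hν : 0 < ν) (hT0 : 0 ≤ T) (hT1 : T ≤ 1)
    (h : GSol ν (Fam φ ψ ρ (MM lam) (EE lam)) u0 T u)
    {E B Dd Pl Cc R : ℝ} (hE : ∀ n, En φ ψ ρ (MM lam) (EE lam) (u 0) n ≤ E)
    (hE0 : 0 ≤ E) (hPl : 0 < Pl)
    (hPl' : Pl ≤ ip (PP ψ ρ (MM lam) (EE lam)) (PP ψ ρ (MM lam) (EE lam)))
    (hB : ∀ x, ‖fderiv ℝ (PP ψ ρ (MM lam) (EE lam)) x‖ ≤ B)
    (hDd : |dir (PP ψ ρ (MM lam) (EE lam)) (PP ψ ρ (MM lam) (EE lam))| ≤ Dd)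
    (hCc0 : 0 ≤ Cc) (hCc : E ≤ Cc ^ 2 * Pl) (hR1 : 1 ≤ R) (hR : E ≤ ip φ φ * R ^ 2)
    (hc0 : cf ψ ρ (MM lam) (EE lam) (u 0) = 1)
    (hT : (B * E + ν * (Cc * Dd)) / Pl * T ≤ 1 / 2) :
    Shell (gg (-hf φ φ / ip φ φ) lam) (muu (ν * dir φ φ / ip φ φ) lam)
      (ss (-hf ρ ρ / (4 * ip φ φ)) lam) (ss (9 * -hf ρ ρ / (4 * ip φ φ)) lam)
      (kk (9 * -hf ρ ρ / (4 * -hf φ φ)) lam) R T
      (fun n t => af φ (MM lam) (u t) n)
      (fun n t => tt φ ψ ρ (MM lam) (EE lam) (u t) (n + 1) / (-hf φ φ))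
      (fun n t => MM lam n ^ 5 * (cf ψ ρ (MM lam) (EE lam) (u t) ^ 2 * EE lam n * (-hf ρ ρ))
        / ip φ φ)
      (fun n t => (-hf ρ ρ) / (-hf φ φ) * (cf ψ ρ (MM lam) (EE lam) (u t) ^ 2 * EE lam n)) := by
  have hF := φ_pos P
  have hq : 0 < -hf φ φ := by linarith [P.q_pos]
  have hβ : 0 < -hf ρ ρ := by linarith [P.β_pos]
  have hA : 0 ≤ dir φ φ := by
    unfold dir
    exact integral_nonneg fun x => sum_nonneg fun i _ => real_inner_self_nonneg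
  have hM5 : ∀ n, MM lam n ^ 5 = Real.exp (5 / 2 * LL lam n) := by
    intro n; rw [MM_pow]; congr 1; push_cast; ring
  have hM4 : ∀ n, MM lam n ^ 4 = Real.exp (2 * LL lam n) := by
    intro n; rw [MM_pow]; congr 1; push_cast; ring
  obtain ⟨C, cm, hC0, hC, hcm⟩ := cf_bdd P S h
  have hPpos := PP_ip_pos P S
  have hbd := fun t (ht : t ∈ Icc 0 T) => energy_bounds P S hν.le hT0 hT1 h hE ht
  have hB0 : 0 ≤ B := (norm_nonneg _).trans (hB 0)
  -- control of the pump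
  have hcabs : ∀ t ∈ Icc 0 T, |cf ψ ρ (MM lam) (EE lam) (u t)| ≤ Cc := by
    intro t ht
    have h1 := (hbd t ht).1
    refine abs_le_of_sq_le_sq' ?_ hCc0 |> fun h => abs_le.mpr h
    have h2 : cf ψ ρ (MM lam) (EE lam) (u t) ^ 2 * Pl ≤ Cc ^ 2 * Pl := by
      refine le_trans ?_ (h1.trans hCc)
      exact mul_le_mul_of_nonneg_left hPl' (sq_nonneg _)
    exact le_of_mul_le_mul_right h2 hPl
  have hcd : ∀ t ∈ Icc 0 T, |(tri (u t) (PP ψ ρ (MM lam) (EE lam)) (u t)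
      - ν * dir (u t) (PP ψ ρ (MM lam) (EE lam)))
        / ip (PP ψ ρ (MM lam) (EE lam)) (PP ψ ρ (MM lam) (EE lam))|
        ≤ (B * E + ν * (Cc * Dd)) / Pl := by
    intro t ht
    have h1 := tri_pump_le (PP_TF P S) (h.mem t ht).1 hB
    obtain ⟨Cv, -, hCv⟩ := (h.mem t ht).1.bound
    have h2 : |dir (u t) (PP ψ ρ (MM lam) (EE lam))| ≤ Cc * Dd := by
      rw [dir_pump P S (h.mem t ht) (fun x => (hCv x).2) hB, abs_mul]
      exact mul_le_mul (hcabs t ht) hDd (abs_nonneg _) hCc0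
    have h3 : B * ip (u t) (u t) ≤ B * E := mul_le_mul_of_nonneg_left (hbd t ht).2.2 hB0
    have h4 : |tri (u t) (PP ψ ρ (MM lam) (EE lam)) (u t)
      - ν * dir (u t) (PP ψ ρ (MM lam) (EE lam))| ≤ B * E + ν * (Cc * Dd) := by
      refine (abs_sub _ _).trans (add_le_add (h1.trans h3) ?_)
      rw [abs_mul, abs_of_pos hν]
      exact mul_le_mul_of_nonneg_left h2 hν.le
    rw [abs_div, abs_of_pos hPpos]
    exact div_le_div₀ (le_trans (abs_nonneg _) h4) h4 hPl hPl'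
  have hcf : ∀ t ∈ Icc 0 T, |cf ψ ρ (MM lam) (EE lam) (u t) - 1| ≤ 1 / 2 := by
    intro t ht
    have h0 : (0 : ℝ) ∈ Icc 0 T := ⟨le_rfl, hT0⟩
    have k1 := le_of_deriv_le (s := 0) (t := t) (fun t ht => c_deriv h ht)
      (fun t _ => hasDerivWithinAt_linear ((B * E + ν * (Cc * Dd)) / Pl) 0 (Icc 0 T) t)
      (fun t ht => (abs_le.mp (hcd t ht)).2) h0 ht ht.1
    have k2 := le_of_deriv_le (s := 0) (t := t) 
      (fun t _ => hasDerivWithinAt_linear (-((B * E + ν * (Cc * Dd)) / Pl)) 0 (Icc 0 T) t)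
      (fun t ht => c_deriv h ht)
      (fun t ht => (abs_le.mp (hcd t ht)).1) h0 ht ht.1
    have k3 : (B * E + ν * (Cc * Dd)) / Pl * t ≤ 1 / 2 := by
      refine le_trans ?_ hT
      refine mul_le_mul_of_nonneg_left ht.2 ?_
      exact (abs_nonneg _).trans (hcd t ht)
    rw [hc0] at k1 k2
    rw [abs_le]
    constructor <;> linarith
  have hclo : ∀ t ∈ Icc 0 T, 1 / 4 ≤ cf ψ ρ (MM lam) (EE lam) (u t) ^ 2 := by
    intro t ht
    have := abs_le.mp (hcf t ht)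
    nlinarith
  have hchi : ∀ t ∈ Icc 0 T, cf ψ ρ (MM lam) (EE lam) (u t) ^ 2 ≤ 9 / 4 := by
    intro t ht
    have := abs_le.mp (hcf t ht)
    nlinarith
  have hW : ∀ n t, W (gg (-hf φ φ / ip φ φ) lam) (fun n t => af φ (MM lam) (u t) n) n t
      = (-hf φ φ / ip φ φ) * Wf φ (MM lam) (u t) n := by
    intro n t
    unfold W Wf gg
    rw [mul_sum]
    refine sum_congr rfl fun m _ => ?_
    rw [hM5]; ring
  constructor
  · exact hT0
  · exact hT1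
  · exact hR1
  · exact fun n => gg_pos (by positivity) lam n
  · intro n; unfold muu; positivity
  · intro n t ht
    refine HasDerivWithinAt.congr_deriv (a_deriv h n ht) ?_
    rw [hW, flux_eq P S (h.mem t ht), dir_eq P S (h.mem t ht)]
    unfold gg muu
    rw [← hM5, ← hM4]
    generalize -hf φ φ = q at hq ⊢
    generalize -hf ρ ρ = β
    field_simp
    ring
  · intro n t ht
    rw [tt_rec P S (h.mem t ht) (n + 1)]
    generalize -hf φ φ = q at hq ⊢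
    generalize -hf ρ ρ = β
    field_simp
  · intro n t ht
    exact div_nonneg (tt_nonneg P S (h.mem t ht) _) hq.le
  · intro η hη
    have h1 : Tendsto (fun n => ‖HH‖ * (C + C * ‖HH‖) ^ 2 * vr (rad (MM lam) n)) atTop (𝓝 0) := by
      simpa using (vr_rad_tendsto S).const_mul (‖HH‖ * (C + C * ‖HH‖) ^ 2)
    have h2 : 0 < η * (-hf φ φ) := by positivity
    obtain ⟨n0, hn0⟩ := eventually_atTop.mp (h1.eventually (gt_mem_nhds h2))
    refine ⟨n0, fun n hn t ht => ?_⟩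
    rw [div_le_iff₀ hq]
    exact (le_abs_self _).trans ((tt_vel P S (h.mem t ht) (hC t ht) (n + 1)).trans
      (hn0 (n + 1) (by omega)).le)
  · intro η hη
    set K1 := ‖HH‖ * (C + C * ‖HH‖) ^ 2 with hK1
    have hK10 : 0 ≤ K1 := by positivity
    have h1 : Tendsto (fun n => K1 * C / ip φ φ * vq (MM lam) n) atTop (𝓝 0) := by
      simpa using (vq_tendsto S).const_mul (K1 * C / ip φ φ)
    obtain ⟨n0, hn0⟩ := eventually_atTop.mp (h1.eventually (gt_mem_nhds hη))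
    refine ⟨n0, fun n hn t ht => ?_⟩
    have hr := S.rad_pos (n + 1)
    have h2 := (le_abs_self _).trans (tt_vel P S (h.mem t ht) (hC t ht) (n + 1))
    have h3 := W_vel P S (h.mem t ht) (hC t ht) (n + 1)
    have h4 := tt_nonneg P S (h.mem t ht) (n + 1)
    rw [hW, abs_mul, abs_of_pos (by positivity)]
    refine le_trans ?_ (hn0 (n + 1) (by omega)).le
    have h5 : |Wf φ (MM lam) (u t) (n + 1)| ≤ C / rad (MM lam) (n + 1) := by
      rw [le_div_iff₀ hr]; exact h3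
    generalize -hf φ φ = q at hq ⊢
    calc tt φ ψ ρ (MM lam) (EE lam) (u t) (n + 1) / q
          * (q / ip φ φ * |Wf φ (MM lam) (u t) (n + 1)|)
        = tt φ ψ ρ (MM lam) (EE lam) (u t) (n + 1) * |Wf φ (MM lam) (u t) (n + 1)| / ip φ φ := by
          field_simp
      _ ≤ (K1 * vr (rad (MM lam) (n + 1))) * (C / rad (MM lam) (n + 1)) / ip φ φ := by
          refine div_le_div_of_nonneg_right ?_ hF.le
          exact mul_le_mul h2 h5 (abs_nonneg _) (by have := vr_nonneg (rad (MM lam) (n + 1)); positivity)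
      _ = _ := by unfold vq; field_simp
  · intro n t ht
    have h1 := (hbd t ht).2.1 n
    have h2 : af φ (MM lam) (u t) n ^ 2 ≤ R ^ 2 := le_of_mul_le_mul_left (h1.trans hR) hF
    exact abs_le.mpr (abs_le_of_sq_le_sq' h2 (by linarith))
  · intro n
    have := EE_pos lam n
    unfold ss; positivity
  · intro n t ht
    have h1 := EE_pos lam n
    have h2 := hclo t ht
    unfold ss
    rw [← hM5]
    have h3 : (0:ℝ) < MM lam n ^ 5 := by have := MM_pos lam n; positivity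
    have h4 : 1 / 4 * (MM lam n ^ 5 * EE lam n * -hf ρ ρ / ip φ φ)
      ≤ cf ψ ρ (MM lam) (EE lam) (u t) ^ 2 * (MM lam n ^ 5 * EE lam n * -hf ρ ρ / ip φ φ) :=
      mul_le_mul_of_nonneg_right h2 (by positivity)
    calc -hf ρ ρ / (4 * ip φ φ) * MM lam n ^ 5 * EE lam n
        = 1 / 4 * (MM lam n ^ 5 * EE lam n * -hf ρ ρ / ip φ φ) := by field_simp
      _ ≤ _ := h4
      _ = _ := by ring
  · intro n t ht
    have h1 := EE_pos lam n
    have h2 := hchi t ht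
    unfold ss
    rw [← hM5]
    have h3 : (0:ℝ) < MM lam n ^ 5 := by have := MM_pos lam n; positivity
    have h4 : cf ψ ρ (MM lam) (EE lam) (u t) ^ 2 * (MM lam n ^ 5 * EE lam n * -hf ρ ρ / ip φ φ)
      ≤ 9 / 4 * (MM lam n ^ 5 * EE lam n * -hf ρ ρ / ip φ φ) :=
      mul_le_mul_of_nonneg_right h2 (by positivity)
    calc MM lam n ^ 5 * (cf ψ ρ (MM lam) (EE lam) (u t) ^ 2 * EE lam n * -hf ρ ρ) / ip φ φ
        = cf ψ ρ (MM lam) (EE lam) (u t) ^ 2 * (MM lam n ^ 5 * EE lam n * -hf ρ ρ / ip φ φ) := by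
          ring
      _ ≤ _ := h4
      _ = _ := by field_simp
  · intro n t ht
    have h1 := EE_pos lam n
    positivity
  · intro n t ht
    have h1 := EE_pos lam n
    have h2 := hchi t ht
    unfold kk
    calc -hf ρ ρ / -hf φ φ * (cf ψ ρ (MM lam) (EE lam) (u t) ^ 2 * EE lam n)
        ≤ -hf ρ ρ / -hf φ φ * (9 / 4 * EE lam n) :=
          mul_le_mul_of_nonneg_left (mul_le_mul_of_nonneg_right h2 h1.le) (by positivity)
      _ = _ := by field_simp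

end Pool.Agent.H402AX
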