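import Mathlib
import Pool.Agent.H402AX.Dyn

/-! The scaling and translation symmetry of the projected system. -/

open Set MeasureTheory Filter Topology
open scoped RealInnerProductSpace ContDiff

namespace Pool.Agent.H402AX

/-- Navier-Stokes rescaling of a field about the point `p` -/
noncomputable def Tr (l : ℝ) (p : V) (f : V → V) : V → V := fun x => l • f (l • (x - p))

variable {l : ℝ} {p : V} {f g : V → V}

theorem Tr_has (h : Differentiable ℝ f) (x : V) :
    HasFDerivAt (Tr l p f) (l ^ 2 • fderiv ℝ f (l • (x - p))) x := by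
  have h1 : HasFDerivAt (fun x : V => l • (x - p)) (l • ContinuousLinearMap.id ℝ V) x :=
    ((hasFDerivAt_id x).sub_const p).const_smul l
  have h2 : HasFDerivAt (Tr l p f)
      (l • (fderiv ℝ f (l • (x - p))).comp (l • ContinuousLinearMap.id ℝ V)) x :=
    ((h (l • (x - p))).hasFDerivAt.comp x h1).const_smul l
  refine h2.congr_fderiv ?_
  ext y
  simp
  ring

theorem Tr_fderiv (h : Differentiable ℝ f) (x : V) :
    fderiv ℝ (Tr l p f) x = l ^ 2 • fderiv ℝ f (l • (x - p)) := (Tr_has h x).fderiv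

theorem Tr_cd {n : WithTop ℕ∞} (h : ContDiff ℝ n f) : ContDiff ℝ n (Tr l p f) := by
  unfold Tr
  have h1 : ContDiff ℝ n (fun x : V => l • (x - p)) := (contDiff_id.sub contDiff_const).const_smul l
  exact (h.comp h1).const_smul l

theorem Tr_div (h : Differentiable ℝ f) (x : V) :
    divg (Tr l p f) x = l ^ 2 * divg f (l • (x - p)) := by
  unfold divg
  rw [Tr_fderiv h, Finset.mul_sum]
  simp

theorem Tr_cs (hl : 0 < l) (h : HasCompactSupport f) : HasCompactSupport (Tr l p f) := by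
  obtain ⟨R, hR⟩ := out_of_cs h
  refine HasCompactSupport.intro (isCompact_closedBall p (R / l)) fun x hx => ?_
  have h1 : R / l < ‖x - p‖ := by simpa [dist_eq_norm] using hx
  have h2 : R < ‖l • (x - p)‖ := by
    rw [norm_smul, Real.norm_eq_abs, abs_of_pos hl]
    rw [div_lt_iff₀ hl] at h1
    linarith
  simp [Tr, (hR _ h2).1]

theorem Tr_TF (hl : 0 < l) (h : TF f) : TF (Tr l p f) where
  cd := Tr_cd h.cd
  cs := Tr_cs hl h.cs
  dv x := by rw [Tr_div h.diff, h.dv, mul_zero]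

theorem int_Tr (hl : 0 < l) (F : V → ℝ) : ∫ x, l ^ 3 * F (l • (x - p)) = ∫ x, F x := by
  rw [integral_const_mul, integral_sub_right_eq_self (fun x => F (l • x)) p,
    Measure.integral_comp_smul]
  simp only [finrank_euclideanSpace, Fintype.card_fin, smul_eq_mul]
  rw [abs_of_pos (by positivity), ← mul_assoc, mul_inv_cancel₀ (by positivity), one_mul]

theorem Tr_ip (hl : 0 < l) (u v : V → V) : ip (Tr l p u) (Tr l p v) = l⁻¹ * ip u v := by
  unfold ip
  rw [← int_Tr (p := p) hl (fun x => ⟪u x, v x⟫), ← integral_const_mul]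
  congr 1; ext x
  simp only [Tr, inner_smul_left, inner_smul_right]
  simp
  field_simp

theorem Tr_sub : Tr l p (f - g) = Tr l p f - Tr l p g := by
  ext1 x; simp [Tr, smul_sub]

theorem Tr_tri (hl : 0 < l) {u v w : V → V} (hv : Differentiable ℝ v) :
    tri (Tr l p u) (Tr l p v) (Tr l p w) = l * tri u v w := by
  unfold tri
  rw [← int_Tr (p := p) hl (fun x => ⟪u x, fderiv ℝ v x (w x)⟫), ← integral_const_mul]
  congr 1; ext x
  rw [Tr_fderiv hv]
  simp only [Tr, FunLike.coe_smul, Pi.smul_apply, map_smul, real_inner_smul_left,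
    real_inner_smul_right]
  ring

theorem Tr_dir (hl : 0 < l) {u v : V → V} (hu : Differentiable ℝ u) (hv : Differentiable ℝ v) :
    dir (Tr l p u) (Tr l p v) = l * dir u v := by
  unfold dir
  rw [← int_Tr (p := p) hl (fun x => ∑ i, ⟪fderiv ℝ u x (ev i), fderiv ℝ v x (ev i)⟫),
    ← integral_const_mul]
  congr 1; ext x
  simp only [Tr_fderiv hu, Tr_fderiv hv, Finset.mul_sum]
  refine Finset.sum_congr rfl fun i _ => ?_
  simp only [FunLike.coe_smul, Pi.smul_apply, real_inner_smul_left, real_inner_smul_right]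
  ring

/-- the inverse transformation -/
theorem Tr_inv (hl : 0 < l) (f : V → V) : Tr l⁻¹ (-(l • p)) (Tr l p f) = f := by
  ext1 x
  unfold Tr
  rw [smul_smul, inv_mul_cancel₀ hl.ne', one_smul]
  congr 1
  rw [smul_sub, smul_smul, mul_inv_cancel₀ hl.ne', one_smul]
  abel

theorem Tr_inv' (hl : 0 < l) (f : V → V) : Tr l p (Tr l⁻¹ (-(l • p)) f) = f := by
  ext1 x
  unfold Tr
  rw [smul_smul, mul_inv_cancel₀ hl.ne', one_smul]
  congr 1
  have h1 : l • (x - p) - -(l • p) = l • x := by rw [smul_sub]; abel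
  rw [h1, smul_smul, inv_mul_cancel₀ hl.ne', one_smul]

noncomputable def TrL (l : ℝ) (p : V) : (V → V) →ₗ[ℝ] (V → V) where
  toFun := Tr l p
  map_add' a b := by ext1 x; simp [Tr]
  map_smul' c a := by ext1 x; simp only [Tr, Pi.smul_apply, RingHom.id_apply]; rw [smul_comm]

theorem Tr_span {Φ : ℕ → V → V} {w : V → V} (hw : w ∈ Submodule.span ℝ (range Φ)) :
    Tr l p w ∈ Submodule.span ℝ (range fun k => Tr l p (Φ k)) := by
  have h1 : (range fun k => Tr l p (Φ k)) = (TrL l p) '' (range Φ) := by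
    rw [← range_comp]; rfl
  rw [h1, Submodule.span_image]
  exact Submodule.mem_map_of_mem (f := TrL l p) hw

theorem InX.trans (hl : 0 < l) {Φ : ℕ → V → V} {v : V → V} (hv : InX Φ v) :
    InX (fun k => Tr l p (Φ k)) (Tr l p v) := by
  refine ⟨Tr_TF hl hv.1, fun η hη => ?_⟩
  obtain ⟨w, hw, hw'⟩ := hv.2 (l * η) (by positivity)
  refine ⟨Tr l p w, Tr_span hw, ?_⟩
  have h1 : ∫ x, ‖Tr l p v x - Tr l p w x‖ ^ 2 = l⁻¹ * ∫ x, ‖v x - w x‖ ^ 2 := by
    rw [← int_Tr (p := p) hl (fun x => ‖v x - w x‖ ^ 2), ← integral_const_mul]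
    congr 1; ext x
    unfold Tr
    rw [← smul_sub, norm_smul, Real.norm_eq_abs, abs_of_pos hl]
    field_simp
  rw [h1]
  calc l⁻¹ * ∫ x, ‖v x - w x‖ ^ 2 ≤ l⁻¹ * (l * η) :=
        mul_le_mul_of_nonneg_left hw' (by positivity)
    _ = η := by field_simp

theorem GSol.trans (hl : 0 < l) {ν T : ℝ} {Φ : ℕ → V → V} (hΦ : ∀ k, Differentiable ℝ (Φ k))
    {u0 : V → V} {u : ℝ → V → V} (h : GSol ν Φ u0 T u) :
    GSol ν (fun k => Tr l p (Φ k)) (Tr l p u0) (T / l ^ 2) (fun t => Tr l p (u (l ^ 2 * t))) := by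
  have hmem : ∀ t ∈ Icc 0 (T / l ^ 2), l ^ 2 * t ∈ Icc 0 T := by
    intro t ht
    have hl2 : 0 < l ^ 2 := by positivity
    have h2 := ht.2
    rw [le_div_iff₀ hl2] at h2
    exact ⟨mul_nonneg hl2.le ht.1, by linarith⟩
  constructor
  · simp only [mul_zero]
    rw [h.init]
  · intro t ht
    exact (h.mem _ (hmem t ht)).trans hl
  · obtain ⟨C, hC⟩ := h.bdd
    refine ⟨l * C, fun t ht x => ?_⟩
    unfold Tr
    rw [norm_smul, Real.norm_eq_abs, abs_of_pos hl]
    exact mul_le_mul_of_nonneg_left (hC _ (hmem t ht) _) hl.le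
  · intro k t ht
    have h1 := h.eq k (l ^ 2 * t) (hmem t ht)
    have h2 : HasDerivWithinAt (fun s : ℝ => l ^ 2 * s) (l ^ 2) (Icc 0 (T / l ^ 2)) t := by
      simpa using ((hasDerivAt_id t).const_mul (l ^ 2)).hasDerivWithinAt
    have h3 := h1.scomp t h2 (fun s hs => hmem s hs)
    have h4 := h3.const_mul l⁻¹
    have hd := (h.mem _ (hmem t ht)).1.diff
    refine (h4.congr_deriv ?_).congr (fun s _ => ?_) ?_
    · rw [Tr_tri hl (hΦ k), Tr_dir hl hd (hΦ k), smul_eq_mul]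
      field_simp
    · rw [Tr_ip hl]; rfl
    · rw [Tr_ip hl]; rfl

theorem Tr_pow_int (hl : 0 < l) (f : V → V) (q : ℝ) :
    ∫ x, ‖Tr l p f x‖ ^ q = (l ^ q * (l ^ 3)⁻¹) * ∫ x, ‖f x‖ ^ q := by
  rw [← int_Tr (p := p) hl (fun x => ‖f x‖ ^ q), ← integral_const_mul]
  congr 1; ext x
  unfold Tr
  rw [norm_smul, Real.norm_eq_abs, abs_of_pos hl, Real.mul_rpow hl.le (norm_nonneg _)]
  field_simp

theorem Tr_cube_int (hl : 0 < l) (f : V → V) : ∫ x, ‖Tr l p f x‖ ^ 3 = ∫ x, ‖f x‖ ^ 3 := by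
  rw [← int_Tr (p := p) hl (fun x => ‖f x‖ ^ 3)]
  congr 1; ext x
  unfold Tr
  rw [norm_smul, Real.norm_eq_abs, abs_of_pos hl]
  ring

theorem Tr_norm_int (hl : 0 < l) (f : V → V) :
    ∫ x, ‖Tr l p f x‖ = (l ^ 2)⁻¹ * ∫ x, ‖f x‖ := by
  rw [← int_Tr (p := p) hl (fun x => ‖f x‖), ← integral_const_mul]
  congr 1; ext x
  unfold Tr
  rw [norm_smul, Real.norm_eq_abs, abs_of_pos hl]
  field_simp

end Pool.Agent.H402AX
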