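import Mathlib
import Pool.Agent.H402AX.Axi
import Pool.Agent.H402AX.Profile
import Pool.Agent.H402AX.Trans

/-! The fields of the construction are axisymmetric. -/

open Set MeasureTheory Filter Topology Finset
open scoped RealInnerProductSpace ContDiff

namespace Pool.Agent.H402AX

theorem sig_apply (x : V) : sig x = (2 * deriv zet (‖x‖ ^ 2)) • (x 1 • ev 0 - x 0 • ev 1) := by
  unfold sig ct
  rw [rdl_fderiv zet.contDiff, rdl_fderiv zet.contDiff]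
  have e : ∀ i : Fin 3, ⟪x, ev i⟫ = x i := fun i => by rw [real_inner_comm, inner_ev]
  rw [e, e]
  module

theorem sig_axi : Axi sig := by
  intro θ x
  rw [sig_apply, sig_apply, rz_norm, rz_smul, rz_sub, rz_smul, rz_smul, rz_ev0, rz_ev1,
    rz_apply0, rz_apply1]
  module

theorem ph0_axi : Axi ph0 := by
  intro θ x
  have hr : ∀ y : V, rdl bmp (rz θ y) = rdl bmp y := fun y => by
    unfold rdl; rw [rz_norm]
  have h0 : (rz θ x) 0 * (rz θ x) 0 + (rz θ x) 1 * (rz θ x) 1 = x 0 * x 0 + x 1 * x 1 := by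
    rw [rz_apply0, rz_apply1]
    have h := Real.sin_sq_add_cos_sq θ
    linear_combination (x 0 ^ 2 + x 1 ^ 2) * h
  have h1 : (rz θ x) 0 • ev 0 + (rz θ x) 1 • ev 1 = rz θ (x 0 • ev 0 + x 1 • ev 1) := by
    rw [rz_add, rz_smul, rz_smul, rz_ev0, rz_ev1, rz_apply0, rz_apply1]
    module
  rw [ph0_apply, ph0_apply, rz_norm, hr, h0, h1, rz_apply2, rz_sub, rz_smul, rz_smul, rz_ev2]

theorem Axi.tr {u : V → V} (hu : Axi u) (c : ℝ) : Axi (tr (c • ev 2) u) := fun θ x => by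
  unfold H402AX.tr
  rw [← hu, rz_sub, rz_axis]

theorem Axi.sc {u : V → V} (hu : Axi u) (M : ℝ) : Axi (sc M u) := fun θ x => by
  unfold H402AX.sc
  rw [← rz_smul, hu, rz_smul]

theorem Axi.Tr {u : V → V} (hu : Axi u) (l c : ℝ) : Axi (Tr l (c • ev 2) u) := fun θ x => by
  unfold H402AX.Tr
  rw [rz_smul, ← hu, rz_smul, rz_sub, rz_axis]

theorem exists_prof_axi : ∃ (φ ρ ψ : V → V) (x₁ : V), Prof φ ρ ψ x₁ ∧ Axi φ ∧ Axi ρ ∧ Axi ψ := by
  obtain ⟨s, hs⟩ := exists_prof'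
  refine ⟨_, _, _, _, hs, ?_, sig_axi.tr _, sig_axi.tr _⟩
  exact (ph0_axi.sub (ph0_axi.tr _)).add ((sig_axi.tr _).smul _)

section

variable {φ ρ ψ : V → V} {x₁ : V} {M ε : ℕ → ℝ}

theorem PP_axi (P : Prof φ ρ ψ x₁) (S : Scl M ε) (hρ : Axi ρ) (hψ : Axi ψ) :
    Axi (PP ψ ρ M ε) := by
  refine Axi.of_off (PP_TF P S).cont fun θ x hx => ?_
  obtain ⟨n, hn0⟩ := exists_rad S hx
  have hn : 3 / 4 * rad M n < ‖x‖ := by linarith [S.rad_pos n]
  have hn' : 3 / 4 * rad M n < ‖rz θ x‖ := by rwa [rz_norm]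
  rw [PP_out P S n x hn, PP_out P S n _ hn', Pn_apply, Pn_apply, rz_add, rz_sum, hψ]
  congr 1
  refine sum_congr rfl fun l _ => ?_
  rw [rz_smul, hρ.sc]

theorem Fam_axi (P : Prof φ ρ ψ x₁) (S : Scl M ε) (hφ : Axi φ) (hρ : Axi ρ) (hψ : Axi ψ) (k : ℕ) :
    Axi (Fam φ ψ ρ M ε k) := by
  cases k with
  | zero => exact PP_axi P S hρ hψ
  | succ n => exact hφ.sc _

theorem InX_axi (P : Prof φ ρ ψ x₁) (S : Scl M ε) (hφ : Axi φ) (hρ : Axi ρ) (hψ : Axi ψ)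
    {v : V → V} (hv : InX (Fam φ ψ ρ M ε) v) : Axi v := by
  refine Axi.of_off hv.1.cont fun θ x hx => ?_
  obtain ⟨n, hn0⟩ := exists_rad S hx
  have hn : 3 / 4 * rad M n < ‖x‖ := by linarith [S.rad_pos n]
  have hn' : 3 / 4 * rad M n < ‖rz θ x‖ := by rwa [rz_norm]
  rw [rep P S hv n x hn, rep P S hv n _ hn', rz_add, rz_sum, rz_smul, PP_axi P S hρ hψ]
  congr 1
  refine sum_congr rfl fun l _ => ?_
  rw [rz_smul, hφ.sc]

end

end Pool.Agent.H402AX
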