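import Mathlib
import Pool.Agent.H402AX.Calc

/-! Local existence and uniqueness for infinite systems with diagonal damping and a bounded
quadratic nonlinearity. -/

open Set MeasureTheory Filter Topology
open scoped BoundedContinuousFunction

namespace Pool.Agent.H402AX

/-- the nonlinearity: `∑_i β k i · y (P k i).1 · y (P k i).2` -/
noncomputable def Nl (β : ℕ → ℕ → ℝ) (P : ℕ → ℕ → ℕ × ℕ) (k : ℕ) (y : ℕ → ℝ) : ℝ :=
  ∑' i : ℕ, β k i * (y (P k i).1 * y (P k i).2)

structure Qd (β : ℕ → ℕ → ℝ) (_P : ℕ → ℕ → ℕ × ℕ) (C : ℝ) : Prop where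
  summ : ∀ k, Summable (fun p => |β k p|)
  le : ∀ k, ∑' p, |β k p| ≤ C

variable {β : ℕ → ℕ → ℝ} {P : ℕ → ℕ → ℕ × ℕ} {C r d : ℝ}

theorem Qd.nonneg (Q : Qd β P C) : 0 ≤ C := (tsum_nonneg fun _ => abs_nonneg _).trans (Q.le 0)

theorem Nl_term {y : ℕ → ℝ} (hy : ∀ j, |y j| ≤ r) (k : ℕ) (p : ℕ) :
    ‖β k p * (y (P k p).1 * y (P k p).2)‖ ≤ |β k p| * r ^ 2 := by
  rw [Real.norm_eq_abs, abs_mul, abs_mul, sq]
  have h0 : 0 ≤ r := (abs_nonneg _).trans (hy 0)
  exact mul_le_mul_of_nonneg_left (mul_le_mul (hy _) (hy _) (abs_nonneg _) h0) (abs_nonneg _)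

theorem Nl_summable (Q : Qd β P C) {y : ℕ → ℝ} (hy : ∀ j, |y j| ≤ r) (k : ℕ) :
    Summable (fun p => β k p * (y (P k p).1 * y (P k p).2)) :=
  Summable.of_norm_bounded ((Q.summ k).mul_right (r ^ 2)) (Nl_term hy k)

theorem Nl_le (Q : Qd β P C) {y : ℕ → ℝ} (hy : ∀ j, |y j| ≤ r) (k : ℕ) :
    |Nl β P k y| ≤ C * r ^ 2 := by
  unfold Nl
  rw [← Real.norm_eq_abs]
  refine (tsum_of_norm_bounded ((Q.summ k).mul_right (r ^ 2)).hasSum (Nl_term hy k)).trans ?_
  rw [tsum_mul_right]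
  exact mul_le_mul_of_nonneg_right (Q.le k) (sq_nonneg _)

theorem Nl_sub_le (Q : Qd β P C) {y z : ℕ → ℝ} (hy : ∀ j, |y j| ≤ r) (hz : ∀ j, |z j| ≤ r)
    (hd : ∀ j, |y j - z j| ≤ d) (k : ℕ) : |Nl β P k y - Nl β P k z| ≤ C * (2 * r * d) := by
  have h0 : 0 ≤ r := (abs_nonneg _).trans (hy 0)
  have hd0 : 0 ≤ d := (abs_nonneg _).trans (hd 0)
  unfold Nl
  rw [← (Nl_summable Q hy k).tsum_sub (Nl_summable Q hz k), ← Real.norm_eq_abs]
  have hterm : ∀ p : ℕ, ‖β k p * (y (P k p).1 * y (P k p).2)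
      - β k p * (z (P k p).1 * z (P k p).2)‖
      ≤ |β k p| * (2 * r * d) := by
    intro p
    rw [← mul_sub, Real.norm_eq_abs, abs_mul]
    refine mul_le_mul_of_nonneg_left ?_ (abs_nonneg _)
    have e : y (P k p).1 * y (P k p).2 - z (P k p).1 * z (P k p).2
        = (y (P k p).1 - z (P k p).1) * y (P k p).2
          + z (P k p).1 * (y (P k p).2 - z (P k p).2) := by
      ring
    rw [e]
    refine (abs_add_le _ _).trans ?_
    rw [abs_mul, abs_mul]
    have h1 := mul_le_mul (hd (P k p).1) (hy (P k p).2) (abs_nonneg _) hd0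
    have h2 := mul_le_mul (hz (P k p).1) (hd (P k p).2) (abs_nonneg _) h0
    linarith
  refine (tsum_of_norm_bounded ((Q.summ k).mul_right (2 * r * d)).hasSum hterm).trans ?_
  rw [tsum_mul_right]
  exact mul_le_mul_of_nonneg_right (Q.le k) (by positivity)

theorem Nl_cont (Q : Qd β P C) {y : ℕ → ℝ → ℝ} (hy : ∀ j, Continuous (y j))
    (hb : ∀ j t, |y j t| ≤ r) (k : ℕ) : Continuous (fun t => Nl β P k (fun j => y j t)) := by
  unfold Nl
  refine continuous_tsum (fun p => ?_) ((Q.summ k).mul_right (r ^ 2)) (fun p t => ?_)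
  · exact continuous_const.mul ((hy _).mul (hy _))
  · exact Nl_term (fun j => hb j t) k p

/-- Duhamel operator -/
noncomputable def duh (β : ℕ → ℕ → ℝ) (P : ℕ → ℕ → ℕ × ℕ) (lm : ℕ → ℝ) (y0 : ℕ → ℝ) (y : ℕ → ℝ → ℝ) (k : ℕ)
    (t : ℝ) : ℝ :=
  Real.exp (-(lm k * t)) * (y0 k + ∫ x in (0 : ℝ)..t, Real.exp (lm k * x) * Nl β P k (fun j => y j x))

theorem duh_int_le (lm : ℝ) (hl : 0 ≤ lm) {f : ℝ → ℝ} {K t : ℝ} (ht : 0 ≤ t)
    (hf : ∀ x, |f x| ≤ K) :
    |Real.exp (-(lm * t)) * ∫ x in (0 : ℝ)..t, Real.exp (lm * x) * f x| ≤ t * K := by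
  have h1 : ‖∫ x in (0 : ℝ)..t, Real.exp (lm * x) * f x‖ ≤ (Real.exp (lm * t) * K) * |t - 0| := by
    refine intervalIntegral.norm_integral_le_of_norm_le_const fun x hx => ?_
    rw [uIoc_of_le ht] at hx
    rw [Real.norm_eq_abs, abs_mul, abs_of_pos (Real.exp_pos _)]
    refine mul_le_mul (Real.exp_le_exp.mpr (mul_le_mul_of_nonneg_left hx.2 hl)) (hf x)
      (abs_nonneg _) (Real.exp_pos _).le
  rw [abs_mul, abs_of_pos (Real.exp_pos _)]
  rw [Real.norm_eq_abs, sub_zero, abs_of_nonneg ht] at h1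
  have h2 : Real.exp (-(lm * t)) * Real.exp (lm * t) = 1 := by
    rw [← Real.exp_add]; simp
  calc Real.exp (-(lm * t)) * |∫ x in (0 : ℝ)..t, Real.exp (lm * x) * f x|
      ≤ Real.exp (-(lm * t)) * ((Real.exp (lm * t) * K) * t) :=
        mul_le_mul_of_nonneg_left h1 (Real.exp_pos _).le
    _ = (Real.exp (-(lm * t)) * Real.exp (lm * t)) * (t * K) := by ring
    _ = t * K := by rw [h2, one_mul]

theorem duh_cont (Q : Qd β P C) (lm y0 : ℕ → ℝ) {y : ℕ → ℝ → ℝ} (hy : ∀ j, Continuous (y j))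
    (hb : ∀ j t, |y j t| ≤ r) (k : ℕ) : Continuous (duh β P lm y0 y k) := by
  have hN := Nl_cont Q hy hb k
  have hi : Continuous fun x => Real.exp (lm k * x) * Nl β P k (fun j => y j x) := by fun_prop
  have h1 : Continuous fun t => ∫ x in (0 : ℝ)..t, Real.exp (lm k * x) * Nl β P k (fun j => y j x) :=
    intervalIntegral.continuous_primitive (fun a b => hi.intervalIntegrable a b) 0
  unfold duh
  exact (by fun_prop : Continuous fun t : ℝ => Real.exp (-(lm k * t))).mul (continuous_const.add h1)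

theorem duh_deriv (Q : Qd β P C) (lm y0 : ℕ → ℝ) {y : ℕ → ℝ → ℝ} (hy : ∀ j, Continuous (y j))
    (hb : ∀ j t, |y j t| ≤ r) (k : ℕ) (t : ℝ) :
    HasDerivAt (duh β P lm y0 y k) (-(lm k) * duh β P lm y0 y k t + Nl β P k (fun j => y j t)) t := by
  have hN := Nl_cont Q hy hb k
  have hi : Continuous fun x => Real.exp (lm k * x) * Nl β P k (fun j => y j x) := by fun_prop
  have h1 : HasDerivAt (fun t => ∫ x in (0 : ℝ)..t, Real.exp (lm k * x) * Nl β P k (fun j => y j x))
      (Real.exp (lm k * t) * Nl β P k (fun j => y j t)) t :=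
    intervalIntegral.integral_hasDerivAt_right (hi.intervalIntegrable _ _)
      hi.stronglyMeasurable.stronglyMeasurableAtFilter hi.continuousAt
  have h2 : HasDerivAt (fun t => Real.exp (-(lm k * t))) (Real.exp (-(lm k * t)) * (-(lm k))) t := by
    have h3 : HasDerivAt (fun t : ℝ => -(lm k * t)) (-(lm k)) t := by
      have h4 := (hasDerivAt_id t).const_mul (-(lm k))
      simp only [id_eq, mul_one, neg_mul] at h4
      exact h4
    exact h3.exp
  have h4 := h2.mul (h1.const_add (y0 k))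
  have h5 : Real.exp (-(lm k * t)) * Real.exp (lm k * t) = 1 := by
    rw [← Real.exp_add]; simp
  refine HasDerivAt.congr_deriv h4 ?_
  unfold duh
  have h6 : Real.exp (-(lm k * t)) * (Real.exp (lm k * t) * Nl β P k (fun j => y j t))
      = Nl β P k (fun j => y j t) := by
    rw [← mul_assoc, h5, one_mul]
  rw [h6]
  ring

theorem duh_le (Q : Qd β P C) {lm y0 : ℕ → ℝ} (hl : ∀ k, 0 ≤ lm k) {y : ℕ → ℝ → ℝ}
    (hb : ∀ j t, |y j t| ≤ r) {r0 : ℝ} (h0 : ∀ k, |y0 k| ≤ r0) (k : ℕ) {t : ℝ} (ht : 0 ≤ t) :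
    |duh β P lm y0 y k t| ≤ r0 + t * (C * r ^ 2) := by
  unfold duh
  rw [mul_add]
  refine (abs_add_le _ _).trans (add_le_add ?_ ?_)
  · rw [abs_mul, abs_of_pos (Real.exp_pos _)]
    refine (mul_le_of_le_one_left (abs_nonneg _) ?_).trans (h0 k)
    exact Real.exp_le_one_iff.mpr (by have := mul_nonneg (hl k) ht; linarith)
  · exact duh_int_le (lm k) (hl k) ht fun x => Nl_le Q (fun j => hb j x) k

theorem duh_sub_le (Q : Qd β P C) {lm y0 : ℕ → ℝ} (hl : ∀ k, 0 ≤ lm k) {y z : ℕ → ℝ → ℝ}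
    (hy : ∀ j, Continuous (y j)) (hz : ∀ j, Continuous (z j))
    (hb : ∀ j t, |y j t| ≤ r) (hb' : ∀ j t, |z j t| ≤ r) (hd : ∀ j t, |y j t - z j t| ≤ d)
    (k : ℕ) {t : ℝ} (ht : 0 ≤ t) :
    |duh β P lm y0 y k t - duh β P lm y0 z k t| ≤ t * (C * (2 * r * d)) := by
  have hi : ∀ {y : ℕ → ℝ → ℝ}, (∀ j, Continuous (y j)) → (∀ j t, |y j t| ≤ r) →
      Continuous fun x => Real.exp (lm k * x) * Nl β P k (fun j => y j x) := by
    intro y hy hb
    have := Nl_cont Q hy hb k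
    fun_prop
  have e : duh β P lm y0 y k t - duh β P lm y0 z k t = Real.exp (-(lm k * t)) *
      ∫ x in (0 : ℝ)..t, Real.exp (lm k * x) *
        (Nl β P k (fun j => y j x) - Nl β P k (fun j => z j x)) := by
    unfold duh
    rw [← mul_sub, add_sub_add_left_eq_sub, ← intervalIntegral.integral_sub
      ((hi hy hb).intervalIntegrable _ _) ((hi hz hb').intervalIntegrable _ _)]
    simp only [mul_sub]
  rw [e]
  exact duh_int_le (lm k) (hl k) ht fun x =>
    Nl_sub_le Q (fun j => hb j x) (fun j => hb' j x) (fun j => hd j x) k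

theorem local_exist (Q : Qd β P C) {lm : ℕ → ℝ} (hl : ∀ k, 0 ≤ lm k) (hr : 0 < r) :
    ∃ τ > 0, ∀ y0 : ℕ → ℝ, (∀ k, |y0 k| ≤ r) → ∃ y : ℕ → ℝ → ℝ, (∀ k, y k 0 = y0 k) ∧
      (∀ k, ∀ t ∈ Icc 0 τ, |y k t| ≤ 2 * r) ∧
      ∀ k, ∀ t ∈ Icc 0 τ, HasDerivWithinAt (y k) (-(lm k) * y k t + Nl β P k (fun j => y j t))
        (Icc 0 τ) t := by
  have hC := Q.nonneg
  set τ : ℝ := 1 / (8 * C * r + 1) with hτ
  have hτ0 : 0 < τ := by positivity
  have hτC : τ * (8 * C * r) ≤ 1 := by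
    rw [hτ, one_div_mul_eq_div, div_le_one (by positivity)]
    linarith
  refine ⟨τ, hτ0, fun y0 hy0 => ?_⟩
  let cl : ℝ → ℝ := fun t => max 0 (min t τ)
  have hcl : Continuous cl := by fun_prop
  have hcl0 : ∀ t, 0 ≤ cl t := fun t => le_max_left _ _
  have hclτ : ∀ t, cl t ≤ τ := fun t => max_le hτ0.le (min_le_right _ _)
  have hclid : ∀ t ∈ Icc 0 τ, cl t = t := fun t ht => by
    simp only [cl]; rw [min_eq_left ht.2, max_eq_right ht.1]
  have sec : ∀ (f : (ℕ × ℝ) →ᵇ ℝ) (j : ℕ), Continuous (fun t => f (j, t)) := fun f j => by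
    have := f.continuous; fun_prop
  have bd : ∀ (f : (ℕ × ℝ) →ᵇ ℝ), ‖f‖ ≤ 2 * r → ∀ j t, |f (j, t)| ≤ 2 * r := fun f hf j t => by
    have := f.norm_coe_le_norm (j, t)
    rw [Real.norm_eq_abs] at this
    exact this.trans hf
  have bd' : ∀ (f : (ℕ × ℝ) →ᵇ ℝ), ∀ j t, |f (j, t)| ≤ ‖f‖ := fun f j t => by
    have := f.norm_coe_le_norm (j, t)
    rwa [Real.norm_eq_abs] at this
  let Θ : ((ℕ × ℝ) →ᵇ ℝ) → ((ℕ × ℝ) →ᵇ ℝ) := fun f =>
    BoundedContinuousFunction.ofNormedAddCommGroup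
      (fun p => duh β P lm y0 (fun j t => f (j, t)) p.1 (cl p.2))
      (by
        rw [continuous_prod_of_discrete_left]
        intro k
        exact (duh_cont Q lm y0 (sec f) (bd' f) k).comp hcl)
      (r + τ * (C * ‖f‖ ^ 2))
      (by
        rintro ⟨k, t⟩
        rw [Real.norm_eq_abs]
        refine (duh_le Q hl (bd' f) hy0 k (hcl0 t)).trans ?_
        have := mul_le_mul_of_nonneg_right (hclτ t) (by positivity : 0 ≤ C * ‖f‖ ^ 2)
        linarith)
  have hΘ : ∀ f k t, Θ f (k, t) = duh β P lm y0 (fun j t => f (j, t)) k (cl t) := fun f k t => rfl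
  let B : Set ((ℕ × ℝ) →ᵇ ℝ) := Metric.closedBall 0 (2 * r)
  have hBn : ∀ f ∈ B, ‖f‖ ≤ 2 * r := fun f hf => by simpa [B] using hf
  have hmaps : MapsTo Θ B B := by
    intro f hf
    have hf' := hBn f hf
    show Θ f ∈ Metric.closedBall 0 (2 * r)
    rw [mem_closedBall_zero_iff, BoundedContinuousFunction.norm_le (by positivity)]
    rintro ⟨k, t⟩
    rw [hΘ, Real.norm_eq_abs]
    refine (duh_le Q hl (bd f hf') hy0 k (hcl0 t)).trans ?_
    have h1 := mul_le_mul_of_nonneg_right (hclτ t) (by positivity : 0 ≤ C * (2 * r) ^ 2)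
    have h2 : τ * (C * (2 * r) ^ 2) = τ * (8 * C * r) * (r / 2) := by ring
    have h3 := mul_le_mul_of_nonneg_right hτC (by positivity : 0 ≤ r / 2)
    linarith
  have hdist : ∀ f ∈ B, ∀ g ∈ B, dist (Θ f) (Θ g) ≤ 1 / 2 * dist f g := by
    intro f hf g hg
    rw [BoundedContinuousFunction.dist_le (by positivity)]
    rintro ⟨k, t⟩
    rw [hΘ, hΘ, Real.dist_eq]
    have hd : ∀ j t, |f (j, t) - g (j, t)| ≤ dist f g := fun j t => by
      have := BoundedContinuousFunction.dist_coe_le_dist (f := f) (g := g) (j, t)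
      rwa [Real.dist_eq] at this
    refine (duh_sub_le Q hl (sec f) (sec g) (bd f (hBn f hf)) (bd g (hBn g hg)) hd k
      (hcl0 t)).trans ?_
    have h1 := mul_le_mul_of_nonneg_right (hclτ t)
      (by positivity : 0 ≤ C * (2 * (2 * r) * dist f g))
    have h2 : τ * (C * (2 * (2 * r) * dist f g)) = τ * (8 * C * r) * (dist f g / 2) := by ring
    have h3 := mul_le_mul_of_nonneg_right hτC (by positivity : 0 ≤ dist f g / 2)
    linarith
  have hcontr : ContractingWith (1 / 2) (hmaps.restrict Θ B B) := by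
    refine ⟨by rw [← NNReal.coe_lt_coe]; norm_num, ?_⟩
    refine LipschitzWith.of_dist_le_mul ?_
    rintro ⟨f, hf⟩ ⟨g, hg⟩
    have := hdist f hf g hg
    rw [Subtype.dist_eq, Subtype.dist_eq]
    simpa using this
  have hz : (0 : (ℕ × ℝ) →ᵇ ℝ) ∈ B := by simp [B, hr.le]
  obtain ⟨f, hfB, hfix, -, -⟩ := ContractingWith.exists_fixedPoint'
    (Metric.isClosed_closedBall.isComplete : IsComplete B) hmaps hcontr hz (edist_ne_top _ _)
  have hfn := hBn f hfB
  set F : ℕ → ℝ → ℝ := fun j t => f (j, t) with hF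
  have hfeq : ∀ k, ∀ t ∈ Icc 0 τ, F k t = duh β P lm y0 F k t := by
    intro k t ht
    have h1 : f (k, t) = Θ f (k, t) := by rw [hfix.eq]
    rw [hF]
    simp only
    rw [h1, hΘ, hclid t ht]
  refine ⟨duh β P lm y0 F, fun k => by simp [duh], fun k t ht => ?_, fun k t ht => ?_⟩
  · rw [← hfeq k t ht]; exact bd f hfn k t
  · have h1 := (duh_deriv Q lm y0 (sec f) (bd f hfn) k t).hasDerivWithinAt (s := Icc 0 τ)
    have h2 : (fun j => f (j, t)) = fun j => duh β P lm y0 F j t := by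
      ext j; exact hfeq j t ht
    rw [h2] at h1
    exact h1

/-- uniqueness -/
theorem quad_unique (Q : Qd β P C) {lm : ℕ → ℝ} (hl : ∀ k, 0 ≤ lm k) {T : ℝ} {y z : ℕ → ℝ → ℝ}
    (hb : ∀ j, ∀ t ∈ Icc 0 T, |y j t| ≤ r) (hb' : ∀ j, ∀ t ∈ Icc 0 T, |z j t| ≤ r)
    (h0 : ∀ j, y j 0 = z j 0)
    (hy : ∀ k, ∀ t ∈ Icc 0 T, HasDerivWithinAt (y k) (-(lm k) * y k t + Nl β P k (fun j => y j t))
        (Icc 0 T) t)
    (hz : ∀ k, ∀ t ∈ Icc 0 T, HasDerivWithinAt (z k) (-(lm k) * z k t + Nl β P k (fun j => z j t))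
        (Icc 0 T) t) {t : ℝ} (ht : t ∈ Icc 0 T) (k : ℕ) : y k t = z k t := by
  have hC := Q.nonneg
  have hr : 0 ≤ r := (abs_nonneg _).trans (hb 0 t ht)
  set K := C * (2 * r) with hK
  have hK0 : 0 ≤ K := by positivity
  have key : ∀ n : ℕ, ∀ k, ∀ t ∈ Icc 0 T, |y k t - z k t| ≤ 2 * r * ((K * t) ^ n / n.factorial) := by
    intro n
    induction n with
    | zero =>
      intro k t ht
      have h1 := abs_le.mp (hb k t ht)
      have h2 := abs_le.mp (hb' k t ht)
      rw [abs_le]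
      simp
      constructor <;> linarith
    | succ n ih =>
      -- one sided estimate
      have one : ∀ (u v : ℕ → ℝ → ℝ), (∀ j, ∀ t ∈ Icc 0 T, |u j t| ≤ r) →
          (∀ j, ∀ t ∈ Icc 0 T, |v j t| ≤ r) → (∀ j, u j 0 = v j 0) →
          (∀ k, ∀ t ∈ Icc 0 T, HasDerivWithinAt (u k)
            (-(lm k) * u k t + Nl β P k (fun j => u j t)) (Icc 0 T) t) →
          (∀ k, ∀ t ∈ Icc 0 T, HasDerivWithinAt (v k)
            (-(lm k) * v k t + Nl β P k (fun j => v j t)) (Icc 0 T) t) →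
          (∀ k, ∀ t ∈ Icc 0 T, |u k t - v k t| ≤ 2 * r * ((K * t) ^ n / n.factorial)) →
          ∀ k, ∀ t ∈ Icc 0 T, u k t - v k t ≤ 2 * r * ((K * t) ^ (n + 1) / (n + 1).factorial) := by
        intro u v hu hv h0 hu' hv' hind k t ht
        have hG : ∀ t : ℝ, HasDerivAt (fun t => 2 * r * ((K * t) ^ (n + 1) / (n + 1).factorial))
            (2 * r * (K * ((K * t) ^ n / n.factorial))) t := by
          intro t
          have h1 : HasDerivAt (fun t : ℝ => K * t) K t := by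
            simpa using (hasDerivAt_id t).const_mul K
          have h2 := ((h1.pow (n + 1)).div_const ((n + 1).factorial : ℝ)).const_mul (2 * r)
          refine HasDerivAt.congr_deriv h2 ?_
          rw [Nat.factorial_succ]
          push_cast
          have h3 : (n.factorial : ℝ) ≠ 0 := by positivity
          have h4 : (n : ℝ) + 1 ≠ 0 := by positivity
          field_simp
          try simp
        have h1 := gronwall_nonneg (α := 0) (β := T)
          (f := fun t => 2 * r * ((K * t) ^ (n + 1) / (n + 1).factorial) - (u k t - v k t))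
          (f' := fun t => 2 * r * (K * ((K * t) ^ n / n.factorial))
            - ((-(lm k) * u k t + Nl β P k (fun j => u j t))
              - (-(lm k) * v k t + Nl β P k (fun j => v j t))))
          (Γ := fun t => -(lm k) * (t - 0)) (γ := fun _ => -(lm k))
          (fun t ht => ((hG t).hasDerivWithinAt).sub ((hu' k t ht).sub (hv' k t ht)))
          (fun t _ => hasDerivWithinAt_linear _ _ _ _)
          (fun t ht => by
            have h2 := Nl_sub_le Q (fun j => hu j t ht) (fun j => hv j t ht)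
              (fun j => hind j t ht) k
            have h3 := (abs_le.mp h2).2
            have h4 : C * (2 * r * (2 * r * ((K * t) ^ n / n.factorial)))
                = 2 * r * (K * ((K * t) ^ n / n.factorial)) := by rw [hK]; ring
            rw [h4] at h3
            have h5 : 0 ≤ lm k * (2 * r * ((K * t) ^ (n + 1) / (n + 1).factorial)) := by
              have := hl k
              have := ht.1
              positivity
            linarith) ht (by simp [h0 k])
        linarith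
      intro k t ht
      rw [abs_le]
      constructor
      · have h1 := one z y hb' hb (fun j => (h0 j).symm) hz hy (fun k t ht => by
          rw [abs_sub_comm]; exact ih k t ht) k t ht
        linarith
      · exact one y z hb hb' h0 hy hz ih k t ht
  have hlim : Tendsto (fun n : ℕ => 2 * r * ((K * t) ^ n / n.factorial)) atTop (𝓝 (2 * r * 0)) :=
    (FloorSemiring.tendsto_pow_div_factorial_atTop (K * t)).const_mul (2 * r)
  have h2 := ge_of_tendsto' hlim (fun n => key n k t ht)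
  rw [mul_zero] at h2
  exact sub_eq_zero.mp (abs_eq_zero.mp (le_antisymm h2 (abs_nonneg _)))

end Pool.Agent.H402AX
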