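import Mathlib
import Pool.Agent.H402AX.Unif
import Pool.Agent.H402AX.LocEx

/-! The Galerkin system in coefficients. -/

open Set MeasureTheory Filter Topology Finset
open scoped RealInnerProductSpace ContDiff

namespace Pool.Agent.H402AX

section

variable {φ ρ ψ : V → V} {x₁ : V} {M ε : ℕ → ℝ}

/-- tails of the seeds -/
noncomputable def ts (ε : ℕ → ℝ) (n : ℕ) : ℝ := ∑' j, ε (j + n)

theorem Scl.summ_ε (S : Scl M ε) : Summable ε := by
  have h0 := S.summ 0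
  simp only [pow_zero, mul_one] at h0
  refine Summable.of_nonneg_of_le (fun n => (S.ε_pos n).le) (fun n => ?_)
    (h0.mul_left (∑' n, Real.sqrt (ε n)))
  have h1 : Real.sqrt (ε n) ≤ ∑' n, Real.sqrt (ε n) := h0.le_tsum n (fun j _ => Real.sqrt_nonneg _)
  calc ε n = Real.sqrt (ε n) * Real.sqrt (ε n) := (Real.mul_self_sqrt (S.ε_pos n).le).symm
    _ ≤ _ := mul_le_mul_of_nonneg_right h1 (Real.sqrt_nonneg _)

theorem ts_succ (S : Scl M ε) (n : ℕ) : ts ε n = ε n + ts ε (n + 1) := by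
  unfold ts
  have h1 : Summable (fun j => ε (j + n)) := (summable_nat_add_iff n).mpr S.summ_ε
  rw [h1.tsum_eq_zero_add]
  simp only [zero_add]
  congr 1
  refine tsum_congr fun j => ?_
  congr 1; ring

theorem ts_nonneg (S : Scl M ε) (n : ℕ) : 0 ≤ ts ε n := tsum_nonneg fun j => (S.ε_pos _).le

theorem ts_tendsto (ε : ℕ → ℝ) : Tendsto (ts ε) atTop (𝓝 0) := tendsto_sum_nat_add ε

theorem ts_le (S : Scl M ε) (hh : ∀ n, ε (n + 1) ≤ ε n / 2) (n : ℕ) : ts ε (n + 1) ≤ ε n := by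
  have h1 : ∀ j, ε (j + (n + 1)) ≤ ε n / 2 * (1 / 2) ^ j := by
    intro j
    induction j with
    | zero => simpa using hh n
    | succ j ih =>
      have := hh (j + (n + 1))
      rw [show j + 1 + (n + 1) = j + (n + 1) + 1 by ring, pow_succ]
      linarith
  have h2 : Summable (fun j => ε (j + (n + 1))) := (summable_nat_add_iff (n + 1)).mpr S.summ_ε
  have h3 : Summable (fun j : ℕ => ε n / 2 * (1 / 2 : ℝ) ^ j) := summable_geometric_two.mul_left _
  have h4 := h2.tsum_le_tsum h1 h3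
  rw [tsum_mul_left, tsum_geometric_two] at h4
  unfold ts
  linarith

theorem tt_lim (P : Prof φ ρ ψ x₁) (S : Scl M ε) {v : V → V} (hv : InX (Fam φ ψ ρ M ε) v)
    {C : ℝ} (hC : ∀ x, ‖v x‖ ≤ C ∧ ‖fderiv ℝ v x‖ ≤ C) :
    Tendsto (fun n => tt φ ψ ρ M ε v n) atTop (𝓝 0) := by
  have h1 : Tendsto (fun n => ‖HH‖ * (C + C * ‖HH‖) ^ 2 * vr (rad M n)) atTop (𝓝 0) := by
    simpa using (vr_rad_tendsto S).const_mul (‖HH‖ * (C + C * ‖HH‖) ^ 2)
  exact squeeze_zero_norm (fun n => by rw [Real.norm_eq_abs]; exact tt_le P S hv hC n) h1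

theorem tt_sum (P : Prof φ ρ ψ x₁) (S : Scl M ε) {v : V → V} (hv : InX (Fam φ ψ ρ M ε) v)
    {C : ℝ} (hC : ∀ x, ‖v x‖ ≤ C ∧ ‖fderiv ℝ v x‖ ≤ C) (n : ℕ) :
    HasSum (fun j => (-hf φ φ) * af φ M v (j + n) ^ 2
      + cf ψ ρ M ε v ^ 2 * ε (j + n) * (-hf ρ ρ)) (tt φ ψ ρ M ε v n) := by
  have hq : 0 < -hf φ φ := by linarith [P.q_pos]
  have hβ : 0 < -hf ρ ρ := by linarith [P.β_pos]
  rw [hasSum_iff_tendsto_nat_of_nonneg]
  · have h1 : ∀ N, ∑ j ∈ range N, ((-hf φ φ) * af φ M v (j + n) ^ 2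
        + cf ψ ρ M ε v ^ 2 * ε (j + n) * (-hf ρ ρ))
        = tt φ ψ ρ M ε v n - tt φ ψ ρ M ε v (N + n) := by
      intro N
      induction N with
      | zero => simp
      | succ N ih =>
        rw [sum_range_succ, ih, tt_rec P S hv (N + n), show N + 1 + n = N + n + 1 by ring]
        ring
    simp only [h1]
    have h2 := (tt_lim P S hv hC).comp (tendsto_add_atTop_nat n)
    have h3 := h2.const_sub (tt φ ψ ρ M ε v n)
    simpa using h3
  · intro j
    have := (S.ε_pos (j + n)).le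
    positivity

theorem flux_partial (P : Prof φ ρ ψ x₁) (S : Scl M ε) {v : V → V} (hv : InX (Fam φ ψ ρ M ε) v)
    (n : ℕ) : ∑ m ∈ range n, af φ M v m * tri v (sc (M m) φ) v
      = cf ψ ρ M ε v ^ 2 * (-hf ρ ρ) * (∑ m ∈ range n, M m ^ 5 * af φ M v m * (ε m - ts ε (m + 1))
        + Wf φ M v n * ts ε n) - Wf φ M v n * tt φ ψ ρ M ε v n := by
  induction n with
  | zero => simp [Wf]
  | succ n ih =>
    have hW : Wf φ M v (n + 1) = Wf φ M v n + M n ^ 5 * af φ M v n := by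
      unfold Wf; rw [sum_range_succ]
    rw [sum_range_succ, ih, flux_eq P S hv, hW, sum_range_succ, tt_rec P S hv n, ts_succ S n]
    ring

theorem tri_un_lim (P : Prof φ ρ ψ x₁) (S : Scl M ε) {v : V → V}
    (hv : InX (Fam φ ψ ρ M ε) v) {C : ℝ} (hC : ∀ x, ‖v x‖ ≤ C ∧ ‖fderiv ℝ v x‖ ≤ C) :
    Tendsto (fun n => tri v (un φ ψ ρ M ε v n) v) atTop (𝓝 0) := by
  have hPT := PP_TF P S
  obtain ⟨B, hB0, hB⟩ := cs_bound hPT.contd (R := sr ψ) (fun x hx => fderiv_zero_of (PP_zero P S) x hx)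
  set K := C + |cf ψ ρ M ε v| * B + C * ‖HH‖ with hK
  have h1 : Tendsto (fun n => C ^ 2 * K * vr (rad M n)) atTop (𝓝 0) := by
    simpa using (vr_rad_tendsto S).const_mul (C ^ 2 * K)
  refine squeeze_zero_norm (fun n => ?_) h1
  set U := un φ ψ ρ M ε v n with hU
  have hUT : TF U := un_TF P S v n
  have hDT : TF (v - U) := hv.1.sub hUT
  have e3 : v = U + (v - U) := by abel
  have e4 : tri v v v = 0 := tri_self hv.1 hv.1.cd hv.1.dv
  have e5 : tri v v v = tri v U v + tri v (v - U) v := by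
    have : tri v (U + (v - U)) v = tri v U v + tri v (v - U) v :=
      tri_add_mid hv.1.cont hUT hDT hv.1.cont
    rwa [← e3] at this
  have hg : ∀ x, ‖fderiv ℝ (v - U) x‖ ≤ K := fun x =>
    grad_diff P S hv (fun x => (hC x).2) hB n x
  have hz : ∀ x, rad M n < ‖x‖ → fderiv ℝ (v - U) x = 0 := fun x hx =>
    fderiv_zero_of (diff_small P S hv n) x (by linarith [S.rad_pos n])
  have e8 := tri_diff_le (fun x => (hC x).1) hg hz
  have e9 : tri v U v = - tri v (v - U) v := by linarith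
  rw [e9, norm_neg, Real.norm_eq_abs]
  exact e8

theorem coef_le (P : Prof φ ρ ψ x₁) (S : Scl M ε) {v : V → V}
    (hv : InX (Fam φ ψ ρ M ε) v) {C : ℝ} (hC : ∀ x, ‖fderiv ℝ v x‖ ≤ C) (n : ℕ) :
    |M n ^ 5 * af φ M v n| ≤ 2 * C := by
  have h1 := abs_le.mp (W_le P S hv hC n)
  have h2 := abs_le.mp (W_le P S hv hC (n + 1))
  have hW : Wf φ M v (n + 1) = Wf φ M v n + M n ^ 5 * af φ M v n := by
    unfold Wf; rw [sum_range_succ]
  rw [hW] at h2
  rw [abs_le]
  constructor <;> linarith [h1.1, h1.2, h2.1, h2.2]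

theorem pump_summ (P : Prof φ ρ ψ x₁) (S : Scl M ε) (hh : ∀ n, ε (n + 1) ≤ ε n / 2) {v : V → V}
    (hv : InX (Fam φ ψ ρ M ε) v) {C : ℝ} (hC : ∀ x, ‖fderiv ℝ v x‖ ≤ C) :
    Summable (fun m => M m ^ 5 * af φ M v m * (ε m - ts ε (m + 1))) := by
  refine Summable.of_norm_bounded (S.summ_ε.mul_left (2 * C)) (fun m => ?_)
  rw [Real.norm_eq_abs, abs_mul]
  have h1 := ts_le S hh m
  have h2 := ts_nonneg S (m + 1)
  refine mul_le_mul (coef_le P S hv hC m) ?_ (abs_nonneg _) ((abs_nonneg _).trans (coef_le P S hv hC m))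
  rw [abs_of_nonneg (by linarith)]
  linarith

/-- the equation of the pump when its amplitude does not vanish -/
theorem pump_eq0 (P : Prof φ ρ ψ x₁) (S : Scl M ε) (hh : ∀ n, ε (n + 1) ≤ ε n / 2) {v : V → V}
    (hv : InX (Fam φ ψ ρ M ε) v) {C : ℝ} (hC : ∀ x, ‖v x‖ ≤ C ∧ ‖fderiv ℝ v x‖ ≤ C)
    (hc : cf ψ ρ M ε v ≠ 0) :
    tri v (PP ψ ρ M ε) v = -(cf ψ ρ M ε v * (-hf ρ ρ) *
      ∑' m, M m ^ 5 * af φ M v m * (ε m - ts ε (m + 1))) := by
  have h1 := tri_un_lim P S hv hC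
  have h2 : (fun n => tri v (un φ ψ ρ M ε v n) v) = fun n =>
      cf ψ ρ M ε v * tri v (PP ψ ρ M ε) v +
      (cf ψ ρ M ε v ^ 2 * (-hf ρ ρ) * (∑ m ∈ range n, M m ^ 5 * af φ M v m * (ε m - ts ε (m + 1))
        + Wf φ M v n * ts ε n) - Wf φ M v n * tt φ ψ ρ M ε v n) := by
    ext n
    rw [← tri_un P S hv.1, flux_partial P S hv]
  rw [h2] at h1
  have hWb : ∀ n, |Wf φ M v n| ≤ C := W_le P S hv (fun x => (hC x).2)
  have hW0 : ∀ {f : ℕ → ℝ}, Tendsto f atTop (𝓝 0) → Tendsto (fun n => Wf φ M v n * f n) atTop (𝓝 0) := by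
    intro f hf
    have h3 : Tendsto (fun n => C * |f n|) atTop (𝓝 0) := by
      simpa using (hf.abs).const_mul C
    refine squeeze_zero_norm (fun n => ?_) h3
    rw [Real.norm_eq_abs, abs_mul]
    exact mul_le_mul_of_nonneg_right (hWb n) (abs_nonneg _)
  have h4 := (pump_summ P S hh hv (fun x => (hC x).2)).hasSum.tendsto_sum_nat
  have h5 := ((((h4.add (hW0 (ts_tendsto ε))).const_mul (cf ψ ρ M ε v ^ 2 * (-hf ρ ρ))).sub
    (hW0 (tt_lim P S hv hC))).const_add (cf ψ ρ M ε v * tri v (PP ψ ρ M ε) v))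
  have h6 := tendsto_nhds_unique h5 h1
  have h7 : cf ψ ρ M ε v * (tri v (PP ψ ρ M ε) v + cf ψ ρ M ε v * (-hf ρ ρ) *
      ∑' m, M m ^ 5 * af φ M v m * (ε m - ts ε (m + 1))) = 0 := by
    linear_combination h6
  have h8 := (mul_eq_zero.mp h7).resolve_left hc
  linarith

theorem InX_add (P : Prof φ ρ ψ x₁) (S : Scl M ε) {v : V → V}
    (hv : InX (Fam φ ψ ρ M ε) v) (s : ℝ) : InX (Fam φ ψ ρ M ε) (v + s • PP ψ ρ M ε) := by
  refine ⟨hv.1.add ((PP_TF P S).smul s), fun η hη => ?_⟩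
  obtain ⟨w, hw, hwη⟩ := hv.2 η hη
  refine ⟨w + s • PP ψ ρ M ε, Submodule.add_mem _ hw (Submodule.smul_mem _ s
    (Submodule.subset_span ⟨0, rfl⟩)), ?_⟩
  refine le_trans (le_of_eq ?_) hwη
  congr 1; ext x
  simp

theorem cf_add (P : Prof φ ρ ψ x₁) (S : Scl M ε) {v : V → V} (hv : TF v) (s : ℝ) :
    cf ψ ρ M ε (v + s • PP ψ ρ M ε) = cf ψ ρ M ε v + s := by
  have hP := PP_TF P S
  have := PP_ip_pos P S
  unfold cf
  rw [ip_add_left hv.cont (hP.smul s).cont hP, ip_smul_left]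
  field_simp

theorem af_add (P : Prof φ ρ ψ x₁) (S : Scl M ε) {v : V → V} (hv : TF v) (s : ℝ) (n : ℕ) :
    af φ M (v + s • PP ψ ρ M ε) n = af φ M v n := by
  have hP := PP_TF P S
  unfold af
  rw [ip_add_left hv.cont (hP.smul s).cont (φT P S n), ip_smul_left, ip_φP P S]
  simp

/-- the equation of the pump -/
theorem pump_eq (P : Prof φ ρ ψ x₁) (S : Scl M ε) (hh : ∀ n, ε (n + 1) ≤ ε n / 2) {v : V → V}
    (hv : InX (Fam φ ψ ρ M ε) v) {C : ℝ} (hC : ∀ x, ‖v x‖ ≤ C ∧ ‖fderiv ℝ v x‖ ≤ C) :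
    tri v (PP ψ ρ M ε) v = -(cf ψ ρ M ε v * (-hf ρ ρ) *
      ∑' m, M m ^ 5 * af φ M v m * (ε m - ts ε (m + 1))) := by
  by_cases hc : cf ψ ρ M ε v = 0
  · have hP := PP_TF P S
    obtain ⟨B0, hB0, hB⟩ := cs_bound hP.cont (R := sr ψ) (PP_zero P S)
    obtain ⟨B1, hB1, hB'⟩ := cs_bound hP.contd (R := sr ψ) (fun x hx => fderiv_zero_of (PP_zero P S) x hx)
    have key : ∀ s : ℝ, s ≠ 0 → tri v (PP ψ ρ M ε) v + s * tri v (PP ψ ρ M ε) (PP ψ ρ M ε)
        = -(s * (-hf ρ ρ) * ∑' m, M m ^ 5 * af φ M v m * (ε m - ts ε (m + 1))) := by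
      intro s hs
      have hX := InX_add P S hv s
      have hPs := hP.smul s
      have hbd : ∀ x, ‖(v + s • PP ψ ρ M ε) x‖ ≤ C + |s| * (B0 + B1) ∧
          ‖fderiv ℝ (v + s • PP ψ ρ M ε) x‖ ≤ C + |s| * (B0 + B1) := by
        intro x
        constructor
        · refine (norm_add_le _ _).trans (add_le_add (hC x).1 ?_)
          rw [Pi.smul_apply, norm_smul, Real.norm_eq_abs]
          exact mul_le_mul_of_nonneg_left ((hB x).trans (by linarith)) (abs_nonneg _)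
        · rw [fderiv_add (hv.1.diff x) (hPs.diff x), fderiv_const_smul (hP.diff x)]
          refine (norm_add_le _ _).trans (add_le_add (hC x).2 ?_)
          rw [norm_smul, Real.norm_eq_abs]
          exact mul_le_mul_of_nonneg_left ((hB' x).trans (by linarith)) (abs_nonneg _)
      have h := pump_eq0 P S hh hX hbd (by rw [cf_add P S hv.1, hc, zero_add]; exact hs)
      simp only [af_add P S hv.1, cf_add P S hv.1, hc, zero_add] at h
      rw [← h, tri_add_left hv.1.cont hPs.cont hP (hv.1.add hPs).cont,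
        tri_add_right hv.1.cont hP hv.1.cont hPs.cont, tri_smul_right, tri_smul_left,
        tri_self hP (hv.1.add hPs).cd (hv.1.add hPs).dv]
      ring
    have k1 := key 1 one_ne_zero
    have k2 := key 2 two_ne_zero
    rw [hc]
    linarith
  · exact pump_eq0 P S hh hv hC hc

end

/-! Weights -/

noncomputable def bb (lam : ℝ) (n : ℕ) : ℝ := Real.exp (-(Real.exp (25 / 72 * LL lam n) / 64))

theorem bb_pos (lam : ℝ) (n : ℕ) : 0 < bb lam n := Real.exp_pos _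

theorem bb_le_one (lam : ℝ) (n : ℕ) : bb lam n ≤ 1 := by
  unfold bb
  rw [Real.exp_le_one_iff]
  have := Real.exp_pos (25 / 72 * LL lam n)
  linarith

theorem EE_eq (lam : ℝ) (n : ℕ) : EE lam n = bb lam n ^ 4 := by
  unfold EE bb
  rw [← Real.exp_nat_mul]
  congr 1; push_cast; ring

theorem LL_mono {lam : ℝ} (h : 0 ≤ lam) : Monotone (LL lam) := by
  intro m n hmn
  unfold LL
  exact mul_le_mul_of_nonneg_left (pow_le_pow_right₀ (by norm_num) hmn) h

theorem bb_anti {lam : ℝ} (h : 0 ≤ lam) : Antitone (bb lam) := by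
  intro m n hmn
  unfold bb
  apply Real.exp_le_exp.mpr
  have := Real.exp_le_exp.mpr (mul_le_mul_of_nonneg_left (LL_mono h hmn) (by norm_num : (0:ℝ) ≤ 25 / 72))
  linarith

theorem MM_mono {lam : ℝ} (h : 0 ≤ lam) : Monotone (MM lam) := by
  intro m n hmn
  unfold MM
  exact Real.exp_le_exp.mpr (by linarith [LL_mono h hmn])

theorem bb_summable {lam : ℝ} (h : 1 ≤ lam) (j : ℕ) :
    Summable (fun n => MM lam n ^ j * bb lam n) := by
  obtain ⟨x0, hx0, hx⟩ := exp_beats (25 / 72) (64 * (j + 2)) (by norm_num)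
  have h1 : ∀ᶠ n in atTop, x0 ≤ LL lam n := (LL_tendsto h).eventually_ge_atTop x0
  have h2 : ∀ᶠ n : ℕ in atTop, ‖MM lam n ^ j * bb lam n‖ ≤ (Real.exp (-1 / 5)) ^ n := by
    filter_upwards [h1] with n hn
    have h3 := hx (LL lam n) hn
    rw [Real.norm_eq_abs, abs_of_nonneg (by have := MM_pos lam n; have := bb_pos lam n; positivity),
      MM_pow]
    unfold bb
    rw [← Real.exp_add, ← Real.exp_nat_mul]
    apply Real.exp_le_exp.mpr
    have h5 : (n : ℝ) / 5 ≤ LL lam n := by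
      have h6 := one_add_mul_le_pow (a := (1 / 5 : ℝ)) (by norm_num) n
      have h7 := pow_le_LL h n
      have h8 : (1 + 1 / 5 : ℝ) ^ n = (6 / 5) ^ n := by norm_num
      rw [h8] at h6
      linarith
    have h6 : 0 ≤ LL lam n := by linarith [LL_ge (by linarith : 0 ≤ lam) n]
    nlinarith
  refine Summable.of_norm_bounded_eventually_nat (g := fun n => (Real.exp (-1 / 5)) ^ n) ?_ h2
  exact summable_geometric_of_lt_one (Real.exp_pos _).le (by
    rw [show (1 : ℝ) = Real.exp 0 by simp]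
    exact Real.exp_lt_exp.mpr (by norm_num))

/-- coefficients of the quadratic system; `q, b0, F, G` are the constants of the profiles -/
noncomputable def bet (q b0 F G lam : ℝ) : ℕ → ℕ → ℝ
  | 0, i => -(b0 / G) * (MM lam i ^ 5 * (EE lam i - ts (EE lam) (i + 1))) * bb lam i
  | (n + 1), i => if i < n then q / F * (MM lam i ^ 5 * bb lam i)
      else if i = n then b0 / F * (MM lam n ^ 5 * (EE lam n - ts (EE lam) (n + 1))) / bb lam n
      else -(q / F) * (MM lam n ^ 5 * bb lam i ^ 2) / bb lam n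

def PI : ℕ → ℕ → ℕ × ℕ
  | 0, i => (0, i + 1)
  | (n + 1), i => if i < n then (i + 1, n + 1) else if i = n then (0, 0) else (i + 1, i + 1)

theorem bet_le {q b0 F G lam : ℝ} (hq : 0 ≤ q) (hb : 0 ≤ b0) (hF : 0 < F) (hG : 0 < G)
    (hl : 0 ≤ lam) (S : Scl (MM lam) (EE lam)) (hh : ∀ n, EE lam (n + 1) ≤ EE lam n / 2)
    (k i : ℕ) : |bet q b0 F G lam k i| ≤ (q / F + b0 / F + b0 / G) * (MM lam i ^ 5 * bb lam i) := by
  have hM := MM_pos lam i
  have hb' := bb_pos lam i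
  have hpos : 0 ≤ MM lam i ^ 5 * bb lam i := by positivity
  have hE : ∀ n, 0 ≤ EE lam n - ts (EE lam) (n + 1) ∧ EE lam n - ts (EE lam) (n + 1) ≤ bb lam n ^ 4 := by
    intro n
    have h1 := ts_le S hh n
    have h2 := ts_nonneg S (n + 1)
    rw [← EE_eq]
    constructor <;> linarith
  have e1 : 0 ≤ q / F := by positivity
  have e2 : 0 ≤ b0 / F := by positivity
  have e3 : 0 ≤ b0 / G := by positivity
  cases k with
  | zero =>
    unfold bet
    obtain ⟨h1, h2⟩ := hE i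
    have h3 : bb lam i ^ 4 ≤ 1 := pow_le_one₀ hb'.le (bb_le_one lam i)
    rw [abs_mul, abs_mul, abs_neg, abs_of_nonneg e3, abs_of_nonneg hb'.le, abs_of_nonneg (by positivity)]
    calc b0 / G * (MM lam i ^ 5 * (EE lam i - ts (EE lam) (i + 1))) * bb lam i
        ≤ b0 / G * (MM lam i ^ 5 * 1) * bb lam i := by
          refine mul_le_mul_of_nonneg_right (mul_le_mul_of_nonneg_left
            (mul_le_mul_of_nonneg_left (h2.trans h3) (by positivity)) e3) hb'.le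
      _ = b0 / G * (MM lam i ^ 5 * bb lam i) := by ring
      _ ≤ _ := mul_le_mul_of_nonneg_right (by linarith) hpos
  | succ n =>
    simp only [bet]
    split_ifs with h1 h2
    · rw [abs_mul, abs_of_nonneg e1, abs_of_nonneg hpos]
      exact mul_le_mul_of_nonneg_right (by linarith) hpos
    · subst h2
      obtain ⟨h3, h4⟩ := hE i
      rw [abs_of_nonneg (by positivity), div_le_iff₀ hb']
      have h5 : bb lam i ^ 4 ≤ bb lam i ^ 2 := pow_le_pow_of_le_one hb'.le (bb_le_one lam i) (by norm_num)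
      calc b0 / F * (MM lam i ^ 5 * (EE lam i - ts (EE lam) (i + 1)))
          ≤ b0 / F * (MM lam i ^ 5 * bb lam i ^ 2) :=
            mul_le_mul_of_nonneg_left (mul_le_mul_of_nonneg_left (h4.trans h5) (by positivity)) e2
        _ = b0 / F * (MM lam i ^ 5 * bb lam i) * bb lam i := by ring
        _ ≤ _ := mul_le_mul_of_nonneg_right (mul_le_mul_of_nonneg_right (by linarith) hpos) hb'.le
    · have hbn := bb_pos lam n
      have hni : n ≤ i := by omega
      rw [abs_div, abs_mul, abs_neg, abs_of_nonneg e1, abs_of_pos hbn,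
        abs_of_nonneg (by have := MM_pos lam n; positivity), div_le_iff₀ hbn]
      have h3 : MM lam n ^ 5 ≤ MM lam i ^ 5 := pow_le_pow_left₀ (MM_pos lam n).le (MM_mono hl hni) 5
      have h4 : bb lam i ≤ bb lam n := bb_anti hl hni
      calc q / F * (MM lam n ^ 5 * bb lam i ^ 2)
          ≤ q / F * (MM lam i ^ 5 * (bb lam i * bb lam n)) := by
            refine mul_le_mul_of_nonneg_left (mul_le_mul h3 ?_ (by positivity) (by positivity)) e1
            rw [sq]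
            exact mul_le_mul_of_nonneg_left h4 hb'.le
        _ = q / F * (MM lam i ^ 5 * bb lam i) * bb lam n := by ring
        _ ≤ _ := mul_le_mul_of_nonneg_right (mul_le_mul_of_nonneg_right (by linarith) hpos) hbn.le

theorem bet_Qd {q b0 F G lam : ℝ} (hq : 0 ≤ q) (hb : 0 ≤ b0) (hF : 0 < F) (hG : 0 < G)
    (hl : 1 ≤ lam) (S : Scl (MM lam) (EE lam)) (hh : ∀ n, EE lam (n + 1) ≤ EE lam n / 2) :
    Qd (bet q b0 F G lam) PI ((q / F + b0 / F + b0 / G) * ∑' i, (MM lam i ^ 5 * bb lam i)) := by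
  have hs := (bb_summable hl 5).mul_left (q / F + b0 / F + b0 / G)
  have hle := bet_le hq hb hF hG (by linarith) S hh
  have hsum : ∀ k, Summable (fun i => |bet q b0 F G lam k i|) := fun k =>
    Summable.of_nonneg_of_le (fun i => abs_nonneg _) (hle k) hs
  refine ⟨hsum, fun k => ?_⟩
  rw [← tsum_mul_left]
  exact (hsum k).tsum_le_tsum (hle k) hs

/-- normalised coefficients -/
noncomputable def co (φ ψ ρ : V → V) (lam : ℝ) (v : V → V) : ℕ → ℝ
  | 0 => cf ψ ρ (MM lam) (EE lam) v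
  | (n + 1) => af φ (MM lam) v n / bb lam n

noncomputable def lmd (φ ψ ρ : V → V) (lam ν : ℝ) : ℕ → ℝ
  | 0 => ν * dir (PP ψ ρ (MM lam) (EE lam)) (PP ψ ρ (MM lam) (EE lam))
      / ip (PP ψ ρ (MM lam) (EE lam)) (PP ψ ρ (MM lam) (EE lam))
  | (n + 1) => ν * (MM lam n ^ 4 * dir φ φ) / ip φ φ

/-- the coefficients of the profiles -/
noncomputable def Bt (φ ψ ρ : V → V) (lam : ℝ) : ℕ → ℕ → ℝ :=
  bet (-hf φ φ) (-hf ρ ρ) (ip φ φ)
    (ip (PP ψ ρ (MM lam) (EE lam)) (PP ψ ρ (MM lam) (EE lam))) lam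

section

variable {φ ρ ψ : V → V} {x₁ : V} {lam ν : ℝ}

theorem match0 (P : Prof φ ρ ψ x₁) (S : Scl (MM lam) (EE lam))
    (hh : ∀ n, EE lam (n + 1) ≤ EE lam n / 2) {v : V → V}
    (hv : InX (Fam φ ψ ρ (MM lam) (EE lam)) v) :
    (tri v (PP ψ ρ (MM lam) (EE lam)) v - ν * dir v (PP ψ ρ (MM lam) (EE lam)))
      / ip (PP ψ ρ (MM lam) (EE lam)) (PP ψ ρ (MM lam) (EE lam))
    = -(lmd φ ψ ρ lam ν 0) * co φ ψ ρ lam v 0 + Nl (Bt φ ψ ρ lam) PI 0 (co φ ψ ρ lam v) := by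
  have hPT := PP_TF P S
  obtain ⟨C, -, hC⟩ := hv.1.bound
  obtain ⟨B, hB0, hB⟩ := cs_bound hPT.contd (R := sr ψ) (fun x hx => fderiv_zero_of (PP_zero P S) x hx)
  have hG := PP_ip_pos P S
  rw [pump_eq P S hh hv hC, dir_pump P S hv (fun x => (hC x).2) hB]
  unfold Nl Bt
  have e1 : ∀ i, bet (-hf φ φ) (-hf ρ ρ) (ip φ φ)
      (ip (PP ψ ρ (MM lam) (EE lam)) (PP ψ ρ (MM lam) (EE lam))) lam 0 i *
      (co φ ψ ρ lam v (PI 0 i).1 * co φ ψ ρ lam v (PI 0 i).2)
      = (-(-hf ρ ρ / ip (PP ψ ρ (MM lam) (EE lam)) (PP ψ ρ (MM lam) (EE lam)))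
        * cf ψ ρ (MM lam) (EE lam) v) *
        (MM lam i ^ 5 * af φ (MM lam) v i * (EE lam i - ts (EE lam) (i + 1))) := by
    intro i
    have hb := bb_pos lam i
    simp only [bet, PI, co]
    field_simp
  simp only [e1]
  rw [tsum_mul_left]
  unfold lmd co
  field_simp
  ring

theorem match1 (P : Prof φ ρ ψ x₁) (S : Scl (MM lam) (EE lam)) (hl : 1 ≤ lam)
    (hh : ∀ n, EE lam (n + 1) ≤ EE lam n / 2) {v : V → V}
    (hv : InX (Fam φ ψ ρ (MM lam) (EE lam)) v) {r : ℝ}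
    (hr : ∀ k, |co φ ψ ρ lam v k| ≤ r) (n : ℕ) :
    (tri v (sc (MM lam n) φ) v - ν * dir v (sc (MM lam n) φ)) / ip φ φ / bb lam n
    = -(lmd φ ψ ρ lam ν (n + 1)) * co φ ψ ρ lam v (n + 1)
      + Nl (Bt φ ψ ρ lam) PI (n + 1) (co φ ψ ρ lam v) := by
  obtain ⟨C, -, hC⟩ := hv.1.bound
  have hq : 0 < -hf φ φ := by linarith [P.q_pos]
  have hβ : 0 < -hf ρ ρ := by linarith [P.β_pos]
  have hF := φ_pos P
  have hG := PP_ip_pos P S
  have Q := bet_Qd hq.le hβ.le hF hG hl S hh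
  have hbn := bb_pos lam n
  rw [flux_eq P S hv, dir_eq P S hv]
  have hsum := Nl_summable Q hr (n + 1)
  have hN : Nl (Bt φ ψ ρ lam) PI (n + 1) (co φ ψ ρ lam v)
      = ∑ i ∈ range (n + 1), Bt φ ψ ρ lam (n + 1) i *
          (co φ ψ ρ lam v (PI (n + 1) i).1 * co φ ψ ρ lam v (PI (n + 1) i).2)
        + ∑' j, Bt φ ψ ρ lam (n + 1) (j + (n + 1)) *
          (co φ ψ ρ lam v (PI (n + 1) (j + (n + 1))).1
            * co φ ψ ρ lam v (PI (n + 1) (j + (n + 1))).2) :=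
    (hsum.sum_add_tsum_nat_add (n + 1)).symm
  have e1 : ∑ i ∈ range (n + 1), Bt φ ψ ρ lam (n + 1) i *
          (co φ ψ ρ lam v (PI (n + 1) i).1 * co φ ψ ρ lam v (PI (n + 1) i).2)
      = -hf φ φ / ip φ φ * Wf φ (MM lam) v n * (af φ (MM lam) v n / bb lam n)
        + -hf ρ ρ / ip φ φ * (MM lam n ^ 5 * (EE lam n - ts (EE lam) (n + 1))) / bb lam n
          * cf ψ ρ (MM lam) (EE lam) v ^ 2 := by
    rw [sum_range_succ]
    congr 1
    · unfold Wf
      rw [mul_sum, sum_mul]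
      refine sum_congr rfl fun i hi => ?_
      have hi' := mem_range.mp hi
      have hbi := bb_pos lam i
      simp only [Bt, bet, PI, if_pos hi', co]
      field_simp
    · simp only [Bt, bet, PI, lt_irrefl, if_false, if_true, co]
      ring
  have e2 : ∀ j, Bt φ ψ ρ lam (n + 1) (j + (n + 1)) *
          (co φ ψ ρ lam v (PI (n + 1) (j + (n + 1))).1
            * co φ ψ ρ lam v (PI (n + 1) (j + (n + 1))).2)
      = (-(-hf φ φ / ip φ φ) * MM lam n ^ 5 / bb lam n) * af φ (MM lam) v (j + (n + 1)) ^ 2 := by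
    intro j
    have h1 : ¬ (j + (n + 1) < n) := by omega
    have h2 : ¬ (j + (n + 1) = n) := by omega
    have hbj := bb_pos lam (j + (n + 1))
    simp only [Bt, bet, PI, if_neg h1, if_neg h2, co]
    field_simp
  have h3 := tt_sum P S hv hC (n + 1)
  have h4 : Summable (fun j => EE lam (j + (n + 1))) :=
    (summable_nat_add_iff (n + 1)).mpr S.summ_ε
  have h5 : HasSum (fun j => cf ψ ρ (MM lam) (EE lam) v ^ 2 * EE lam (j + (n + 1)) * (-hf ρ ρ))
      (cf ψ ρ (MM lam) (EE lam) v ^ 2 * ts (EE lam) (n + 1) * (-hf ρ ρ)) :=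
    (h4.hasSum.mul_left _).mul_right _
  have h6 := (h3.sub h5).mul_left ((-hf φ φ)⁻¹)
  have h7 : (fun j => (-hf φ φ)⁻¹ * (-hf φ φ * af φ (MM lam) v (j + (n + 1)) ^ 2
      + cf ψ ρ (MM lam) (EE lam) v ^ 2 * EE lam (j + (n + 1)) * (-hf ρ ρ)
      - cf ψ ρ (MM lam) (EE lam) v ^ 2 * EE lam (j + (n + 1)) * (-hf ρ ρ)))
      = fun j => af φ (MM lam) v (j + (n + 1)) ^ 2 := by
    ext j
    rw [add_sub_cancel_right, inv_mul_cancel_left₀ hq.ne']
  rw [h7] at h6
  rw [hN, e1]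
  simp only [e2]
  rw [tsum_mul_left, h6.tsum_eq]
  simp only [lmd, co]
  generalize -hf φ φ = q at hq ⊢
  generalize -hf ρ ρ = b0
  field_simp
  ring

end

end Pool.Agent.H402AX
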