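import Mathlib
import Pool.Agent.H402AX.Decay
import Pool.Agent.H402AX.Synth

/-! The chosen parameters and the facts used in the continuation argument. -/

open Set MeasureTheory Filter Topology Finset
open scoped RealInnerProductSpace ContDiff

namespace Pool.Agent.H402AX

/-- the shell system of a solution on `[0, T']` -/
abbrev ShellOf (φ ψ ρ : V → V) (lam ν R T : ℝ) (u : ℝ → V → V) : Prop :=
  Shell (gg (-hf φ φ / ip φ φ) lam) (muu (ν * dir φ φ / ip φ φ) lam)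
      (ss (-hf ρ ρ / (4 * ip φ φ)) lam) (ss (9 * -hf ρ ρ / (4 * ip φ φ)) lam)
      (kk (9 * -hf ρ ρ / (4 * -hf φ φ)) lam) R T
      (fun n t => af φ (MM lam) (u t) n)
      (fun n t => tt φ ψ ρ (MM lam) (EE lam) (u t) (n + 1) / (-hf φ φ))
      (fun n t => MM lam n ^ 5 * (cf ψ ρ (MM lam) (EE lam) (u t) ^ 2 * EE lam n * (-hf ρ ρ))
        / ip φ φ)
      (fun n t => (-hf ρ ρ) / (-hf φ φ) * (cf ψ ρ (MM lam) (EE lam) (u t) ^ 2 * EE lam n))

/-- the second coefficient of the initial datum -/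
noncomputable def dd (φ : V → V) (lam : ℝ) : ℝ := δ (gg (-hf φ φ / ip φ φ) lam) 0

structure Good (φ ρ ψ : V → V) (x₁ : V) (ν T lam R : ℝ) : Prop where
  P : Prof φ ρ ψ x₁
  S : Scl (MM lam) (EE lam)
  one : 1 ≤ lam
  half : ∀ n, EE lam (n + 1) ≤ EE lam n / 2
  ν_pos : 0 < ν
  T_pos : 0 < T
  T_le : T ≤ 1
  R_ge : 1 ≤ R
  par : Par (gg (-hf φ φ / ip φ φ) lam) (muu (ν * dir φ φ / ip φ φ) lam)
      (ss (-hf ρ ρ / (4 * ip φ φ)) lam) (ss (9 * -hf ρ ρ / (4 * ip φ φ)) lam)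
      (kk (9 * -hf ρ ρ / (4 * -hf φ φ)) lam)
      (etaa (Ceta (-hf φ φ / ip φ φ) R (9 * -hf ρ ρ / (4 * ip φ φ)) (9 * -hf ρ ρ / (4 * -hf φ φ)))
        lam) (QQ lam) (Lam (KK R (-hf φ φ / ip φ φ)) lam) rr R T
  c8 : ∀ C : ℝ, ∃ n : ℕ,
    C * Real.exp (LL lam (n + 1)) < gg (-hf φ φ / ip φ φ) lam n * rr n
  shell : ∀ T' u, 0 ≤ T' → T' ≤ T →
    GSol ν (Fam φ ψ ρ (MM lam) (EE lam)) (u00 φ ψ ρ lam (dd φ lam)) T' u →
    ShellOf φ ψ ρ lam ν R T' u

theorem ev_halfE : ∀ᶠ lam in (atTop : Filter ℝ), ∀ n : ℕ, EE lam (n + 1) ≤ EE lam n / 2 := by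
  filter_upwards [ev_half, ev_L_ge 0] with lam h h0 n
  have h1 := h n
  have e1 := EE_pos lam n
  have e2 := EE_pos lam (n + 1)
  have e3 : Real.exp (5 / 2 * LL lam n) ≤ Real.exp (5 / 2 * LL lam (n + 1)) := by
    apply Real.exp_le_exp.mpr
    rw [LL_succ]
    linarith [h0 n]
  have e4 : Real.exp (5 / 2 * LL lam n) * EE lam (n + 1)
      ≤ Real.exp (5 / 2 * LL lam n) * (EE lam n / 2) := by
    have := mul_le_mul_of_nonneg_right e3 e2.le
    linarith
  exact le_of_mul_le_mul_left e4 (Real.exp_pos _)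

theorem Par.mono_μ {g μ μ' slo shi κh η Q Λ r : ℕ → ℝ} {R T : ℝ}
    (Pr : Par g μ slo shi κh η Q Λ r R T) (h : ∀ n, μ' n ≤ μ n) (hm : ∀ n, μ' n ≤ μ' (n + 1))
    (hR : 0 ≤ R) (hD : ∀ n, 0 ≤ D g Λ r n) (hslo : ∀ n, 0 ≤ slo n) (hg : ∀ n, 0 < g n) :
    Par g μ' slo shi κh η Q Λ r R T :=
  { Pr with
    μ_mono := hm
    c1 := fun n => by
      refine le_trans ?_ (Pr.c1 n)
      have h1 : 0 ≤ 64 * R * Λ n := by have := Pr.Λ_ge n; positivity
      exact mul_le_mul_of_nonneg_left (by linarith [h (n + 1)]) h1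
    c7 := fun n => by
      refine (Pr.c7 n).trans_le ?_
      have h1 := mul_le_mul_of_nonneg_right (h (n + 2)) (hD n)
      have h2 : 0 ≤ slo (n + 2) / 2 * (1 / (8 * (g n * R))) := by
        have := hslo (n + 2)
        have := (hg n).le
        positivity
      exact mul_le_mul_of_nonneg_left (Real.exp_le_exp.mpr (by linarith)) h2 }

/-- good parameters exist -/
theorem exists_good {φ ρ ψ : V → V} {x₁ : V} (P : Prof φ ρ ψ x₁) {ν₀ : ℝ} (hν₀ : 0 < ν₀) :
    ∃ T lam R : ℝ, (∀ ν, 0 < ν → ν ≤ ν₀ → Good φ ρ ψ x₁ ν T lam R) ∧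
      ip (u00 φ ψ ρ lam (dd φ lam) - ψ) (u00 φ ψ ρ lam (dd φ lam) - ψ)
        ≤ 3 * (2 * ip φ φ + vr 1) := by
  obtain ⟨B0, B, hB0, hB, hev⟩ := ev_unif P
  have hF := φ_pos P
  have hq : 0 < -hf φ φ := by linarith [P.q_pos]
  have hβ : 0 < -hf ρ ρ := by linarith [P.β_pos]
  have hA : 0 ≤ dir φ φ := by
    unfold dir
    exact integral_nonneg fun x => sum_nonneg fun i _ => real_inner_self_nonneg
  set F := ip φ φ with hFdef
  set Ph := B0 ^ 2 * vr (sr ψ) with hPh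
  set Dd := 3 * (B * B) * vr (sr ψ) with hDd
  set E := Ph + 2 * F with hE
  set Pl := ip ψ ψ with hPl
  have hPlpos : 0 < Pl := P.ψ_pos
  have hv3 := vr_nonneg (sr ψ)
  have hPh0 : 0 ≤ Ph := by positivity
  have hDd0 : 0 ≤ Dd := by positivity
  have hE0 : 0 ≤ E := by positivity
  set Cc := Real.sqrt (E / Pl) with hCc
  set R := Real.sqrt (E / F) + 1 with hR
  set C₁ := (B * E + ν₀ * (Cc * Dd)) / Pl with hC₁
  have hC₁0 : 0 ≤ C₁ := by positivity
  set T := min 1 (1 / (2 * (C₁ + 1))) with hT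
  have hTpos : 0 < T := lt_min one_pos (by positivity)
  have hT1 : T ≤ 1 := min_le_left _ _
  have hCT : C₁ * T ≤ 1 / 2 := by
    have h1 : T ≤ 1 / (2 * (C₁ + 1)) := min_le_right _ _
    have h2 : C₁ * T ≤ C₁ * (1 / (2 * (C₁ + 1))) := mul_le_mul_of_nonneg_left h1 hC₁0
    refine h2.trans ?_
    rw [mul_one_div, div_le_div_iff₀ (by positivity) (by norm_num)]
    linarith
  have hR1 : 1 ≤ R := by
    have := Real.sqrt_nonneg (E / F)
    linarith
  have hRE : E ≤ F * R ^ 2 := by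
    have h1 : Real.sqrt (E / F) ^ 2 = E / F := Real.sq_sqrt (by positivity)
    have h2 : E / F ≤ R ^ 2 := by
      rw [← h1]
      exact pow_le_pow_left₀ (Real.sqrt_nonneg _) (by linarith) 2
    rw [div_le_iff₀ hF] at h2
    linarith
  have hCcE : E ≤ Cc ^ 2 * Pl := by
    rw [hCc, Real.sq_sqrt (by positivity), div_mul_cancel₀ _ hPlpos.ne']
  have hpar := ev_par (γ := -hf φ φ / F) (m := ν₀ * dir φ φ / F) (s₁ := -hf ρ ρ / (4 * F))
    (s₂ := 9 * -hf ρ ρ / (4 * F)) (k := 9 * -hf ρ ρ / (4 * -hf φ φ)) (R := R) (T := T)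
    (by positivity) (by positivity) (by positivity) (by positivity) (by positivity) hR1 hTpos
  have hc8 := ev_c8 (γ := -hf φ φ / F) (by positivity)
  obtain ⟨lam, S, ⟨hb0, hb⟩, Pr, hlam1, hhalf, hc8, htail⟩ := (ev_scl.and (hev.and (hpar.and
    ((eventually_ge_atTop 1).and (ev_halfE.and (hc8.and (ev_tail P))))))).exists
  set d := dd φ lam with hd
  have hPT := PP_TF P S
  have hPh' : ip (PP ψ ρ (MM lam) (EE lam)) (PP ψ ρ (MM lam) (EE lam)) ≤ Ph := by
    refine (le_abs_self _).trans ?_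
    unfold ip
    refine int_le_vr (fun x _ => ?_) (fun x hx => by rw [PP_zero P S x hx]; simp)
    rw [real_inner_self_eq_norm_sq, abs_of_nonneg (sq_nonneg _)]
    exact pow_le_pow_left₀ (norm_nonneg _) (hb0 x) 2
  have hDd' : |dir (PP ψ ρ (MM lam) (EE lam)) (PP ψ ρ (MM lam) (EE lam))| ≤ Dd :=
    dir_diff_le hb hb (fun x hx => fderiv_zero_of (PP_zero P S) x hx)
  have hd0 : 0 ≤ d := by
    have := gg_pos (γ := -hf φ φ / ip φ φ) (by positivity) lam 0
    rw [hd]; unfold dd δ; positivity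
  have hd1 : d ≤ 1 := by
    have h1 := Pr.c4' 0
    have h2 := Pr.r_le 0
    have h3 : d = δ (gg (-hf φ φ / F) lam) 0 := rfl
    linarith
  refine ⟨T, lam, R, fun ν hν hνν => ⟨P, S, hlam1, hhalf, hν, hTpos, hT1, hR1,
    Pr.mono_μ (fun n => ?_) (fun n => ?_) (by linarith) (fun n => ?_) (fun n => ?_) (fun n => ?_),
    hc8, fun T' u hT'0 hT' hu => ?_⟩, u00_diff P S hd0 hd1 htail⟩
  · unfold muu
    refine mul_le_mul_of_nonneg_right ?_ (Real.exp_pos _).le
    exact div_le_div_of_nonneg_right (mul_le_mul_of_nonneg_right hνν hA) hF.le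
  · unfold muu
    refine mul_le_mul_of_nonneg_left (Real.exp_le_exp.mpr ?_) (by positivity)
    have := LL_mono (by linarith : (0 : ℝ) ≤ lam) (Nat.le_succ n)
    linarith
  · have h1 := Pr.Λ_ge n
    have h2 := Pr.r_pos n
    have h3 := gg_pos (γ := -hf φ φ / ip φ φ) (by positivity) lam n
    unfold D; positivity
  · have := EE_pos lam n
    unfold ss; positivity
  · exact gg_pos (γ := -hf φ φ / ip φ φ) (by positivity) lam n
  have hEn : ∀ n, En φ ψ ρ (MM lam) (EE lam) (u 0) n ≤ E := by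
    intro n
    rw [hu.init]
    exact u00_En P S hd0 hd1 hPh' n
  have hCT' : (B * E + ν * (Cc * Dd)) / Pl * T' ≤ 1 / 2 := by
    have h1 : (B * E + ν * (Cc * Dd)) / Pl ≤ C₁ := by
      refine div_le_div_of_nonneg_right ?_ hPlpos.le
      have h2 : 0 ≤ Cc * Dd := by positivity
      have h3 := mul_le_mul_of_nonneg_right hνν h2
      linarith
    exact ((mul_le_mul_of_nonneg_right h1 hT'0).trans (mul_le_mul_of_nonneg_left hT' hC₁0)).trans hCT
  exact shell_of_sol P S hν hT'0 (hT'.trans hT1) hu hEn hE0 hPlpos (PP_pos P S) hb hDd'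
    (Real.sqrt_nonneg _) hCcE hR1 hRE (by rw [hu.init]; exact u00_cf P S d) hCT'

section

variable {φ ρ ψ : V → V} {x₁ : V} {ν T lam R : ℝ}

theorem Good.u0_af (G : Good φ ρ ψ x₁ ν T lam R) {T' : ℝ} {u : ℝ → V → V}
    (hu : GSol ν (Fam φ ψ ρ (MM lam) (EE lam)) (u00 φ ψ ρ lam (dd φ lam)) T' u) (n : ℕ) :
    af φ (MM lam) (u 0) n = if n = 0 then 1 else if n = 1 then dd φ lam else 0 := by
  rw [hu.init, u00_af G.P G.S]

theorem W_eq (φ : V → V) (lam c : ℝ) (u : ℝ → V → V) (n : ℕ) (t : ℝ) :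
    W (gg c lam) (fun n t => af φ (MM lam) (u t) n) n t = c * Wf φ (MM lam) (u t) n := by
  unfold W Wf gg
  rw [mul_sum]
  refine sum_congr rfl fun m _ => ?_
  rw [MM_pow]
  have : ((5 : ℕ) : ℝ) * LL lam m / 2 = 5 / 2 * LL lam m := by push_cast; ring
  rw [this]; ring

theorem rad_exp (lam : ℝ) (n : ℕ) : rad (MM lam) n = (Real.exp (LL lam n))⁻¹ := by
  unfold rad
  rw [MM_pow, one_div]
  congr 2
  push_cast; ring

/-- the strain of a solution with bounded velocity -/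
theorem Good.W_bound (G : Good φ ρ ψ x₁ ν T lam R) {u : ℝ → V → V} {t C : ℝ}
    (hX : InX (Fam φ ψ ρ (MM lam) (EE lam)) (u t)) (hC : ∀ x, ‖u t x‖ ≤ C) (n : ℕ) :
    |W (gg (-hf φ φ / ip φ φ) lam) (fun n t => af φ (MM lam) (u t) n) n t|
      ≤ (-hf φ φ / ip φ φ * C) * Real.exp (LL lam n) := by
  have hF := φ_pos G.P
  have hq : 0 < -hf φ φ := by linarith [G.P.q_pos]
  have h1 := W_vel G.P G.S hX hC n
  rw [rad_exp, ← div_eq_mul_inv, div_le_iff₀ (Real.exp_pos _)] at h1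
  rw [W_eq, abs_mul, abs_of_pos (by positivity), mul_assoc]
  exact mul_le_mul_of_nonneg_left h1 (by positivity)

/-- nonexistence at time `T` -/
theorem Good.no_sol (G : Good φ ρ ψ x₁ ν T lam R) (u : ℝ → V → V)
    (hu : GSol ν (Fam φ ψ ρ (MM lam) (EE lam)) (u00 φ ψ ρ lam (dd φ lam)) T u) : False := by
  have hsh := G.shell T u G.T_pos.le le_rfl hu
  have hF := φ_pos G.P
  have hq : 0 < -hf φ φ := by linarith [G.P.q_pos]
  refine cascade hsh G.par ?_ ?_ ?_ ?_
  · show rr 0 ≤ af φ (MM lam) (u 0) 0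
    rw [G.u0_af hu]
    simp [rr]
  · show af φ (MM lam) (u 0) 1 = _
    rw [G.u0_af hu, if_neg one_ne_zero, if_pos rfl]
    rfl
  · intro n hn
    show af φ (MM lam) (u 0) n = 0
    rw [G.u0_af hu, if_neg (by omega), if_neg (by omega)]
  · obtain ⟨C, hC⟩ := hu.bdd
    have hC0 : 0 ≤ C := (norm_nonneg _).trans (hC 0 ⟨le_rfl, G.T_pos.le⟩ 0)
    obtain ⟨n, hn⟩ := G.c8 (2 * (-hf φ φ / ip φ φ * C))
    refine ⟨n, fun t ht => ?_⟩
    have h1 := G.W_bound (hu.mem t ht) (hC t ht) n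
    have h2 := G.W_bound (hu.mem t ht) (hC t ht) (n + 1)
    have h3 : Real.exp (LL lam n) ≤ Real.exp (LL lam (n + 1)) :=
      Real.exp_le_exp.mpr (LL_mono (by linarith [G.one]) (Nat.le_succ n))
    have h4 := mul_le_mul_of_nonneg_left h3 (by positivity : 0 ≤ -hf φ φ / ip φ φ * C)
    linarith

theorem dir_φ_pos (P : Prof φ ρ ψ x₁) : 0 < dir φ φ := by
  rcases (dir_self_nonneg φ).lt_or_eq with h | h
  · exact h
  exfalso
  have hc := P.φT.contd
  have hzero : ∀ x, fderiv ℝ φ x = 0 := by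
    by_contra hcon
    push Not at hcon
    obtain ⟨x, hx⟩ := hcon
    have hne : ∃ i, fderiv ℝ φ x (ev i) ≠ 0 := by
      by_contra hall
      push Not at hall
      apply hx
      ext1 y
      have hy : y = ∑ i, y i • ev i := by
        ext j
        fin_cases j <;> simp [ev, Fin.sum_univ_three]
      rw [hy, map_sum]
      simp [hall]
    obtain ⟨i, hi⟩ := hne
    have hpos : 0 < dir φ φ := by
      unfold dir
      have hcs : HasCompactSupport fun x => ∑ i, ⟪fderiv ℝ φ x (ev i), fderiv ℝ φ x (ev i)⟫ := by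
        obtain ⟨r, hr⟩ := P.φT.out
        exact HasCompactSupport.intro (isCompact_closedBall (0 : V) r) fun x hx => by
          simp [(hr x (by simpa using hx)).2]
      refine Continuous.integral_pos_of_hasCompactSupport_nonneg_nonzero (by fun_prop) hcs
        (fun x => Finset.sum_nonneg fun i _ => real_inner_self_nonneg) (x := x) ?_
      refine (Finset.sum_pos' (fun i _ => real_inner_self_nonneg) ⟨i, Finset.mem_univ i, ?_⟩).ne'
      exact real_inner_self_pos.mpr hi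
    linarith
  have hconst : ∀ x, φ x = 0 := by
    intro x
    have h1 := is_const_of_fderiv_eq_zero P.φT.diff hzero x (EuclideanSpace.single 0 1 : V)
    rw [h1]
    refine P.φ0 _ ?_
    simp
    norm_num
  have h3 := P.q_pos
  unfold hf at h3
  simp [hconst] at h3

theorem Good.M1 (G : Good φ ρ ψ x₁ ν T lam R) (n : ℕ) : 1 ≤ MM lam n := by
  unfold MM
  refine Real.one_le_exp ?_
  have := LL_ge (by linarith [G.one] : (0 : ℝ) ≤ lam) n
  linarith [G.one]

theorem Good.Wt (G : Good φ ρ ψ x₁ ν T lam R) : Wt (MM lam) (bb lam) where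
  pos := bb_pos lam
  summ := bb_summable G.one

/-- the strain is dominated by the viscosity in the scales beyond `n₀` -/
def Dom (φ : V → V) (ν lam : ℝ) (n₀ : ℕ) (T' : ℝ) (u : ℝ → V → V) : Prop :=
  ∀ t ∈ Icc 0 T', ∀ n ≥ n₀, W (gg (-hf φ φ / ip φ φ) lam)
    (fun n t => af φ (MM lam) (u t) n) n t ≤ muu (ν * dir φ φ / ip φ φ) lam n

theorem Good.dom_vel (G : Good φ ρ ψ x₁ ν T lam R) {C : ℝ} (hC0 : 0 ≤ C) :
    ∃ n₀ : ℕ, ∀ (T' : ℝ) (u : ℝ → V → V), (∀ t ∈ Set.Icc 0 T', InX (Fam φ ψ ρ (MM lam) (EE lam)) (u t)) →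
      (∀ t ∈ Set.Icc 0 T', ∀ x, ‖u t x‖ ≤ C) → Dom φ ν lam n₀ T' u := by
  have hF := φ_pos G.P
  have hq : 0 < -hf φ φ := by linarith [G.P.q_pos]
  have hA := dir_φ_pos G.P
  have hν := G.ν_pos
  have hdom : ∃ n₀, ∀ n ≥ n₀, (-hf φ φ / ip φ φ * C) * Real.exp (LL lam n)
      ≤ muu (ν * dir φ φ / ip φ φ) lam n := by
    have h1 : ∀ᶠ n in atTop, (-hf φ φ / ip φ φ * C) / (ν * dir φ φ / ip φ φ) ≤ LL lam n :=
      (LL_tendsto G.one).eventually_ge_atTop _
    obtain ⟨n₀, hn₀⟩ := eventually_atTop.mp h1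
    refine ⟨n₀, fun n hn => ?_⟩
    have h2 := hn₀ n hn
    rw [div_le_iff₀ (by positivity)] at h2
    have h3 := Real.add_one_le_exp (LL lam n)
    have h4 : Real.exp (2 * LL lam n) = Real.exp (LL lam n) * Real.exp (LL lam n) := by
      rw [← Real.exp_add]; congr 1; ring
    unfold muu
    rw [h4]
    have h5 : -hf φ φ / ip φ φ * C ≤ ν * dir φ φ / ip φ φ * Real.exp (LL lam n) := by
      have h6 : LL lam n * (ν * dir φ φ / ip φ φ)
          ≤ Real.exp (LL lam n) * (ν * dir φ φ / ip φ φ) :=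
        mul_le_mul_of_nonneg_right (by linarith) (by positivity)
      linarith
    have h7 := mul_le_mul_of_nonneg_right h5 (Real.exp_pos (LL lam n)).le
    linarith
  obtain ⟨n₀, hn₀⟩ := hdom
  exact ⟨n₀, fun T' u hX hvel t ht n hn =>
    (le_abs_self _).trans ((G.W_bound (hX t ht) (hvel t ht) n).trans (hn₀ n hn))⟩

/-- decay of the coefficients, with a constant depending only on the domination scale -/
theorem Good.decay0 (G : Good φ ρ ψ x₁ ν T lam R) (n₀ : ℕ) :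
    ∃ A : ℝ, 0 < A ∧ ∀ T' u, 0 ≤ T' → T' ≤ T →
      GSol ν (Fam φ ψ ρ (MM lam) (EE lam)) (u00 φ ψ ρ lam (dd φ lam)) T' u →
      Dom φ ν lam n₀ T' u → ∀ t ∈ Icc 0 T', ∀ k, |co φ ψ ρ lam (u t) k| ≤ A := by
  have hF := φ_pos G.P
  have hq : 0 < -hf φ φ := by linarith [G.P.q_pos]
  have hβ : 0 < -hf ρ ρ := by linarith [G.P.β_pos]
  have hA := dir_φ_pos G.P
  have hν := G.ν_pos
  set Cη := Ceta (-hf φ φ / ip φ φ) R (9 * -hf ρ ρ / (4 * ip φ φ)) (9 * -hf ρ ρ / (4 * -hf φ φ))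
    with hCη
  have hR := G.R_ge
  have hCη0 : 0 ≤ Cη := by rw [hCη]; unfold Ceta; positivity
  set K5 := ∑' n, MM lam n ^ 5 * bb lam n with hK5
  have hK50 : 0 ≤ K5 := tsum_nonneg fun n => by
    have := MM_pos lam n; have := bb_pos lam n; positivity
  have hK5' : ∀ n, MM lam n ^ 5 * bb lam n ≤ K5 := fun n =>
    (bb_summable G.one 5).le_tsum n (fun j _ => by
      have := MM_pos lam j; have := bb_pos lam j; positivity)
  set X := 4 * Cη * K5 with hX
  have hX0 : 0 ≤ X := by positivity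
  set N := n₀ + 1 with hN
  have hbN := bb_pos lam N
  refine ⟨Real.sqrt X + R / bb lam N + 3 / 2, by positivity, fun T' u hT'0 hT' hu hdom t ht k => ?_⟩
  have hsh := G.shell T' u hT'0 hT' hu
  have hs0 := Real.sqrt_nonneg X
  have hRb : 0 ≤ R / bb lam N := by positivity
  cases k with
  | zero =>
    -- the pump
    have h1 := hsh.κ_hi 0 t ht
    unfold kk at h1
    have hE := EE_pos lam 0
    have h2 : cf ψ ρ (MM lam) (EE lam) (u t) ^ 2 ≤ 9 / 4 := by
      have h3 : (-hf ρ ρ / -hf φ φ * EE lam 0) * cf ψ ρ (MM lam) (EE lam) (u t) ^ 2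
          ≤ (-hf ρ ρ / -hf φ φ * EE lam 0) * (9 / 4) := by
        calc _ = -hf ρ ρ / -hf φ φ * (cf ψ ρ (MM lam) (EE lam) (u t) ^ 2 * EE lam 0) := by ring
          _ ≤ _ := h1
          _ = _ := by
            generalize -hf φ φ = q at hq ⊢
            field_simp
      exact le_of_mul_le_mul_left h3 (by positivity)
    have h3 : |cf ψ ρ (MM lam) (EE lam) (u t)| ≤ 3 / 2 := by
      refine abs_le.mpr (abs_le_of_sq_le_sq' ?_ (by norm_num))
      linarith
    show |cf ψ ρ (MM lam) (EE lam) (u t)| ≤ _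
    linarith
  | succ n =>
    have hbn := bb_pos lam n
    show |af φ (MM lam) (u t) n / bb lam n| ≤ _
    rw [abs_div, abs_of_pos hbn, div_le_iff₀ hbn]
    rcases Nat.lt_or_ge n (N + 1) with hn | hn
    · have h1 := hsh.a_bdd n t ht
      have h2 : bb lam N ≤ bb lam n := bb_anti (by linarith [G.one]) (by omega)
      have h3 : R ≤ R / bb lam N * bb lam n := by
        rw [div_mul_eq_mul_div, le_div_iff₀ hbN]
        exact mul_le_mul_of_nonneg_left h2 (by linarith)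
      have h4 : 0 ≤ (Real.sqrt X + 3 / 2) * bb lam n := by positivity
      calc |af φ (MM lam) (u t) n| ≤ R := h1
        _ ≤ R / bb lam N * bb lam n := h3
        _ ≤ _ := by linarith
    · obtain ⟨m, rfl⟩ : ∃ m, n = m + 1 := ⟨n - 1, by omega⟩
      have h1 := hsh.tail4 (n := m) (fun l hl => by
          show af φ (MM lam) (u 0) l = 0
          rw [G.u0_af hu, if_neg (by omega), if_neg (by omega)]) (G.par.hη m) (G.par.hη' m)
          (fun t ht => hdom t ht (m + 1) (by omega))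
          (fun l hl => by
            unfold muu
            refine mul_le_mul_of_nonneg_left (Real.exp_le_exp.mpr ?_) (by positivity)
            have := LL_mono (by linarith [G.one] : (0 : ℝ) ≤ lam) hl
            linarith) ht
      have h2 := hsh.rec_e m t ht
      have h3 := hsh.κ_nonneg (m + 1) t ht
      have h4 := hsh.e_nonneg (m + 1) t ht
      have h5 : af φ (MM lam) (u t) (m + 1) ^ 2 ≤ X * bb lam (m + 1) ^ 2 := by
        have h6 : af φ (MM lam) (u t) (m + 1) ^ 2 ≤ 2 * etaa Cη lam m := by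
          have : af φ (MM lam) (u t) (m + 1) ^ 2 ≤ tt φ ψ ρ (MM lam) (EE lam) (u t) (m + 1) / -hf φ φ := by
            have h7 : (fun n t => af φ (MM lam) (u t) n) (m + 1) t ^ 2
              = af φ (MM lam) (u t) (m + 1) ^ 2 := rfl
            rw [h7] at h2
            linarith
          exact this.trans h1
        refine h6.trans ?_
        unfold etaa
        have h8 : Real.exp (5 / 2 * LL lam (m + 1)) = MM lam (m + 1) ^ 5 := by
          rw [MM_pow]; congr 1; push_cast; ring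
        rw [h8, EE_eq]
        have h9 : MM lam (m + 1) ^ 5 * bb lam (m + 1) ^ 4 ≤ K5 * bb lam (m + 1) ^ 2 := by
          have h10 : bb lam (m + 1) ^ 3 ≤ bb lam (m + 1) ^ 2 :=
            pow_le_pow_of_le_one hbn.le (bb_le_one lam _) (by norm_num)
          calc MM lam (m + 1) ^ 5 * bb lam (m + 1) ^ 4
              = (MM lam (m + 1) ^ 5 * bb lam (m + 1)) * bb lam (m + 1) ^ 3 := by ring
            _ ≤ K5 * bb lam (m + 1) ^ 2 :=
                mul_le_mul (hK5' (m + 1)) h10 (by positivity) hK50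
        calc 2 * (2 * Cη * (MM lam (m + 1) ^ 5 * bb lam (m + 1) ^ 4))
            ≤ 2 * (2 * Cη * (K5 * bb lam (m + 1) ^ 2)) :=
              mul_le_mul_of_nonneg_left (mul_le_mul_of_nonneg_left h9 (by positivity)) (by norm_num)
          _ = X * bb lam (m + 1) ^ 2 := by rw [hX]; ring
      have h6 : |af φ (MM lam) (u t) (m + 1)| ≤ Real.sqrt X * bb lam (m + 1) := by
        refine abs_le_of_sq_le_sq ?_ (by positivity)
        rw [mul_pow, Real.sq_sqrt hX0]
        exact h5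
      have h7 : 0 ≤ (R / bb lam N + 3 / 2) * bb lam (m + 1) := by positivity
      calc |af φ (MM lam) (u t) (m + 1)| ≤ Real.sqrt X * bb lam (m + 1) := h6
        _ ≤ _ := by linarith

/-- decay of the coefficients, with a constant depending only on the velocity bound -/
theorem Good.decay (G : Good φ ρ ψ x₁ ν T lam R) {C : ℝ} (hC0 : 0 ≤ C) :
    ∃ A : ℝ, 0 < A ∧ ∀ T' u, 0 ≤ T' → T' ≤ T →
      GSol ν (Fam φ ψ ρ (MM lam) (EE lam)) (u00 φ ψ ρ lam (dd φ lam)) T' u →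
      (∀ t ∈ Icc 0 T', ∀ x, ‖u t x‖ ≤ C) →
      ∀ t ∈ Icc 0 T', ∀ k, |co φ ψ ρ lam (u t) k| ≤ A := by
  obtain ⟨n₀, hn₀⟩ := G.dom_vel hC0
  obtain ⟨A, hA0, hA⟩ := G.decay0 n₀
  exact ⟨A, hA0, fun T' u h0 hT' hu hvel => hA T' u h0 hT' hu (hn₀ T' u hu.mem hvel)⟩

end

end Pool.Agent.H402AX
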