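import Mathlib
import Pool.Agent.H402AX.Blow

/-! Energy identity, boundedness away from the origin. -/

open Set MeasureTheory Filter Topology Finset
open scoped RealInnerProductSpace ContDiff

namespace Pool.Agent.H402AX

section stat

variable {φ ρ ψ : V → V} {x₁ : V} {M ε : ℕ → ℝ}

theorem ip_v_un (P : Prof φ ρ ψ x₁) (S : Scl M ε) {v : V → V} (hv : TF v) (n : ℕ) :
    ip v (un φ ψ ρ M ε v n) = ip (un φ ψ ρ M ε v n) (un φ ψ ρ M ε v n) := by
  have hP := PP_TF P S
  have hF := φ_pos P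
  have hPp := PP_ip_pos P S
  have e0 : ∀ n, ip v (sm φ M v n) = ip φ φ * ∑ m ∈ range n, af φ M v m ^ 2 := by
    intro n
    unfold sm
    rw [cip_sum hv.cont (fun m _ => (φT P S m).CC.smul _), mul_sum]
    refine sum_congr rfl fun m _ => ?_
    rw [ip_smul_right]
    have : ip v (sc (M m) φ) = af φ M v m * ip φ φ := by
      unfold af; rw [div_mul_cancel₀ _ hF.ne']
    rw [this]; ring
  rw [ip_un P S]
  unfold un
  rw [cip_add hv.cont (hP.smul _).CC (sm_TF P S v n).CC, ip_smul_right, e0 n]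
  have : ip v (PP ψ ρ M ε) = cf ψ ρ M ε v * ip (PP ψ ρ M ε) (PP ψ ρ M ε) := by
    unfold cf; rw [div_mul_cancel₀ _ hPp.ne']
  rw [this]; ring

theorem un_le_ip (P : Prof φ ρ ψ x₁) (S : Scl M ε) {v : V → V} (hv : TF v) (n : ℕ) :
    ip (un φ ψ ρ M ε v n) (un φ ψ ρ M ε v n) ≤ ip v v := by
  have hU := un_TF (ψ := ψ) (ρ := ρ) (ε := ε) P S v n
  have h1 := ip_v_un P S hv n
  set U := un φ ψ ρ M ε v n
  have h2 := ip_self_nonneg (v - U)
  have h3 : ip (v - U) (v - U) = ip v v - ip v U - (ip v U - ip U U) := by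
    rw [ip_sub_left hv.cont hU.cont (hv.sub hU), ip_comm v (v - U), ip_comm U (v - U),
      ip_sub_left hv.cont hU.cont hv, ip_sub_left hv.cont hU.cont hU, ip_comm U v]
  rw [h3, h1] at h2
  linarith

theorem dir_un (P : Prof φ ρ ψ x₁) (S : Scl M ε) {v : V → V} (hv : TF v) (n : ℕ) :
    cf ψ ρ M ε v * dir v (PP ψ ρ M ε) + ∑ m ∈ range n, af φ M v m * dir v (sc (M m) φ)
      = dir v (un φ ψ ρ M ε v n) := by
  have hP := PP_TF P S
  have e1 : ∀ n, ∑ m ∈ range n, af φ M v m * dir v (sc (M m) φ) = dir v (sm φ M v n) := by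
    intro n
    induction n with
    | zero => unfold sm; simp [dir_zero_right]
    | succ n ih =>
      have h1 : sm φ M v (n + 1) = sm φ M v n + af φ M v n • sc (M n) φ := by
        unfold sm; rw [sum_range_succ]
      rw [sum_range_succ, ih, h1, dir_add_right hv.contd (sm_TF P S v n) ((φT P S n).smul _),
        dir_smul_right _ (φT P S n)]
  rw [e1 n]
  unfold un
  rw [dir_add_right hv.contd (hP.smul _) (sm_TF P S v n), dir_smul_right _ hP]

end stat

section

variable {φ ρ ψ : V → V} {x₁ : V} {ν T lam R : ℝ}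

theorem Good.grad_bdd (G : Good φ ρ ψ x₁ ν T lam R) {T' : ℝ} {u : ℝ → V → V} (h0 : 0 ≤ T')
    (hT' : T' ≤ T)
    (hu : GSol ν (Fam φ ψ ρ (MM lam) (EE lam)) (u00 φ ψ ρ lam (dd φ lam)) T' u) :
    ∃ C, 0 ≤ C ∧ ∀ t ∈ Icc 0 T', (∀ x, ‖u t x‖ ≤ C) ∧ (∀ x, ‖fderiv ℝ (u t) x‖ ≤ C) ∧
      |cf ψ ρ (MM lam) (EE lam) (u t)| ≤ C := by
  obtain ⟨C, hC⟩ := hu.bdd
  obtain ⟨A, hA0, hA⟩ := G.decay (le_max_right C 0)
  have hA' := hA T' u h0 hT' hu (fun t ht x => (hC t ht x).trans (le_max_left _ _))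
  have P := G.P
  have S := G.S
  have hPT := PP_TF P S
  obtain ⟨B1, hB1, hB1'⟩ := cs_bound hPT.contd (R := sr ψ)
    (fun x hx => fderiv_zero_of (PP_zero P S) x hx)
  obtain ⟨K, hK0, hK⟩ := SS_bound P S G.M1 G.Wt
  refine ⟨max (max C (A * B1 + A * K)) A, le_max_of_le_right hA0.le, fun t ht =>
    ⟨fun x => (hC t ht x).trans ((le_max_left _ _).trans (le_max_left _ _)), fun x => ?_,
      (hA' t ht 0).trans (le_max_right _ _)⟩⟩
  have hα : ∀ n, |af φ (MM lam) (u t) n| ≤ A * bb lam n := by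
    intro n
    have h1 : |af φ (MM lam) (u t) n / bb lam n| ≤ A := hA' t ht (n + 1)
    rwa [abs_div, abs_of_pos (bb_pos lam n), div_le_iff₀ (bb_pos lam n)] at h1
  have h1 := eq_Uf P S G.Wt (hu.mem t ht) hα
  have h2 := (hK _ A hA0.le hα x).2
  have hST := SS_TF P S G.Wt hα
  refine le_trans ?_ ((le_max_right _ _).trans (le_max_left _ _))
  rw [h1]
  unfold Uf
  rw [fderiv_add ((hPT.smul _).diff x) (hST.diff x), fderiv_const_smul (hPT.diff x)]
  refine (norm_add_le _ _).trans (add_le_add ?_ h2)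
  rw [norm_smul, Real.norm_eq_abs]
  exact mul_le_mul (hA' t ht 0) (hB1' x) (norm_nonneg _) hA0.le

/-- the energy identity -/
theorem Good.energy (G : Good φ ρ ψ x₁ ν T lam R) {T' : ℝ} {u : ℝ → V → V} (h0 : 0 ≤ T')
    (hT' : T' ≤ T)
    (hu : GSol ν (Fam φ ψ ρ (MM lam) (EE lam)) (u00 φ ψ ρ lam (dd φ lam)) T' u) {t : ℝ}
    (ht : t ∈ Icc 0 T') :
    ip (u t) (u t) + 2 * ν * ∫ s in (0)..t, dir (u s) (u s)
      = ip (u00 φ ψ ρ lam (dd φ lam)) (u00 φ ψ ρ lam (dd φ lam)) := by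
  obtain ⟨C, hC0, hC⟩ := G.grad_bdd h0 hT' hu
  have P := G.P
  have S := G.S
  have hν := G.ν_pos
  have hPT := PP_TF P S
  obtain ⟨B, hB0, hB⟩ := cs_bound hPT.contd (R := sr ψ)
    (fun x hx => fderiv_zero_of (PP_zero P S) x hx)
  set K := C + C * B + C * ‖HH‖ with hKdef
  have hK0 : 0 ≤ K := by positivity
  set U : ℕ → ℝ → V → V := fun n t => un φ ψ ρ (MM lam) (EE lam) (u t) n with hU
  have hUT : ∀ n t, TF (U n t) := fun n t => un_TF P S _ _
  have hDg : ∀ n, ∀ t ∈ Icc 0 T', ∀ x, ‖fderiv ℝ (u t - U n t) x‖ ≤ K := by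
    intro n t ht x
    refine (grad_diff P S (hu.mem t ht) (hC t ht).2.1 hB n x).trans ?_
    have := mul_le_mul_of_nonneg_right (hC t ht).2.2 hB0
    linarith
  have hDz : ∀ n, ∀ t ∈ Icc 0 T', ∀ x, rad (MM lam) n < ‖x‖ → fderiv ℝ (u t - U n t) x = 0 := by
    intro n t ht x hx
    exact fderiv_zero_of (diff_small P S (hu.mem t ht) n) x (by linarith [S.rad_pos n])
  -- comparison of the dissipation
  have hdir : ∀ n, ∀ t ∈ Icc 0 T', |dir (u t) (u t) - dir (u t) (U n t)|
      ≤ 3 * (C * K) * vr (rad (MM lam) n) := by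
    intro n t ht
    have hv := (hu.mem t ht).1
    have e1 : dir (u t) (u t) = dir (u t) (U n t) + dir (u t) (u t - U n t) := by
      rw [← dir_add_right hv.contd (hUT n t) (hv.sub (hUT n t))]
      congr 1; abel
    rw [e1, add_sub_cancel_left]
    exact dir_diff_le (hC t ht).2.1 (hDg n t ht) (hDz n t ht)
  have htri : ∀ n, ∀ t ∈ Icc 0 T', |tri (u t) (U n t) (u t)| ≤ C ^ 2 * K * vr (rad (MM lam) n) := by
    intro n t ht
    have hv := (hu.mem t ht).1
    have e1 : tri (u t) (u t) (u t) = tri (u t) (U n t) (u t) + tri (u t) (u t - U n t) (u t) := by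
      rw [← tri_add_mid hv.cont (hUT n t) (hv.sub (hUT n t)) hv.cont]
      congr 1; abel
    have e2 : tri (u t) (u t) (u t) = 0 := tri_self hv hv.cd hv.dv
    have e3 : tri (u t) (U n t) (u t) = -tri (u t) (u t - U n t) (u t) := by linarith
    rw [e3, abs_neg]
    exact tri_diff_le (hC t ht).1 (hDg n t ht) (hDz n t ht)
  -- continuity of the dissipation
  have hDn : ∀ n, ContinuousOn (fun t => dir (u t) (U n t)) (Icc 0 T') := by
    intro n
    have e1 : EqOn (fun t => dir (u t) (U n t))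
        (fun t => cf ψ ρ (MM lam) (EE lam) (u t) ^ 2
            * dir (PP ψ ρ (MM lam) (EE lam)) (PP ψ ρ (MM lam) (EE lam))
          + ∑ m ∈ range n, af φ (MM lam) (u t) m ^ 2 * (MM lam m ^ 4 * dir φ φ)) (Icc 0 T') := by
      intro t ht
      simp only [hU]
      rw [← dir_un P S (hu.mem t ht).1 n, dir_pump P S (hu.mem t ht) (hC t ht).2.1 hB]
      congr 1
      · ring
      · refine sum_congr rfl fun m _ => ?_
        rw [dir_eq P S (hu.mem t ht)]; ring
    refine ContinuousOn.congr ?_ e1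
    have hc : ContinuousOn (fun t => cf ψ ρ (MM lam) (EE lam) (u t)) (Icc 0 T') :=
      fun t ht => (c_deriv hu ht).continuousWithinAt
    have ha : ∀ m, ContinuousOn (fun t => af φ (MM lam) (u t) m) (Icc 0 T') :=
      fun m t ht => (a_deriv hu m ht).continuousWithinAt
    refine ((hc.pow 2).mul_const _).add ?_
    exact continuousOn_finsetSum _ fun m _ => ((ha m).pow 2).mul_const _
  have hvr := vr_rad_tendsto S
  have hDc : ContinuousOn (fun t => dir (u t) (u t)) (Icc 0 T') := by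
    have hlim : TendstoUniformlyOn (fun n t => dir (u t) (U n t)) (fun t => dir (u t) (u t))
        atTop (Icc 0 T') := by
      rw [Metric.tendstoUniformlyOn_iff]
      intro η hη
      have h1 : Tendsto (fun n => 3 * (C * K) * vr (rad (MM lam) n)) atTop (𝓝 0) := by
        simpa using hvr.const_mul (3 * (C * K))
      filter_upwards [h1.eventually (gt_mem_nhds hη)] with n hn t ht
      rw [Real.dist_eq]
      exact (hdir n t ht).trans_lt hn
    exact hlim.continuousOn (Frequently.of_forall hDn)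
  -- a continuous extension of the dissipation
  set D : ℝ → ℝ := fun s => dir (u (max 0 (min T' s))) (u (max 0 (min T' s))) with hD
  have hmm : ∀ s : ℝ, max 0 (min T' s) ∈ Icc 0 T' := fun s =>
    ⟨le_max_left _ _, max_le h0 (min_le_left _ _)⟩
  have hDcont : Continuous D := by
    have h1 : Continuous fun s : ℝ => max 0 (min T' s) := by fun_prop
    exact hDc.comp_continuous h1 hmm
  have hDeq : ∀ s ∈ Icc 0 T', D s = dir (u s) (u s) := by
    intro s hs
    simp only [hD]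
    rw [min_eq_right hs.2, max_eq_right hs.1]
  have hint : ∫ s in (0)..t, dir (u s) (u s) = ∫ s in (0)..t, D s := by
    refine intervalIntegral.integral_congr fun s hs => ?_
    rw [uIcc_of_le ht.1] at hs
    exact (hDeq s ⟨hs.1, hs.2.trans ht.2⟩).symm
  have hI : ∀ t, HasDerivAt (fun t => ∫ s in (0)..t, D s) (D t) t := fun t =>
    intervalIntegral.integral_hasDerivAt_right (hDcont.intervalIntegrable _ _)
      (hDcont.stronglyMeasurableAtFilter _ _) hDcont.continuousAt
  -- the truncated energies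
  have hmain : ∀ n, |ip (u t) (u t) + 2 * ν * (∫ s in (0)..t, D s) - ip (u 0) (u 0)|
      ≤ 0 + (2 * (C ^ 2 * K + ν * (3 * (C * K))) + 2 * C ^ 2) * vr (rad (MM lam) n) := by
    intro n
    set K₂ := 2 * (C ^ 2 * K + ν * (3 * (C * K))) * vr (rad (MM lam) n) with hK₂
    have hvn := vr_nonneg (rad (MM lam) n)
    have hK₂0 : 0 ≤ K₂ := by positivity
    have hd : ∀ t ∈ Icc 0 T', HasDerivWithinAt
        (fun s => En φ ψ ρ (MM lam) (EE lam) (u s) n + 2 * ν * ∫ r in (0)..s, D r)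
        (2 * (tri (u t) (U n t) (u t) - ν * dir (u t) (U n t)) + 2 * ν * D t) (Icc 0 T') t := by
      intro t ht
      have h1 := E_deriv P S hu n ht
      have h2 := ((hI t).const_mul (2 * ν)).hasDerivWithinAt (s := Icc 0 T')
      refine (h1.add h2).congr_deriv ?_
      congr 1
      have h3 := tri_un (ε := EE lam) P S (hu.mem t ht).1 n
      have h4 := dir_un (ε := EE lam) P S (hu.mem t ht).1 n
      simp only [hU]
      rw [← h3, ← h4]
      congr 1
      have h5 : ∑ m ∈ range n, af φ (MM lam) (u t) m *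
            (tri (u t) (sc (MM lam m) φ) (u t) - ν * dir (u t) (sc (MM lam m) φ))
          = ∑ m ∈ range n, af φ (MM lam) (u t) m * tri (u t) (sc (MM lam m) φ) (u t)
            - ν * ∑ m ∈ range n, af φ (MM lam) (u t) m * dir (u t) (sc (MM lam m) φ) := by
        rw [mul_sum, ← sum_sub_distrib]
        refine sum_congr rfl fun m _ => ?_
        ring
      rw [h5]; ring
    have hb : ∀ t ∈ Icc 0 T',
        |2 * (tri (u t) (U n t) (u t) - ν * dir (u t) (U n t)) + 2 * ν * D t| ≤ K₂ := by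
      intro t ht
      have h1 := htri n t ht
      have h2 := hdir n t ht
      rw [hDeq t ht]
      have h3 : 2 * (tri (u t) (U n t) (u t) - ν * dir (u t) (U n t)) + 2 * ν * dir (u t) (u t)
          = 2 * tri (u t) (U n t) (u t) + 2 * ν * (dir (u t) (u t) - dir (u t) (U n t)) := by ring
      rw [h3]
      refine (abs_add_le _ _).trans ?_
      rw [abs_mul, abs_mul (2 * ν), abs_of_pos (by positivity : 0 < 2 * ν), abs_two]
      have h4 := mul_le_mul_of_nonneg_left h2 (by positivity : 0 ≤ 2 * ν)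
      rw [hK₂]
      linarith
    have h00 : (0 : ℝ) ∈ Icc 0 T' := ⟨le_rfl, h0⟩
    have k1 := le_of_deriv_le (s := 0) (t := t) hd
      (fun t _ => hasDerivWithinAt_linear K₂ 0 (Icc 0 T') t)
      (fun t ht => (abs_le.mp (hb t ht)).2) h00 ht ht.1
    have k2 := le_of_deriv_le (s := 0) (t := t)
      (fun t _ => hasDerivWithinAt_linear (-K₂) 0 (Icc 0 T') t) hd
      (fun t ht => (abs_le.mp (hb t ht)).1) h00 ht ht.1
    simp only [intervalIntegral.integral_same, mul_zero, add_zero, sub_zero, sub_self] at k1 k2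
    have hEn : ∀ t ∈ Icc 0 T', En φ ψ ρ (MM lam) (EE lam) (u t) n ≤ ip (u t) (u t) ∧
        ip (u t) (u t) ≤ En φ ψ ρ (MM lam) (EE lam) (u t) n + C ^ 2 * vr (rad (MM lam) n) := by
      intro t ht
      have h1 := un_le_ip (ε := EE lam) P S (hu.mem t ht).1 n
      have h2 := ip_le_un P S (hu.mem t ht) (hC t ht).1 n
      rw [ip_un P S] at h1 h2
      exact ⟨h1, h2⟩
    have h1 := hEn t ht
    have h2 := hEn 0 h00
    have ht1 : t ≤ 1 := ht.2.trans (hT'.trans G.T_le)
    have h3 : K₂ * t ≤ K₂ := mul_le_of_le_one_right hK₂0 ht1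
    have h4 : 0 ≤ C ^ 2 * vr (rad (MM lam) n) := by positivity
    rw [zero_add, add_mul, abs_le]
    constructor
    · nlinarith
    · nlinarith
  have hfin := le_of_vr S hmain
  have hz := sub_eq_zero.mp (abs_eq_zero.mp (le_antisymm hfin (abs_nonneg _)))
  rw [hint, hz, hu.init]

/-- boundedness away from the origin, up to the blow-up time -/
theorem Good.away (G : Good φ ρ ψ x₁ ν T lam R) {δ : ℝ} (hδ : 0 < δ) :
    ∃ C, ∀ T' u, 0 ≤ T' → T' ≤ T →
      GSol ν (Fam φ ψ ρ (MM lam) (EE lam)) (u00 φ ψ ρ lam (dd φ lam)) T' u →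
      ∀ t ∈ Icc 0 T', ∀ x, δ ≤ ‖x‖ → ‖u t x‖ ≤ C := by
  have P := G.P
  have S := G.S
  have hq : 0 < -hf φ φ := by linarith [G.P.q_pos]
  have hβ : 0 < -hf ρ ρ := by linarith [G.P.β_pos]
  have hPT := PP_TF P S
  obtain ⟨B0, hB0, hB0'⟩ := cs_bound hPT.cont (R := sr ψ) (PP_zero P S)
  obtain ⟨b0, hb0, hb0'⟩ := cs_bound P.φT.cont (R := 3 / 4) P.φ0
  obtain ⟨n, hn⟩ := (S.rad_tendsto.eventually (gt_mem_nhds hδ)).exists
  have hR := G.R_ge
  refine ⟨3 / 2 * B0 + ∑ m ∈ range n, R * (MM lam m ^ 3 * b0), fun T' u h0 hT' hu t ht x hx => ?_⟩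
  have hsh := G.shell T' u h0 hT' hu
  have hc : |cf ψ ρ (MM lam) (EE lam) (u t)| ≤ 3 / 2 := by
    have h1 := hsh.κ_hi 0 t ht
    unfold kk at h1
    have hE := EE_pos lam 0
    have h2 : cf ψ ρ (MM lam) (EE lam) (u t) ^ 2 ≤ 9 / 4 := by
      have h3 : (-hf ρ ρ / -hf φ φ * EE lam 0) * cf ψ ρ (MM lam) (EE lam) (u t) ^ 2
          ≤ (-hf ρ ρ / -hf φ φ * EE lam 0) * (9 / 4) := by
        calc _ = -hf ρ ρ / -hf φ φ * (cf ψ ρ (MM lam) (EE lam) (u t) ^ 2 * EE lam 0) := by ring
          _ ≤ _ := h1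
          _ = _ := by
            generalize -hf φ φ = q at hq ⊢
            field_simp
      exact le_of_mul_le_mul_left h3 (by positivity)
    refine abs_le.mpr (abs_le_of_sq_le_sq' ?_ (by norm_num))
    linarith
  rw [rep P S (hu.mem t ht) n x (by linarith [S.rad_pos n])]
  refine (norm_add_le _ _).trans (add_le_add ?_ ?_)
  · rw [norm_smul, Real.norm_eq_abs]
    exact mul_le_mul hc (hB0' x) (norm_nonneg _) (by norm_num)
  · refine (norm_sum_le _ _).trans (sum_le_sum fun m _ => ?_)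
    have hM := MM_pos lam m
    rw [norm_smul, Real.norm_eq_abs]
    unfold sc
    rw [norm_smul, Real.norm_eq_abs, abs_of_pos (show 0 < MM lam m ^ 3 by positivity)]
    exact mul_le_mul (hsh.a_bdd m t ht) (mul_le_mul_of_nonneg_left (hb0' _) (by positivity))
      (by positivity) (by linarith)

end

end Pool.Agent.H402AX
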