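import Mathlib
import Pool.Agent.H402AX.Blow

/-! Blow-up of the norm of `L^q` for `q > 15 / 7`, in particular of the critical norm `L^3`. -/

open Set MeasureTheory Filter Topology Finset
open scoped RealInnerProductSpace ContDiff

namespace Pool.Agent.H402AX

variable {φ ρ ψ : V → V} {x₁ : V} {ν T lam R : ℝ}

theorem af_Lq (P : Prof φ ρ ψ x₁) (lam : ℝ) {q : ℝ} (hq : 1 < q) :
    ∃ K, 0 ≤ K ∧ ∀ v : V → V, Continuous v → HasCompactSupport v → ∀ n,
      |af φ (MM lam) v n| ≤ K * (∫ x, ‖v x‖ ^ q) ^ (1 / q)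
        * Real.exp (-((3 - 6 / q) / 2 * LL lam n)) := by
  have hF := φ_pos P
  have hcj : q.HolderConjugate q.conjExponent := Real.HolderConjugate.conjExponent hq
  set q' := q.conjExponent with hq'
  have hq'0 : 0 < q' := hcj.symm.pos
  have hq0 : 0 < q := by linarith
  have hinv : 1 / q' = 1 - 1 / q := by
    have := hcj.inv_add_inv_eq_one
    rw [one_div, one_div]
    linarith
  set N := ∫ x, ‖φ x‖ ^ q' with hN
  have hN0 : 0 ≤ N := integral_nonneg fun x => Real.rpow_nonneg (norm_nonneg _) _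
  refine ⟨N ^ (1 / q') / ip φ φ, by positivity, fun v hv hvc n => ?_⟩
  have hM := MM_pos lam n
  have hscT : TF (sc (MM lam n) φ) := sc_TF hM P.φT
  have h1 : |ip v (sc (MM lam n) φ)|
      ≤ (∫ x, ‖v x‖ ^ q) ^ (1 / q) * (∫ x, ‖sc (MM lam n) φ x‖ ^ q') ^ (1 / q') := by
    refine le_trans ?_ (integral_mul_le_Lp_mul_Lq_of_nonneg hcj (f := fun x => ‖v x‖)
      (g := fun x => ‖sc (MM lam n) φ x‖) (ae_of_all _ fun x => norm_nonneg _)
      (ae_of_all _ fun x => norm_nonneg _)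
      (hv.norm.memLp_of_hasCompactSupport hvc.norm)
      (hscT.cont.norm.memLp_of_hasCompactSupport hscT.cs.norm))
    unfold ip
    rw [← Real.norm_eq_abs]
    refine (norm_integral_le_integral_norm _).trans ?_
    refine integral_mono (ip_int hv hscT).norm ?_ fun x => ?_
    · obtain ⟨r, hr⟩ := hscT.out
      have := hscT.cont
      exact integrable_of_zero (by fun_prop) (R := r) fun x hx => by simp [(hr x hx).1]
    · rw [Real.norm_eq_abs]
      exact abs_real_inner_le_norm _ _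
  have h2 : ∫ x, ‖sc (MM lam n) φ x‖ ^ q'
      = Real.exp (3 / 2 * LL lam n) ^ q' * Real.exp (-(3 * LL lam n)) * N := by
    have e1 : ∫ x, MM lam n ^ 6 * ‖φ (MM lam n ^ 2 • x)‖ ^ q' = N :=
      int_scale hM (fun x => ‖φ x‖ ^ q')
    rw [integral_const_mul] at e1
    have e2 : MM lam n ^ 6 = Real.exp (3 * LL lam n) := by
      rw [MM_pow]; congr 1; push_cast; ring
    have e3 : MM lam n ^ 3 = Real.exp (3 / 2 * LL lam n) := by
      rw [MM_pow]; congr 1; push_cast; ring
    have e4 : ∀ x, ‖sc (MM lam n) φ x‖ ^ q'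
        = Real.exp (3 / 2 * LL lam n) ^ q' * ‖φ (MM lam n ^ 2 • x)‖ ^ q' := by
      intro x
      unfold sc
      rw [norm_smul, Real.norm_eq_abs, abs_of_pos (by positivity), e3,
        Real.mul_rpow (Real.exp_pos _).le (norm_nonneg _)]
    simp only [e4]
    rw [integral_const_mul, mul_assoc, ← e1, e2, ← mul_assoc (Real.exp (-(3 * LL lam n))),
      ← Real.exp_add, neg_add_cancel, Real.exp_zero, one_mul]
  have h3 : (∫ x, ‖sc (MM lam n) φ x‖ ^ q') ^ (1 / q')
      = Real.exp (-((3 - 6 / q) / 2 * LL lam n)) * N ^ (1 / q') := by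
    rw [h2, Real.mul_rpow (by positivity) hN0]
    congr 1
    rw [← Real.exp_mul, ← Real.exp_add, ← Real.exp_mul]
    congr 1
    have e1 : q' * (1 / q') = 1 := by field_simp
    have e2 : (3 / 2 * LL lam n * q' + -(3 * LL lam n)) * (1 / q')
        = 3 / 2 * LL lam n * (q' * (1 / q')) - 3 * LL lam n * (1 / q') := by ring
    rw [e2, e1, hinv]
    ring
  unfold af
  rw [abs_div, abs_of_pos hF, div_le_iff₀ hF]
  rw [h3] at h1
  refine h1.trans (le_of_eq ?_)
  field_simp

theorem Good.vel_unbdd (G : Good φ ρ ψ x₁ ν T lam R) {Ts : ℝ} {u : ℝ → V → V} (hTs : 0 < Ts)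
    (hsol : ∀ T', 0 ≤ T' → T' < Ts →
      GSol ν (Fam φ ψ ρ (MM lam) (EE lam)) (u00 φ ψ ρ lam (dd φ lam)) T' u)
    (h : ∀ n₀, ∃ t, 0 ≤ t ∧ t < Ts ∧ ∃ n ≥ n₀, muu (ν * dir φ φ / ip φ φ) lam n <
        W (gg (-hf φ φ / ip φ φ) lam) (fun n t => af φ (MM lam) (u t) n) n t) (C : ℝ) :
    ∃ t, 0 ≤ t ∧ t < Ts ∧ ∃ x, C < ‖u t x‖ := by
  by_contra hcon
  push Not at hcon
  have hC0 : 0 ≤ C := (norm_nonneg _).trans (hcon 0 le_rfl hTs 0)
  obtain ⟨n₀, hn₀⟩ := G.dom_vel hC0
  obtain ⟨t, ht0, ht, n, hn, hlt⟩ := h n₀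
  have h1 := hn₀ t u (hsol t ht0 ht).mem
    (fun s hs x => hcon s hs.1 (lt_of_le_of_lt hs.2 ht) x) t ⟨ht0, le_rfl⟩ n hn
  linarith

theorem Good.Lq_unbdd (G : Good φ ρ ψ x₁ ν T lam R) {Ts : ℝ} {u : ℝ → V → V} (hTs : 0 < Ts)
    (hsol : ∀ T', 0 ≤ T' → T' < Ts →
      GSol ν (Fam φ ψ ρ (MM lam) (EE lam)) (u00 φ ψ ρ lam (dd φ lam)) T' u)
    (h : ∀ n₀, ∃ t, 0 ≤ t ∧ t < Ts ∧ ∃ n ≥ n₀, muu (ν * dir φ φ / ip φ φ) lam n <
        W (gg (-hf φ φ / ip φ φ) lam) (fun n t => af φ (MM lam) (u t) n) n t)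
    {q : ℝ} (hq : 15 / 7 < q) (C : ℝ) :
    ∃ t, 0 ≤ t ∧ t < Ts ∧ C < ∫ x, ‖u t x‖ ^ q := by
  by_contra hcon
  push Not at hcon
  have P := G.P
  have hF := φ_pos P
  have hqq : 0 < -hf φ φ := by linarith [G.P.q_pos]
  have hA := dir_φ_pos P
  have hν := G.ν_pos
  have hlam := G.one
  have hC0 : 0 ≤ C := (integral_nonneg fun x => Real.rpow_nonneg (norm_nonneg _) _).trans
    (hcon 0 le_rfl hTs)
  obtain ⟨K, hK0, hK⟩ := af_Lq P lam (q := q) (by linarith)
  set s := 3 - 6 / q with hs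
  have hq0 : 0 < q := by linarith
  have hs1 : 1 / 5 < s := by
    have h1 : 6 / q < 14 / 5 := by
      rw [div_lt_div_iff₀ hq0 (by norm_num)]
      linarith
    linarith
  have hs3 : s < 3 := by
    have : 0 < 6 / q := by positivity
    linarith
  set K' := K * C ^ (1 / q) with hK'
  have hK'0 : 0 ≤ K' := by positivity
  set γ := -hf φ φ / ip φ φ with hγ
  have hγ0 : 0 < γ := by positivity
  set m₀ := ν * dir φ φ / ip φ φ with hm₀
  have hm₀0 : 0 < m₀ := by positivity
  set θ := 5 / 12 * (5 - s) with hθ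
  set η := 2 - θ with hη
  have hη0 : 0 < η := by rw [hη, hθ]; linarith
  -- the coefficients
  have ha : ∀ t, 0 ≤ t → t < Ts → ∀ m, |af φ (MM lam) (u t) m|
      ≤ K' * Real.exp (-(s / 2 * LL lam m)) := by
    intro t ht0 ht m
    have hT := ((hsol t ht0 ht).mem t ⟨ht0, le_rfl⟩).1
    refine (hK _ hT.cont hT.cs m).trans ?_
    refine mul_le_mul_of_nonneg_right ?_ (Real.exp_pos _).le
    refine mul_le_mul_of_nonneg_left ?_ hK0
    exact Real.rpow_le_rpow (integral_nonneg fun x => Real.rpow_nonneg (norm_nonneg _) _)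
      (hcon t ht0 ht) (by positivity)
  -- the strain
  have hWn : ∀ t, 0 ≤ t → t < Ts → ∀ n, W (gg γ lam) (fun n t => af φ (MM lam) (u t) n) n t
      ≤ γ * K' * n * Real.exp (θ * LL lam n) := by
    intro t ht0 ht n
    unfold W
    have h1 : ∀ m ∈ range n, gg γ lam m * af φ (MM lam) (u t) m
        ≤ γ * K' * Real.exp (θ * LL lam n) := by
      intro m hm
      have hmn := mem_range.mp hm
      have h2 : LL lam m ≤ 5 / 6 * LL lam n := by
        have h3 := LL_mono (by linarith : (0 : ℝ) ≤ lam) (Nat.succ_le_of_lt hmn)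
        have h4 := LL_succ lam m
        have h5 : LL lam (m + 1) ≤ LL lam n := h3
        linarith
      have h3 := (le_abs_self _).trans (ha t ht0 ht m)
      unfold gg
      calc γ * Real.exp (5 / 2 * LL lam m) * af φ (MM lam) (u t) m
          ≤ γ * Real.exp (5 / 2 * LL lam m) * (K' * Real.exp (-(s / 2 * LL lam m))) :=
            mul_le_mul_of_nonneg_left h3 (by positivity)
        _ = γ * K' * Real.exp (5 / 2 * LL lam m + -(s / 2 * LL lam m)) := by
            rw [Real.exp_add]; ring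
        _ ≤ γ * K' * Real.exp (θ * LL lam n) := by
            refine mul_le_mul_of_nonneg_left (Real.exp_le_exp.mpr ?_) (by positivity)
            have h5 : 5 / 2 * LL lam m + -(s / 2 * LL lam m) = (5 - s) / 2 * LL lam m := by ring
            have h6 : θ * LL lam n = (5 - s) / 2 * (5 / 6 * LL lam n) := by rw [hθ]; ring
            rw [h5, h6]
            exact mul_le_mul_of_nonneg_left h2 (by linarith)
    refine (sum_le_sum h1).trans ?_
    rw [sum_const, card_range, nsmul_eq_mul]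
    linarith
  -- domination for large `n`
  have hev : ∀ᶠ n in atTop, 20 * γ * K' / (m₀ * η ^ 2) ≤ LL lam n :=
    (LL_tendsto hlam).eventually_ge_atTop _
  obtain ⟨n₀, hn₀⟩ := eventually_atTop.mp hev
  obtain ⟨t, ht0, ht, n, hn, hlt⟩ := h n₀
  have h1 := hWn t ht0 ht n
  have h2 := hn₀ n hn
  have hL0 : 0 < LL lam n := by linarith [LL_ge (by linarith : (0 : ℝ) ≤ lam) n]
  rw [div_le_iff₀ (by positivity)] at h2
  have hnL : (n : ℝ) ≤ 5 * LL lam n := by
    have h3 := one_add_mul_le_pow (a := (1 / 5 : ℝ)) (by norm_num) n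
    have h4 := pow_le_LL hlam n
    have h5 : (1 + 1 / 5 : ℝ) = 6 / 5 := by norm_num
    rw [h5] at h3
    linarith
  have h5 : (η * LL lam n / 2) ^ 2 ≤ Real.exp (η * LL lam n) := by
    have h6 := Real.add_one_le_exp (η * LL lam n / 2)
    have h7 : Real.exp (η * LL lam n) = Real.exp (η * LL lam n / 2) ^ 2 := by
      rw [← Real.exp_nat_mul]; congr 1; push_cast; ring
    rw [h7]
    refine pow_le_pow_left₀ (by positivity) (by linarith) 2
  have h6 : γ * K' * n ≤ m₀ * Real.exp (η * LL lam n) := by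
    calc γ * K' * n ≤ γ * K' * (5 * LL lam n) := mul_le_mul_of_nonneg_left hnL (by positivity)
      _ = (20 * γ * K') * LL lam n / 4 := by ring
      _ ≤ (LL lam n * (m₀ * η ^ 2)) * LL lam n / 4 := by
          have := mul_le_mul_of_nonneg_right h2 hL0.le
          linarith
      _ = m₀ * (η * LL lam n / 2) ^ 2 := by ring
      _ ≤ _ := mul_le_mul_of_nonneg_left h5 hm₀0.le
  have h7 : γ * K' * n * Real.exp (θ * LL lam n) ≤ m₀ * Real.exp (2 * LL lam n) := by
    have h8 : Real.exp (2 * LL lam n) = Real.exp (η * LL lam n) * Real.exp (θ * LL lam n) := by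
      rw [← Real.exp_add]; congr 1; rw [hη]; ring
    rw [h8, ← mul_assoc m₀]
    exact mul_le_mul_of_nonneg_right h6 (Real.exp_pos _).le
  unfold muu at hlt
  linarith

end Pool.Agent.H402AX
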